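import Mathlib

set_option autoImplicit false

/-!
# Real power series with an explicit growth bound
-/

open Set Filter Topology

namespace Pool.Agent.MP5ad

/-- coefficients of growth at most `poly(n) * (25/24)^n` -/
def Good (c : ℕ → ℝ) : Prop :=
  ∃ (C : ℝ) (k : ℕ), ∀ n : ℕ, |c n| ≤ C * ((n : ℝ) + 1) ^ k * (25 / 24) ^ n

/-- value of the power series -/
noncomputable def PS (c : ℕ → ℝ) (v : ℝ) : ℝ := ∑' n, c n * v ^ n

/-- coefficients of the derivative -/
def der (c : ℕ → ℝ) (n : ℕ) : ℝ := ((n : ℝ) + 1) * c (n + 1)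

/-- coefficients of `v` times the series -/
def sh (c : ℕ → ℝ) : ℕ → ℝ
  | 0 => 0
  | n + 1 => c n

lemma Good.nonnegC {c : ℕ → ℝ} (h : Good c) :
    ∃ (C : ℝ) (k : ℕ), 0 ≤ C ∧ ∀ n : ℕ, |c n| ≤ C * ((n : ℝ) + 1) ^ k * (25 / 24) ^ n := by
  obtain ⟨C, k, hC⟩ := h
  refine ⟨C, k, ?_, hC⟩
  have := hC 0
  have h0 := abs_nonneg (c 0)
  simp at this
  linarith

lemma Good.summable {c : ℕ → ℝ} (h : Good c) {v : ℝ} (hv : |v| < 24 / 25) :
    Summable (fun n => c n * v ^ n) := by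
  obtain ⟨C, k, hC0, hC⟩ := h.nonnegC
  have hr : ‖(25 / 24 * |v| : ℝ)‖ < 1 := by
    rw [Real.norm_of_nonneg (by positivity)]; linarith
  have hs := summable_pow_mul_geometric_of_norm_lt_one k hr
  -- dominate `(n+1)^k` by `2^k n^k` for `n ≥ 1`
  have hs1 : Summable (fun n : ℕ => ((n : ℝ) + 1) ^ k * (25 / 24 * |v|) ^ n) := by
    rw [← summable_nat_add_iff 1]
    have h2 := ((summable_nat_add_iff 1).mpr hs).mul_left (2 ^ k)
    refine Summable.of_nonneg_of_le (fun n => by positivity) (fun n => ?_) h2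
    push_cast
    have : ((n : ℝ) + 1 + 1) ^ k ≤ 2 ^ k * ((n : ℝ) + 1) ^ k := by
      rw [← mul_pow]
      apply pow_le_pow_left₀ (by positivity)
      have := Nat.cast_nonneg (α := ℝ) n
      linarith
    calc ((n : ℝ) + 1 + 1) ^ k * (25 / 24 * |v|) ^ (n + 1)
        ≤ (2 ^ k * ((n : ℝ) + 1) ^ k) * (25 / 24 * |v|) ^ (n + 1) := by gcongr
      _ = _ := by ring
  refine Summable.of_norm_bounded (hs1.mul_left C) (fun n => ?_)
  rw [Real.norm_eq_abs, abs_mul, abs_pow]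
  calc |c n| * |v| ^ n ≤ (C * ((n : ℝ) + 1) ^ k * (25 / 24) ^ n) * |v| ^ n := by
        gcongr; exact hC n
    _ = _ := by rw [mul_pow]; ring

lemma Good.hasSum {c : ℕ → ℝ} (h : Good c) {v : ℝ} (hv : |v| < 24 / 25) :
    HasSum (fun n => c n * v ^ n) (PS c v) := (h.summable hv).hasSum

lemma Good.der {c : ℕ → ℝ} (h : Good c) : Good (der c) := by
  obtain ⟨C, k, hC0, hC⟩ := h.nonnegC
  refine ⟨C * 2 ^ k * (25 / 24), k + 1, fun n => ?_⟩
  unfold Pool.Agent.MP5ad.der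
  rw [abs_mul, abs_of_pos (show (0 : ℝ) < (n : ℝ) + 1 by positivity)]
  have h1 := hC (n + 1)
  push_cast at h1
  have : ((n : ℝ) + 1 + 1) ^ k ≤ 2 ^ k * ((n : ℝ) + 1) ^ k := by
    rw [← mul_pow]
    apply pow_le_pow_left₀ (by positivity)
    have := Nat.cast_nonneg (α := ℝ) n
    linarith
  calc ((n : ℝ) + 1) * |c (n + 1)|
      ≤ ((n : ℝ) + 1) * (C * (2 ^ k * ((n : ℝ) + 1) ^ k) * (25 / 24) ^ (n + 1)) := by
        gcongr
        exact h1.trans (by gcongr)
    _ = _ := by ring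

lemma Good.sh {c : ℕ → ℝ} (h : Good c) : Good (sh c) := by
  obtain ⟨C, k, hC0, hC⟩ := h.nonnegC
  refine ⟨C, k, fun n => ?_⟩
  rcases n with _ | n
  · simp [Pool.Agent.MP5ad.sh, hC0]
  · simp only [Pool.Agent.MP5ad.sh]
    refine (hC n).trans ?_
    push_cast
    gcongr
    · linarith
    · norm_num
    · omega

lemma PS_sh {c : ℕ → ℝ} (h : Good c) {v : ℝ} (hv : |v| < 24 / 25) :
    PS (sh c) v = v * PS c v := by
  unfold PS
  rw [(h.sh.summable hv).tsum_eq_zero_add, ← tsum_mul_left]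
  simp only [sh, zero_mul, zero_add]
  congr 1
  ext n
  ring

lemma Good.add {c d : ℕ → ℝ} (hc : Good c) (hd : Good d) : Good (fun n => c n + d n) := by
  obtain ⟨C, k, hC0, hC⟩ := hc.nonnegC
  obtain ⟨D, l, hD0, hD⟩ := hd.nonnegC
  refine ⟨C + D, k + l, fun n => ?_⟩
  have h1 : (1 : ℝ) ≤ (n : ℝ) + 1 := by
    have := Nat.cast_nonneg (α := ℝ) n
    linarith
  have h2 : ((n : ℝ) + 1) ^ k ≤ ((n : ℝ) + 1) ^ (k + l) := pow_le_pow_right₀ h1 (by omega)
  have h3 : ((n : ℝ) + 1) ^ l ≤ ((n : ℝ) + 1) ^ (k + l) := pow_le_pow_right₀ h1 (by omega)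
  calc |c n + d n| ≤ |c n| + |d n| := abs_add_le _ _
    _ ≤ C * ((n : ℝ) + 1) ^ k * (25 / 24) ^ n + D * ((n : ℝ) + 1) ^ l * (25 / 24) ^ n :=
        add_le_add (hC n) (hD n)
    _ ≤ C * ((n : ℝ) + 1) ^ (k + l) * (25 / 24) ^ n +
        D * ((n : ℝ) + 1) ^ (k + l) * (25 / 24) ^ n := by gcongr
    _ = _ := by ring

lemma Good.const_mul {c : ℕ → ℝ} (hc : Good c) (a : ℝ) : Good (fun n => a * c n) := by
  obtain ⟨C, k, hC0, hC⟩ := hc.nonnegC
  refine ⟨|a| * C, k, fun n => ?_⟩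
  rw [abs_mul]
  calc |a| * |c n| ≤ |a| * (C * ((n : ℝ) + 1) ^ k * (25 / 24) ^ n) := by gcongr; exact hC n
    _ = _ := by ring

lemma PS_hasDerivAt {c : ℕ → ℝ} (h : Good c) {v : ℝ} (hv : |v| < 24 / 25) :
    HasDerivAt (PS c) (PS (der c) v) v := by
  obtain ⟨ρ, hρ1, hρ2⟩ := exists_between hv
  have hρ0 : 0 < ρ := lt_of_le_of_lt (abs_nonneg v) hρ1
  have habs : |ρ| < 24 / 25 := by rwa [abs_of_pos hρ0]
  have hsum : Summable (fun n : ℕ => |c n * n| * ρ ^ (n - 1)) := by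
    rw [← summable_nat_add_iff 1]
    have h1 := (h.der.summable habs).norm
    refine h1.congr (fun n => ?_)
    rw [Real.norm_eq_abs, abs_mul, abs_pow, abs_of_pos hρ0]
    simp only [der, Nat.add_sub_cancel]
    push_cast
    rw [mul_comm (c (n + 1))]
  have hs : v ∈ Ioo (-ρ) ρ := abs_lt.mp hρ1
  have key := hasDerivAt_tsum_of_isPreconnected (g := fun n y => c n * y ^ n)
    (g' := fun n y => c n * (n * y ^ (n - 1))) (t := Ioo (-ρ) ρ) (y₀ := 0) hsum isOpen_Ioo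
    isPreconnected_Ioo (fun n y _ => (hasDerivAt_pow n y).const_mul (c n))
    (fun n y hy => by
      rw [Real.norm_eq_abs, ← mul_assoc, abs_mul, abs_pow]
      have : |y| ≤ ρ := (abs_lt.mpr hy).le
      gcongr)
    ⟨by linarith, hρ0⟩ (h.summable (by simp)) hs
  have e : (∑' n, c n * ((n : ℝ) * v ^ (n - 1))) = PS (der c) v := by
    have hsumm : Summable (fun n : ℕ => c n * ((n : ℝ) * v ^ (n - 1))) := by
      refine Summable.of_norm_bounded hsum (fun n => ?_)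
      rw [Real.norm_eq_abs, ← mul_assoc, abs_mul, abs_pow]
      gcongr
    rw [hsumm.tsum_eq_zero_add]
    simp only [Nat.cast_zero, zero_mul, mul_zero, zero_add, PS, der, Nat.add_sub_cancel]
    congr 1
    ext n
    push_cast
    ring
  rw [e] at key
  exact key

lemma PS_nonneg {c : ℕ → ℝ} (hc : ∀ n, 0 ≤ c n) {v : ℝ} (hv : 0 ≤ v) : 0 ≤ PS c v :=
  tsum_nonneg fun n => mul_nonneg (hc n) (pow_nonneg hv n)

lemma PS_ge_zero_coeff {c : ℕ → ℝ} (h : Good c) (hc : ∀ n, 0 ≤ c n) {v : ℝ} (hv0 : 0 ≤ v)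
    (hv : |v| < 24 / 25) : c 0 ≤ PS c v := by
  have := (h.summable hv).sum_le_tsum {0} (fun n _ => mul_nonneg (hc n) (pow_nonneg hv0 n))
  simp at this
  exact this

/-- termwise comparison: `(1 - r v) w' ≤ r h w` from `(n+1) c (n+1) ≤ r (n + h) c n`. -/
lemma PS_log_deriv_bound {c : ℕ → ℝ} (hg : Good c) {r h : ℝ}
    (hr : ∀ n : ℕ, ((n : ℝ) + 1) * c (n + 1) ≤ r * ((n + h) * c n)) {v : ℝ} (hv0 : 0 ≤ v)
    (hv : |v| < 24 / 25) : (1 - r * v) * PS (der c) v ≤ r * h * PS c v := by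
  -- `PS (der c) ≤ r (v PS (der c) + h PS c)`
  have h1 : PS (fun n => r * ((n : ℝ) * c n) + r * h * c n) v =
      r * (v * PS (der c) v) + r * h * PS c v := by
    have e1 : (fun n : ℕ => (n : ℝ) * c n) = sh (der c) := by
      ext n
      rcases n with _ | n
      · simp [sh]
      · simp [sh, der]
    have hs1 := (hg.der.sh.hasSum hv)
    rw [PS_sh hg.der hv] at hs1
    have hs2 := hg.hasSum hv
    have hs := (hs1.mul_left r).add (hs2.mul_left (r * h))
    unfold PS at *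
    rw [← hs.tsum_eq]
    congr 1
    ext n
    have h3 : (n : ℝ) * c n = sh (der c) n := congrFun e1 n
    rw [← h3]
    ring
  have hgood : Good (fun n => r * ((n : ℝ) * c n) + r * h * c n) := by
    have e1 : (fun n : ℕ => (n : ℝ) * c n) = sh (der c) := by
      ext n
      rcases n with _ | n
      · simp [sh]
      · simp [sh, der]
    have := (hg.der.sh.const_mul r).add (hg.const_mul (r * h))
    simp only [← e1] at this
    exact this
  have h2 : PS (der c) v ≤ PS (fun n => r * ((n : ℝ) * c n) + r * h * c n) v := by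
    apply (hg.der.summable hv).tsum_le_tsum _ (hgood.summable hv)
    intro n
    have := hr n
    have hvn := pow_nonneg hv0 n
    simp only [der]
    apply mul_le_mul_of_nonneg_right _ hvn
    linarith
  rw [h1] at h2
  linarith

end Pool.Agent.MP5ad
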