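import Mathlib
import Pool.Agent.Lib.MP_5ad3e6_co.PowSer

set_option autoImplicit false

/-!
# Coefficients of the Frobenius solutions at the top singularity: positivity and ratio bounds
-/

namespace Pool.Agent.MP5ad

/-- sequences defined by a three-term recurrence -/
noncomputable def recSeq (P Q N : ℕ → ℝ) : ℕ → ℝ
  | 0 => 1
  | 1 => Q 0 / P 0
  | n + 2 => (Q (n + 1) * recSeq P Q N (n + 1) - N (n + 1) * recSeq P Q N n) / P (n + 1)

lemma recSeq_one {P Q N : ℕ → ℝ} (h : P 0 ≠ 0) : P 0 * recSeq P Q N 1 = Q 0 * recSeq P Q N 0 := by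
  simp only [recSeq]; field_simp

lemma recSeq_succ {P Q N : ℕ → ℝ} (n : ℕ) (h : P (n + 1) ≠ 0) :
    P (n + 1) * recSeq P Q N (n + 2) =
      Q (n + 1) * recSeq P Q N (n + 1) - N (n + 1) * recSeq P Q N n := by
  rw [recSeq]; field_simp

lemma low_step {x P Q N K K' c0 c1 c2 : ℝ} (hx : 0 < x) (hP : 0 < P) (hN : 0 ≤ N)
    (hK' : 0 ≤ K') (hrec : P * c2 = Q * c1 - N * c0) (h : x * c0 ≤ (x + K) * c1) (hc1 : 0 < c1)
    (hineq : P * x * (x + 1) ≤ (Q * x - N * (x + K)) * (x + 1 + K')) :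
    (x + 1) * c1 ≤ (x + 1 + K') * c2 ∧ 0 < c2 := by
  have h1 : N * (x * c0) ≤ N * ((x + K) * c1) := mul_le_mul_of_nonneg_left h hN
  have h2 : (Q * x - N * (x + K)) * c1 ≤ P * x * c2 := by
    have : P * x * c2 = x * (P * c2) := by ring
    rw [this, hrec]
    linarith
  have h3 : (Q * x - N * (x + K)) * c1 * (x + 1 + K') ≤ P * x * c2 * (x + 1 + K') :=
    mul_le_mul_of_nonneg_right h2 (by linarith)
  have h4 : P * x * (x + 1) * c1 ≤ (Q * x - N * (x + K)) * (x + 1 + K') * c1 :=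
    mul_le_mul_of_nonneg_right hineq hc1.le
  have h5 : 0 < P * x := by positivity
  have h6 : P * x * ((x + 1) * c1) ≤ P * x * ((x + 1 + K') * c2) := by linarith
  have h7 := le_of_mul_le_mul_left h6 h5
  refine ⟨h7, ?_⟩
  have h8 : 0 < (x + 1) * c1 := by positivity
  have h9 : 0 < (x + 1 + K') * c2 := by linarith
  exact pos_of_mul_pos_right h9 (by linarith)

lemma up_step {x P Q N r h c0 c1 c2 : ℝ} (hx : 0 < x) (hP : 0 < P) (hN : 0 ≤ N)
    (hr : 0 < r) (hh : 0 < x - 1 + h) (hc1 : 0 < c1) (hrec : P * c2 = Q * c1 - N * c0)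
    (h' : x * c1 ≤ r * ((x - 1 + h) * c0))
    (hineq : (x + 1) * (Q * (r * (x - 1 + h)) - N * x) ≤ P * (r * (x + h)) * (r * (x - 1 + h))) :
    (x + 1) * c2 ≤ r * ((x + h) * c1) := by
  have h0 : 0 < r * (x - 1 + h) := by positivity
  have h1 : N * (x * c1) ≤ N * (r * ((x - 1 + h) * c0)) := mul_le_mul_of_nonneg_left h' hN
  have h2 : P * (r * (x - 1 + h)) * ((x + 1) * c2) ≤
      (x + 1) * (Q * (r * (x - 1 + h)) - N * x) * c1 := by
    have e : P * (r * (x - 1 + h)) * ((x + 1) * c2) = (x + 1) * (r * (x - 1 + h)) * (P * c2) := by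
      ring
    rw [e, hrec]
    have : (x + 1) * (N * (x * c1)) ≤ (x + 1) * (N * (r * ((x - 1 + h) * c0))) :=
      mul_le_mul_of_nonneg_left h1 (by linarith)
    linarith
  have h3 : (x + 1) * (Q * (r * (x - 1 + h)) - N * x) * c1 ≤
      P * (r * (x + h)) * (r * (x - 1 + h)) * c1 := mul_le_mul_of_nonneg_right hineq hc1.le
  have h4 : P * (r * (x - 1 + h)) * ((x + 1) * c2) ≤
      P * (r * (x - 1 + h)) * (r * ((x + h) * c1)) := by
    calc _ ≤ _ := h2
      _ ≤ _ := h3
      _ = _ := by ring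
  exact le_of_mul_le_mul_left h4 (by positivity)

/-! ### Constants -/

/-- `√125 = 5√5` -/
noncomputable def SS : ℝ := Real.sqrt 125

lemma SS_sq : SS ^ 2 = 125 := Real.sq_sqrt (by norm_num)

lemma SS_lo : 11.18033 < SS := by
  rw [SS, Real.lt_sqrt (by norm_num)]; norm_num

lemma SS_hi : SS < 11.18034 := by
  rw [SS, Real.sqrt_lt' (by norm_num)]; norm_num

/-- `√1152 = 24√2` -/
noncomputable def TT : ℝ := Real.sqrt 1152

lemma TT_sq : TT ^ 2 = 1152 := Real.sq_sqrt (by norm_num)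

lemma TT_lo : 33.941125 < TT := by
  rw [TT, Real.lt_sqrt (by norm_num)]; norm_num

lemma TT_hi : TT < 33.941126 := by
  rw [TT, Real.sqrt_lt' (by norm_num)]; norm_num

/-! ### Second Apéry sequence -/

/-- `((1+√5)/2)^5` -/
noncomputable def αB : ℝ := (11 + SS) / 2

noncomputable def PB (n : ℕ) : ℝ := SS * ((n : ℝ) + 1) ^ 2
noncomputable def QB (n : ℕ) : ℝ := (SS + αB) * n * (n + 1) + (αB - 3)
noncomputable def NB (n : ℕ) : ℝ := αB * (n : ℝ) ^ 2

/-- Frobenius coefficients for the second sequence -/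
noncomputable def bB : ℕ → ℝ := recSeq PB QB NB

lemma PB_pos (n : ℕ) : 0 < PB n := by
  have := SS_lo
  unfold PB
  have : 0 < SS := by linarith
  positivity

lemma bB_zero : bB 0 = 1 := rfl

lemma bB_one : PB 0 * bB 1 = QB 0 * bB 0 := recSeq_one (PB_pos 0).ne'

lemma bB_rec (n : ℕ) : PB (n + 1) * bB (n + 2) = QB (n + 1) * bB (n + 1) - NB (n + 1) * bB n :=
  recSeq_succ n (PB_pos _).ne'

lemma bB_low (n : ℕ) :
    ((n : ℝ) + 1) * bB n ≤ ((n : ℝ) + 1 + (147.3 + 3.2 * ((n : ℝ) + 1)) / (300 + ((n : ℝ) + 1))) * bB (n + 1) ∧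
      0 < bB (n + 1) := by
  have s1 := SS_lo
  have s2 := SS_hi
  induction n with
  | zero =>
    have h := bB_one
    rw [bB_zero] at h
    unfold PB QB αB at h
    simp only [Nat.cast_zero] at h
    have h1 : 0.7 < bB 1 := by
      by_contra hcon
      push Not at hcon
      nlinarith
    rw [bB_zero]
    norm_num
    constructor
    · norm_num at h
      nlinarith
    · linarith
  | succ n ih =>
    obtain ⟨ih1, ih2⟩ := ih
    obtain ⟨x, hx⟩ : ∃ x : ℝ, x = (n : ℝ) := ⟨_, rfl⟩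
    have hx0 : 0 ≤ x := by rw [hx]; positivity
    have hrec := bB_rec n
    unfold PB QB NB αB at hrec
    push_cast at hrec ih1 ⊢
    rw [← hx] at hrec ih1 ⊢
    have e1 : (x + 1) / (x + 1) = 1 := div_self (by positivity)
    have key := low_step (x := x + 1) (P := SS * (x + 1 + 1) ^ 2)
      (Q := (SS + (11 + SS) / 2) * (x + 1) * (x + 1 + 1) + ((11 + SS) / 2 - 3))
      (N := (11 + SS) / 2 * (x + 1) ^ 2) (K := (147.3 + 3.2 * (x + 1)) / (300 + (x + 1)))
      (K' := (147.3 + 3.2 * (x + 1 + 1)) / (300 + (x + 1 + 1))) (c0 := bB n) (c1 := bB (n + 1))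
      (c2 := bB (n + 2)) (by positivity) (by have : 0 < SS := by linarith
                                             positivity)
      (by have : 0 < SS := by linarith
          positivity) (by positivity) hrec ih1 ih2 ?_
    · exact key
    · have d1 : (0 : ℝ) < 300 + (x + 1) := by positivity
      have d2 : (0 : ℝ) < 300 + (x + 1 + 1) := by positivity
      rw [← sub_nonneg]
      have e : (((SS + (11 + SS) / 2) * (x + 1) * (x + 1 + 1) + ((11 + SS) / 2 - 3)) * (x + 1) -
          (11 + SS) / 2 * (x + 1) ^ 2 * (x + 1 + (147.3 + 3.2 * (x + 1)) / (300 + (x + 1)))) *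
          (x + 1 + 1 + (147.3 + 3.2 * (x + 1 + 1)) / (300 + (x + 1 + 1))) -
          SS * (x + 1 + 1) ^ 2 * (x + 1) * (x + 1 + 1) =
          ((47894217/40 - 4001193/40 * SS) + (57568012/25 - 9955611/50 * SS) * x +
            (269822563/200 - 24090967/200 * SS) * x ^ 2 +
            x ^ 3 * ((24084879/100 - 2111621/100 * SS) + (-291107/100 + 25733/100 * SS) * x +
              (-121/10 + 11/10 * SS) * x ^ 2)) / ((300 + (x + 1)) * (300 + (x + 1 + 1))) := by
        rw [eq_div_iff (by positivity)]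
        field_simp
        ring
      rw [e]
      apply div_nonneg _ (by positivity)
      have c0 : 0 ≤ (47894217/40 - 4001193/40 * SS) := by linarith
      have c1 : 0 ≤ (57568012/25 - 9955611/50 * SS) := by linarith
      have c2 : 0 ≤ (269822563/200 - 24090967/200 * SS) := by linarith
      have c3 : 0 ≤ (24084879/100 - 2111621/100 * SS) + (-291107/100 + 25733/100 * SS) * x +
              (-121/10 + 11/10 * SS) * x ^ 2 := by
        have a3 : 4762 ≤ (24084879/100 - 2111621/100 * SS) := by linarith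
        have a4 : -35 ≤ (-291107/100 + 25733/100 * SS) := by linarith
        have a5 : 0.19 ≤ (-121/10 + 11/10 * SS) := by linarith
        have b4 : -35 * x ≤ (-291107/100 + 25733/100 * SS) * x := by gcongr
        have b5 : 0.19 * x ^ 2 ≤ (-121/10 + 11/10 * SS) * x ^ 2 := by gcongr
        nlinarith [sq_nonneg (x - 92)]
      positivity

lemma bB_pos (n : ℕ) : 0 < bB n := by
  rcases n with _ | n
  · rw [bB_zero]; norm_num
  · exact (bB_low n).2

lemma bB_up (n : ℕ) : ((n : ℝ) + 1) * bB (n + 1) ≤ 1 * (((n : ℝ) + 3 / 4) * bB n) := by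
  have s1 := SS_lo
  have s2 := SS_hi
  induction n with
  | zero =>
    have h := bB_one
    rw [bB_zero] at h ⊢
    unfold PB QB αB at h
    simp only [Nat.cast_zero] at h ⊢
    norm_num at h ⊢
    nlinarith
  | succ n ih =>
    obtain ⟨x, hx⟩ : ∃ x : ℝ, x = (n : ℝ) := ⟨_, rfl⟩
    have hx0 : 0 ≤ x := by rw [hx]; positivity
    have hrec := bB_rec n
    have hc1 := bB_pos (n + 1)
    unfold PB QB NB αB at hrec
    push_cast at hrec ih ⊢
    rw [← hx] at hrec ih ⊢
    have key := up_step (x := x + 1) (P := SS * (x + 1 + 1) ^ 2)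
      (Q := (SS + (11 + SS) / 2) * (x + 1) * (x + 1 + 1) + ((11 + SS) / 2 - 3))
      (N := (11 + SS) / 2 * (x + 1) ^ 2) (r := 1) (h := 3 / 4) (c0 := bB n) (c1 := bB (n + 1))
      (c2 := bB (n + 2)) (by positivity) (by have : 0 < SS := by linarith
                                             positivity)
      (by have : 0 < SS := by linarith
          positivity) one_pos (by linarith) hc1 hrec (by
            have e : x + 1 - 1 + 3 / 4 = x + 3 / 4 := by ring
            rw [e]; exact ih) ?_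
    · exact key
    · rw [← sub_nonneg]
      have e : SS * (x + 1 + 1) ^ 2 * (1 * (x + 1 + 3 / 4)) * (1 * (x + 1 - 1 + 3 / 4)) -
          (x + 1 + 1) * (((SS + (11 + SS) / 2) * (x + 1) * (x + 1 + 1) + ((11 + SS) / 2 - 3)) *
            (1 * (x + 1 - 1 + 3 / 4)) - (11 + SS) / 2 * (x + 1) ^ 2 * (x + 1)) =
          (-37/4 + SS) + (-187/8 + 19/8 * SS) * x + (-141/8 + 27/16 * SS) * x ^ 2 +
            (-33/8 + 3/8 * SS) * x ^ 3 := by ring
      rw [e]
      have c0 : 0 ≤ -37/4 + SS := by linarith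
      have c1 : 0 ≤ -187/8 + 19/8 * SS := by linarith
      have c2 : 0 ≤ -141/8 + 27/16 * SS := by linarith
      have c3 : 0 ≤ -33/8 + 3/8 * SS := by linarith
      positivity

/-! ### First Apéry sequence -/

/-- `17 + 12√2` -/
noncomputable def αA : ℝ := 17 + TT / 2

noncomputable def PE (n : ℕ) : ℝ := TT * ((n : ℝ) + 1) * (n + 1 / 2)
noncomputable def QE (n : ℕ) : ℝ := (αA + TT) * (n : ℝ) ^ 2 + TT / 2 * n + (αA - 10) / 4
noncomputable def NE (n : ℕ) : ℝ := αA * ((n : ℝ) - 1 / 2) ^ 2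

noncomputable def PO (n : ℕ) : ℝ := TT * ((n : ℝ) + 3 / 2) * (n + 1)
noncomputable def QO (n : ℕ) : ℝ :=
  (αA + TT) * ((n : ℝ) + 1 / 2) ^ 2 + TT / 2 * (n + 1 / 2) + (αA - 10) / 4
noncomputable def NO (n : ℕ) : ℝ := αA * (n : ℝ) ^ 2

/-- coefficients of the solution with exponent `0` -/
noncomputable def cE : ℕ → ℝ := recSeq PE QE NE

/-- coefficients of the solution with exponent `1/2` -/
noncomputable def cO : ℕ → ℝ := recSeq PO QO NO

lemma TT_pos : 0 < TT := by have := TT_lo; linarith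

lemma PE_pos (n : ℕ) : 0 < PE n := by
  have := TT_pos
  unfold PE
  positivity

lemma PO_pos (n : ℕ) : 0 < PO n := by
  have := TT_pos
  unfold PO
  positivity

lemma cE_zero : cE 0 = 1 := rfl
lemma cO_zero : cO 0 = 1 := rfl
lemma cE_one : PE 0 * cE 1 = QE 0 * cE 0 := recSeq_one (PE_pos 0).ne'
lemma cO_one : PO 0 * cO 1 = QO 0 * cO 0 := recSeq_one (PO_pos 0).ne'

lemma cE_rec (n : ℕ) : PE (n + 1) * cE (n + 2) = QE (n + 1) * cE (n + 1) - NE (n + 1) * cE n :=
  recSeq_succ n (PE_pos _).ne'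

lemma cO_rec (n : ℕ) : PO (n + 1) * cO (n + 2) = QO (n + 1) * cO (n + 1) - NO (n + 1) * cO n :=
  recSeq_succ n (PO_pos _).ne'

lemma cO_low (n : ℕ) :
    ((n : ℝ) + 1) * cO n ≤ ((n : ℝ) + 1 + (31.8 + 0.84 * ((n : ℝ) + 1)) / (50 + ((n : ℝ) + 1))) * cO (n + 1) ∧
      0 < cO (n + 1) := by
  have s1 := TT_lo
  have s2 := TT_hi
  have s0 := TT_pos
  induction n with
  | zero =>
    have h := cO_one
    rw [cO_zero] at h
    unfold PO QO αA at h
    simp only [Nat.cast_zero] at h
    have h1 : 0.61 < cO 1 := by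
      by_contra hcon
      push Not at hcon
      nlinarith
    rw [cO_zero]
    norm_num
    constructor
    · norm_num at h
      nlinarith
    · linarith
  | succ n ih =>
    obtain ⟨ih1, ih2⟩ := ih
    obtain ⟨x, hx⟩ : ∃ x : ℝ, x = (n : ℝ) := ⟨_, rfl⟩
    have hx0 : 0 ≤ x := by rw [hx]; positivity
    have hrec := cO_rec n
    unfold PO QO NO αA at hrec
    push_cast at hrec ih1 ⊢
    rw [← hx] at hrec ih1 ⊢
    have key := low_step (x := x + 1) (P := TT * (x + 1 + 3 / 2) * (x + 1 + 1))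
      (Q := (17 + TT / 2 + TT) * (x + 1 + 1 / 2) ^ 2 + TT / 2 * (x + 1 + 1 / 2) + (17 + TT / 2 - 10) / 4)
      (N := (17 + TT / 2) * (x + 1) ^ 2) (K := (31.8 + 0.84 * (x + 1)) / (50 + (x + 1)))
      (K' := (31.8 + 0.84 * (x + 1 + 1)) / (50 + (x + 1 + 1))) (c0 := cO n) (c1 := cO (n + 1))
      (c2 := cO (n + 2)) (by positivity) (by positivity)
      (by positivity) (by positivity) hrec ih1 ih2 ?_
    · exact key
    · rw [← sub_nonneg]
      have e : (((17 + TT / 2 + TT) * (x + 1 + 1 / 2) ^ 2 + TT / 2 * (x + 1 + 1 / 2) + (17 + TT / 2 - 10) / 4) * (x + 1) -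
          (17 + TT / 2) * (x + 1) ^ 2 * (x + 1 + (31.8 + 0.84 * (x + 1)) / (50 + (x + 1)))) *
          (x + 1 + 1 + (31.8 + 0.84 * (x + 1 + 1)) / (50 + (x + 1 + 1))) -
          TT * (x + 1 + 3 / 2) * (x + 1 + 1) * (x + 1) * (x + 1 + 1) =
          ((53111961/625 - 6176559/2500 * TT) + (101866201/625 - 11938519/2500 * TT) * x +
            (60371072/625 - 3551509/1250 * TT) * x ^ 2 + (2382117/125 - 275133/500 * TT) * x ^ 3 +
            (295453/625 - 34807/2500 * TT) * x ^ 4 + (68/25 - 2/25 * TT) * x ^ 5) /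
            ((50 + (x + 1)) * (50 + (x + 1 + 1))) := by
        rw [eq_div_iff (by positivity)]
        field_simp
        ring
      rw [e]
      apply div_nonneg _ (by positivity)
      have c0 : 0 ≤ (53111961/625 - 6176559/2500 * TT) := by linarith
      have c1 : 0 ≤ (101866201/625 - 11938519/2500 * TT) := by linarith
      have c2 : 0 ≤ (60371072/625 - 3551509/1250 * TT) := by linarith
      have c3 : 0 ≤ (2382117/125 - 275133/500 * TT) := by linarith
      have c4 : 0 ≤ (295453/625 - 34807/2500 * TT) := by linarith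
      have c5 : 0 ≤ (68/25 - 2/25 * TT) := by linarith
      positivity

lemma cO_pos (n : ℕ) : 0 < cO n := by
  rcases n with _ | n
  · rw [cO_zero]; norm_num
  · exact (cO_low n).2

/-- ratio limit -/
noncomputable def rA : ℝ := αA / TT

lemma rA_mul : rA * TT = αA := by unfold rA; field_simp [TT_pos.ne']

lemma rA_pos : 0 < rA := by
  have := TT_pos
  unfold rA αA
  positivity

lemma rA_le : rA ≤ 1.00087 := by
  have s1 := TT_lo
  unfold rA αA
  rw [div_le_iff₀ TT_pos]
  linarith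

lemma cO_up (n : ℕ) : ((n : ℝ) + 1) * cO (n + 1) ≤ rA * (((n : ℝ) + 62 / 100) * cO n) := by
  have s1 := TT_lo
  have s2 := TT_hi
  have s0 := TT_pos
  have hr0 := rA_pos
  have hrm := rA_mul
  unfold αA at hrm
  induction n with
  | zero =>
    have h := cO_one
    rw [cO_zero] at h ⊢
    unfold PO QO αA at h
    simp only [Nat.cast_zero] at h ⊢
    norm_num at h ⊢
    -- TT * (3/2) * cO 1 = ..., want cO 1 ≤ rA * 31/50
    have h2 : TT * cO 1 ≤ TT * (rA * (31 / 50)) := by
      have : TT * (rA * (31 / 50)) = (17 + TT / 2) * (31 / 50) := by rw [← hrm]; ring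
      rw [this]; nlinarith
    have := le_of_mul_le_mul_left h2 s0
    linarith
  | succ n ih =>
    obtain ⟨x, hx⟩ : ∃ x : ℝ, x = (n : ℝ) := ⟨_, rfl⟩
    have hx0 : 0 ≤ x := by rw [hx]; positivity
    have hrec := cO_rec n
    have hc1 := cO_pos (n + 1)
    unfold PO QO NO αA at hrec
    push_cast at hrec ih ⊢
    rw [← hx] at hrec ih ⊢
    have key := up_step (x := x + 1) (P := TT * (x + 1 + 3 / 2) * (x + 1 + 1))
      (Q := (17 + TT / 2 + TT) * (x + 1 + 1 / 2) ^ 2 + TT / 2 * (x + 1 + 1 / 2) + (17 + TT / 2 - 10) / 4)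
      (N := (17 + TT / 2) * (x + 1) ^ 2) (r := rA) (h := 62 / 100) (c0 := cO n) (c1 := cO (n + 1))
      (c2 := cO (n + 2)) (by positivity) (by positivity)
      (by positivity) hr0 (by linarith) hc1 hrec (by
            have e : x + 1 - 1 + 62 / 100 = x + 62 / 100 := by ring
            rw [e]; exact ih) ?_
    · exact key
    · rw [← sub_nonneg]
      have e : TT * (x + 1 + 3 / 2) * (x + 1 + 1) * (rA * (x + 1 + 62 / 100)) * (rA * (x + 1 - 1 + 62 / 100)) -
          (x + 1 + 1) * (((17 + TT / 2 + TT) * (x + 1 + 1 / 2) ^ 2 + TT / 2 * (x + 1 + 1 / 2) + (17 + TT / 2 - 10) / 4) *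
            (rA * (x + 1 - 1 + 62 / 100)) - (17 + TT / 2) * (x + 1) ^ 2 * (x + 1)) =
          rA * (x + 2) * ((17887/1000 - 759/2000 * TT) + (101637/2500 - 5239/5000 * TT) * x +
            (476/25 - 14/25 * TT) * x ^ 2) := by
        linear_combination ((x + 1 + 3 / 2) * (x + 1 + 1) * (x + 1 + 62 / 100) * (rA * (x + 1 - 1 + 62 / 100)) -
          (x + 1 + 1) * (x + 1) ^ 2 * (x + 1)) * hrm
      rw [e]
      have c0 : 0 ≤ (17887/1000 - 759/2000 * TT) := by linarith
      have c1 : 0 ≤ (101637/2500 - 5239/5000 * TT) := by linarith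
      have c2 : 0 ≤ (476/25 - 14/25 * TT) := by linarith
      positivity

lemma cE_base : (((0 : ℝ) + 1) * cE 0 ≤ (0 + 1 + 1.832) * cE 1 ∧ 0 < cE 1) ∧ (0 < cE 2) ∧ (0 < cE 3) ∧
    (0 < cE 4) ∧ (0 < cE 5) ∧ (((5 : ℝ) + 1) * cE 5 ≤ (5 + 1 + 0.813) * cE 6 ∧ 0 < cE 6) := by
  have s1 := TT_lo
  have s2 := TT_hi
  have s0 := TT_pos
  have h0 : ((0 : ℝ) + 1) * cE 0 ≤ (0 + 1 + 1.832) * cE 1 ∧ 0 < cE 1 := by
    have h := cE_one
    rw [cE_zero] at h ⊢
    unfold PE QE αA at h
    simp only [Nat.cast_zero] at h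
    norm_num at h ⊢
    have h1 : 0.35311 < cE 1 := by
      by_contra hcon
      push Not at hcon
      nlinarith
    constructor <;> linarith

  have h1 : ((1 : ℝ) + 1) * cE 1 ≤ (1 + 1 + 1.0476) * cE 2 ∧ 0 < cE 2 := by
    have hrec := cE_rec 0
    unfold PE QE NE αA at hrec
    refine low_step (x := 1) (P := PE 1) (Q := QE 1) (N := NE 1) (K := 1.832) (c0 := cE 0) (by norm_num)
      (PE_pos _) (by unfold NE αA; positivity) (by norm_num) (cE_rec 0) (by
        have := h0.1
        norm_num at this ⊢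
        linarith) h0.2 ?_
    unfold PE QE NE αA
    norm_num
    nlinarith

  have h2 : ((2 : ℝ) + 1) * cE 2 ≤ (2 + 1 + 0.9141) * cE 3 ∧ 0 < cE 3 := by
    have hrec := cE_rec 1
    unfold PE QE NE αA at hrec
    refine low_step (x := 2) (P := PE 2) (Q := QE 2) (N := NE 2) (K := 1.0476) (c0 := cE 1) (by norm_num)
      (PE_pos _) (by unfold NE αA; positivity) (by norm_num) (cE_rec 1) (by
        have := h1.1
        norm_num at this ⊢
        linarith) h1.2 ?_
    unfold PE QE NE αA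
    norm_num
    nlinarith

  have h3 : ((3 : ℝ) + 1) * cE 3 ≤ (3 + 1 + 0.8599) * cE 4 ∧ 0 < cE 4 := by
    have hrec := cE_rec 2
    unfold PE QE NE αA at hrec
    refine low_step (x := 3) (P := PE 3) (Q := QE 3) (N := NE 3) (K := 0.9141) (c0 := cE 2) (by norm_num)
      (PE_pos _) (by unfold NE αA; positivity) (by norm_num) (cE_rec 2) (by
        have := h2.1
        norm_num at this ⊢
        linarith) h2.2 ?_
    unfold PE QE NE αA
    norm_num
    nlinarith

  have h4 : ((4 : ℝ) + 1) * cE 4 ≤ (4 + 1 + 0.8309) * cE 5 ∧ 0 < cE 5 := by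
    have hrec := cE_rec 3
    unfold PE QE NE αA at hrec
    refine low_step (x := 4) (P := PE 4) (Q := QE 4) (N := NE 4) (K := 0.8599) (c0 := cE 3) (by norm_num)
      (PE_pos _) (by unfold NE αA; positivity) (by norm_num) (cE_rec 3) (by
        have := h3.1
        norm_num at this ⊢
        linarith) h3.2 ?_
    unfold PE QE NE αA
    norm_num
    nlinarith

  have h5 : ((5 : ℝ) + 1) * cE 5 ≤ (5 + 1 + 0.813) * cE 6 ∧ 0 < cE 6 := by
    have hrec := cE_rec 4
    unfold PE QE NE αA at hrec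
    refine low_step (x := 5) (P := PE 5) (Q := QE 5) (N := NE 5) (K := 0.8309) (c0 := cE 4) (by norm_num)
      (PE_pos _) (by unfold NE αA; positivity) (by norm_num) (cE_rec 4) (by
        have := h4.1
        norm_num at this ⊢
        linarith) h4.2 ?_
    unfold PE QE NE αA
    norm_num
    nlinarith

  exact ⟨h0, h1.2, h2.2, h3.2, h4.2, h5⟩

lemma cE_low (n : ℕ) :
    ((n : ℝ) + 5 + 1) * cE (n + 5) ≤ ((n : ℝ) + 5 + 1 + (40.608 + 0.82 * ((n : ℝ) + 6)) / (50 + ((n : ℝ) + 6))) * cE (n + 6) ∧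
      0 < cE (n + 6) := by
  have s1 := TT_lo
  have s2 := TT_hi
  have s0 := TT_pos
  induction n with
  | zero =>
    obtain ⟨_, _, _, _, _, h, h'⟩ := cE_base
    refine ⟨?_, h'⟩
    norm_num at h ⊢
    linarith
  | succ n ih =>
    obtain ⟨ih1, ih2⟩ := ih
    obtain ⟨x, hx⟩ : ∃ x : ℝ, x = (n : ℝ) := ⟨_, rfl⟩
    have hx0 : 0 ≤ x := by rw [hx]; positivity
    have hrec := cE_rec (n + 5)
    unfold PE QE NE αA at hrec
    rw [show n + 1 + 5 = n + 6 by ring, show n + 1 + 6 = n + 7 by ring]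
    rw [show n + 5 + 1 = n + 6 by ring, show n + 5 + 2 = n + 7 by ring] at hrec
    push_cast at hrec ih1 ⊢
    rw [← hx] at hrec ih1 ⊢
    have key := low_step (x := x + 6) (P := TT * (x + 6 + 1) * (x + 6 + 1 / 2))
      (Q := (17 + TT / 2 + TT) * (x + 6) ^ 2 + TT / 2 * (x + 6) + (17 + TT / 2 - 10) / 4)
      (N := (17 + TT / 2) * (x + 6 - 1 / 2) ^ 2) (K := (40.608 + 0.82 * (x + 6)) / (50 + (x + 6)))
      (K' := (40.608 + 0.82 * (x + 1 + 6)) / (50 + (x + 1 + 6))) (c0 := cE (n + 5)) (c1 := cE (n + 6))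
      (c2 := cE (n + 7)) (by positivity) (by positivity)
      (by positivity) (by positivity) hrec (by
        have e : x + 5 + 1 = x + 6 := by ring
        rw [e] at ih1; exact ih1) ih2 ?_
    · have e : x + 1 + 5 + 1 = x + 6 + 1 := by ring
      rw [e]; exact key
    · rw [← sub_nonneg]
      have e : (((17 + TT / 2 + TT) * (x + 6) ^ 2 + TT / 2 * (x + 6) + (17 + TT / 2 - 10) / 4) * (x + 6) -
          (17 + TT / 2) * (x + 6 - 1 / 2) ^ 2 * (x + 6 + (40.608 + 0.82 * (x + 6)) / (50 + (x + 6)))) *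
          (x + 6 + 1 + (40.608 + 0.82 * (x + 1 + 6)) / (50 + (x + 1 + 6))) -
          TT * (x + 6 + 1) * (x + 6 + 1 / 2) * (x + 6) * (x + 6 + 1) =
          ((557755282581/125000 - 30458138907/250000 * TT) + (490313486453/250000 - 27922509091/500000 * TT) * x +
            (75420562203/250000 - 4429288841/500000 * TT) * x ^ 2 + (474239769/25000 - 27940993/50000 * TT) * x ^ 3 +
            (1061333/2500 - 62511/5000 * TT) * x ^ 4 + (153/50 - 9/100 * TT) * x ^ 5) /
            ((50 + (x + 6)) * (50 + (x + 1 + 6))) := by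
        rw [eq_div_iff (by positivity)]
        field_simp
        ring
      rw [e]
      apply div_nonneg _ (by positivity)
      have c0 : 0 ≤ (557755282581/125000 - 30458138907/250000 * TT) := by linarith
      have c1 : 0 ≤ (490313486453/250000 - 27922509091/500000 * TT) := by linarith
      have c2 : 0 ≤ (75420562203/250000 - 4429288841/500000 * TT) := by linarith
      have c3 : 0 ≤ (474239769/25000 - 27940993/50000 * TT) := by linarith
      have c4 : 0 ≤ (1061333/2500 - 62511/5000 * TT) := by linarith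
      have c5 : 0 ≤ (153/50 - 9/100 * TT) := by linarith
      positivity

lemma cE_pos (n : ℕ) : 0 < cE n := by
  obtain ⟨⟨_, h1⟩, h2, h3, h4, h5, _⟩ := cE_base
  rcases Nat.lt_or_ge n 6 with h | h
  · interval_cases n
    · rw [cE_zero]; norm_num
    · exact h1
    · exact h2
    · exact h3
    · exact h4
    · exact h5
  · obtain ⟨m, rfl⟩ := Nat.exists_eq_add_of_le h
    have := (cE_low m).2
    rwa [add_comm] at this

lemma cE_up (n : ℕ) : ((n : ℝ) + 1) * cE (n + 1) ≤ rA * (((n : ℝ) + 36 / 100) * cE n) := by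
  have s1 := TT_lo
  have s2 := TT_hi
  have s0 := TT_pos
  have hr0 := rA_pos
  have hrm := rA_mul
  unfold αA at hrm
  induction n with
  | zero =>
    have h := cE_one
    rw [cE_zero] at h ⊢
    unfold PE QE αA at h
    simp only [Nat.cast_zero] at h ⊢
    norm_num at h ⊢
    have h2 : TT * cE 1 ≤ TT * (rA * (9 / 25)) := by
      have : TT * (rA * (9 / 25)) = (17 + TT / 2) * (9 / 25) := by rw [← hrm]; ring
      rw [this]; nlinarith
    have := le_of_mul_le_mul_left h2 s0
    linarith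
  | succ n ih =>
    obtain ⟨x, hx⟩ : ∃ x : ℝ, x = (n : ℝ) := ⟨_, rfl⟩
    have hx0 : 0 ≤ x := by rw [hx]; positivity
    have hrec := cE_rec n
    have hc1 := cE_pos (n + 1)
    unfold PE QE NE αA at hrec
    push_cast at hrec ih ⊢
    rw [← hx] at hrec ih ⊢
    have key := up_step (x := x + 1) (P := TT * (x + 1 + 1) * (x + 1 + 1 / 2))
      (Q := (17 + TT / 2 + TT) * (x + 1) ^ 2 + TT / 2 * (x + 1) + (17 + TT / 2 - 10) / 4)
      (N := (17 + TT / 2) * (x + 1 - 1 / 2) ^ 2) (r := rA) (h := 36 / 100) (c0 := cE n) (c1 := cE (n + 1))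
      (c2 := cE (n + 2)) (by positivity) (by positivity)
      (by positivity) hr0 (by linarith) hc1 hrec (by
            have e : x + 1 - 1 + 36 / 100 = x + 36 / 100 := by ring
            rw [e]; exact ih) ?_
    · exact key
    · rw [← sub_nonneg]
      have e : TT * (x + 1 + 1) * (x + 1 + 1 / 2) * (rA * (x + 1 + 36 / 100)) * (rA * (x + 1 - 1 + 36 / 100)) -
          (x + 1 + 1) * (((17 + TT / 2 + TT) * (x + 1) ^ 2 + TT / 2 * (x + 1) + (17 + TT / 2 - 10) / 4) *
            (rA * (x + 1 - 1 + 36 / 100)) - (17 + TT / 2) * (x + 1 - 1 / 2) ^ 2 * (x + 1)) =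
          rA * (x + 2) * ((14337/2500 - 739/5000 * TT) + (52983/2500 - 3001/5000 * TT) * x +
            (731/50 - 43/100 * TT) * x ^ 2) := by
        linear_combination ((x + 1 + 1) * (x + 1 + 1 / 2) * (x + 1 + 36 / 100) * (rA * (x + 1 - 1 + 36 / 100)) -
          (x + 1 + 1) * (x + 1 - 1 / 2) ^ 2 * (x + 1)) * hrm
      rw [e]
      have c0 : 0 ≤ (14337/2500 - 739/5000 * TT) := by linarith
      have c1 : 0 ≤ (52983/2500 - 3001/5000 * TT) := by linarith
      have c2 : 0 ≤ (731/50 - 43/100 * TT) := by linarith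
      positivity

/-! ### growth -/

lemma good_of_ratio {c : ℕ → ℝ} (h0 : c 0 = 1) (hpos : ∀ n, 0 < c n) {r h : ℝ}
    (hr0 : 0 ≤ r) (hr : r ≤ 25 / 24) (hh : h ≤ 1)
    (hup : ∀ n : ℕ, ((n : ℝ) + 1) * c (n + 1) ≤ r * (((n : ℝ) + h) * c n)) : Good c := by
  refine ⟨1, 0, fun n => ?_⟩
  rw [abs_of_pos (hpos n), pow_zero, mul_one, one_mul]
  induction n with
  | zero => rw [h0]; norm_num
  | succ n ih =>
    have h1 := hup n
    have h2 := hpos n
    have hn : (0 : ℝ) < (n : ℝ) + 1 := by positivity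
    have h3 : ((n : ℝ) + 1) * c (n + 1) ≤ ((n : ℝ) + 1) * (25 / 24 * c n) := by
      calc ((n : ℝ) + 1) * c (n + 1) ≤ r * (((n : ℝ) + h) * c n) := h1
        _ ≤ r * (((n : ℝ) + 1) * c n) := by gcongr
        _ ≤ 25 / 24 * (((n : ℝ) + 1) * c n) := by gcongr
        _ = _ := by ring
    have h4 := le_of_mul_le_mul_left h3 hn
    calc c (n + 1) ≤ 25 / 24 * c n := h4
      _ ≤ 25 / 24 * (25 / 24) ^ n := by gcongr
      _ = _ := by ring

lemma bB_good : Good bB :=
  good_of_ratio bB_zero bB_pos (r := 1) (h := 3 / 4) (by norm_num) (by norm_num) (by norm_num) bB_up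

lemma cE_good : Good cE :=
  good_of_ratio cE_zero cE_pos (r := rA) (h := 36 / 100) rA_pos.le
    (by have := rA_le; linarith) (by norm_num) cE_up

lemma cO_good : Good cO :=
  good_of_ratio cO_zero cO_pos (r := rA) (h := 62 / 100) rA_pos.le
    (by have := rA_le; linarith) (by norm_num) cO_up

end Pool.Agent.MP5ad
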