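import Mathlib

set_option autoImplicit false

/-!
# The scaling lemma

If `A w = ∫ exp (-w ξ) ρ(ξ) dξ` with `x ↦ ρ(1/x)` log-convex, then all iterates of
`A ↦ A (z-1) * A (z+1) - A z ^ 2` are positive with a quantitative log-convexity.
-/

open MeasureTheory Real

namespace Pool.Agent.MP5ad

/-- The symmetric log-convexity operator on functions of a real variable. -/
noncomputable def Lf (A : ℝ → ℝ) (z : ℝ) : ℝ := A (z - 1) * A (z + 1) - A z ^ 2

/-- `A` has a scaling representation of weight `c` for arguments `> w₀`. -/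
def HasRep (c : ℕ) (w₀ : ℝ) (A : ℝ → ℝ) : Prop :=
  ∃ (Y : Type) (_ : MeasurableSpace Y) (μ : Measure Y) (_ : SFinite μ) (T : Y → ℝ)
    (h : ℝ → Y → ℝ),
    (∀ z y, 0 < z → 0 ≤ h z y) ∧
    (∀ z y, 1 < z → h z y ^ 2 ≤ h (z - 1) y * h (z + 1) y) ∧
    (∀ z w, 0 < z → w₀ < w → Integrable (fun y => Real.exp (-(T y * w / z)) * h z y) μ) ∧
    (∀ z w, 0 < z → w₀ < w →
      z ^ c * A w = ∫ y, Real.exp (-(T y * w / z)) * h z y ∂μ)

/-- termwise comparison behind the log-convexity of `z ↦ z² (cosh (D/z) - 1)`. -/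
lemma termwise (z : ℝ) (hz : 1 < z) (j : ℕ) :
    z ^ 2 * (1 / z ^ (2 * (j + 1))) ≤
      (z ^ 2 - 1) * ((z / (z ^ 2 - 1)) ^ (2 * (j + 1)) - (1 / (z ^ 2 - 1)) ^ (2 * (j + 1))) := by
  have hz0 : 0 < z := by linarith
  obtain ⟨y, hy⟩ : ∃ y, y = z ^ 2 - 1 := ⟨_, rfl⟩
  have hy0 : 0 < y := by rw [hy]; nlinarith
  have hzy : z ^ 2 = y + 1 := by rw [hy]; ring
  rw [← hy]
  have e1 : z ^ 2 * (1 / z ^ (2 * (j + 1))) = 1 / (y + 1) ^ j := by
    rw [pow_mul, hzy, pow_succ]
    field_simp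
  have e2 : y * ((z / y) ^ (2 * (j + 1)) - (1 / y) ^ (2 * (j + 1))) =
      ((y + 1) ^ (j + 1) - 1) / y ^ (2 * j + 1) := by
    rw [div_pow, div_pow, one_pow, pow_mul z, hzy]
    have : y ^ (2 * (j + 1)) = y * y ^ (2 * j + 1) := by ring
    rw [this]
    field_simp
  rw [e1, e2, div_le_div_iff₀ (by positivity) (by positivity), one_mul]
  have h1 : y ^ (2 * j) ≤ (y + 1) ^ (2 * j) := by gcongr; linarith
  have h2 : 1 ≤ (y + 1) ^ j := one_le_pow₀ (by linarith)
  calc y ^ (2 * j + 1) = y * y ^ (2 * j) := by ring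
    _ ≤ y * (y + 1) ^ (2 * j) := by gcongr
    _ = y * (y + 1) ^ j * (y + 1) ^ j := by ring
    _ ≤ ((y + 1) ^ (j + 1) - 1) * (y + 1) ^ j := by
        have : y * (y + 1) ^ j ≤ (y + 1) ^ (j + 1) - 1 := by
          rw [pow_succ]; nlinarith
        gcongr

/-- key inequality -/
lemma cosh_key (z : ℝ) (hz : 1 < z) (D : ℝ) :
    z ^ 2 * (Real.cosh (D / z) - 1) ≤
      (z ^ 2 - 1) * (Real.cosh (D * (z / (z ^ 2 - 1))) - Real.cosh (D * (1 / (z ^ 2 - 1)))) := by
  have hz0 : 0 < z := by linarith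
  have hy : 0 < z ^ 2 - 1 := by nlinarith
  have h1 := Real.hasSum_cosh (D / z)
  have h2 := Real.hasSum_cosh (D * (z / (z ^ 2 - 1)))
  have h3 := Real.hasSum_cosh (D * (1 / (z ^ 2 - 1)))
  have h1' : HasSum (fun n : ℕ => (D / z) ^ (2 * (n + 1)) / ((2 * (n + 1)).factorial : ℝ))
      (Real.cosh (D / z) - 1) := by
    have := (hasSum_nat_add_iff' 1).mpr h1
    simpa using this
  have h23 : HasSum (fun n : ℕ => (D * (z / (z ^ 2 - 1))) ^ (2 * (n + 1)) / ((2 * (n + 1)).factorial : ℝ)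
      - (D * (1 / (z ^ 2 - 1))) ^ (2 * (n + 1)) / ((2 * (n + 1)).factorial : ℝ))
      (Real.cosh (D * (z / (z ^ 2 - 1))) - Real.cosh (D * (1 / (z ^ 2 - 1)))) := by
    have := (hasSum_nat_add_iff' 1).mpr (h2.sub h3)
    simpa using this
  refine hasSum_le (fun j => ?_) (h1'.mul_left (z ^ 2)) (h23.mul_left (z ^ 2 - 1))
  have ht := termwise z hz j
  have hD : 0 ≤ D ^ (2 * (j + 1)) / ((2 * (j + 1)).factorial : ℝ) := by
    apply div_nonneg
    · exact Even.pow_nonneg ⟨j + 1, by ring⟩ D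
    · positivity
  have := mul_le_mul_of_nonneg_left ht hD
  calc z ^ 2 * ((D / z) ^ (2 * (j + 1)) / ((2 * (j + 1)).factorial : ℝ))
      = D ^ (2 * (j + 1)) / ((2 * (j + 1)).factorial : ℝ) * (z ^ 2 * (1 / z ^ (2 * (j + 1)))) := by
        rw [div_pow]; ring
    _ ≤ _ := this
    _ = _ := by rw [mul_pow, mul_pow]; ring

lemma cosh_logconvex (z : ℝ) (hz : 1 < z) (D : ℝ) :
    (z ^ 2 * (Real.cosh (D / z) - 1)) ^ 2 ≤
      ((z - 1) ^ 2 * (Real.cosh (D / (z - 1)) - 1)) * ((z + 1) ^ 2 * (Real.cosh (D / (z + 1)) - 1)) := by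
  have hz0 : 0 < z := by linarith
  have hz1 : 0 < z - 1 := by linarith
  have hz2 : 0 < z + 1 := by linarith
  have hy : 0 < z ^ 2 - 1 := by nlinarith
  have hk := cosh_key z hz D
  have hc : ∀ x : ℝ, Real.cosh x - 1 = 2 * Real.sinh (x / 2) ^ 2 := by
    intro x
    have h1 := Real.cosh_two_mul (x / 2)
    have h2 := Real.cosh_sq (x / 2)
    rw [show 2 * (x / 2) = x by ring] at h1
    linarith
  set p := D / (z - 1) / 2 with hp
  set q := D / (z + 1) / 2 with hq
  have hpq : D * (z / (z ^ 2 - 1)) = p + q := by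
    rw [hp, hq]; field_simp; ring
  have hpq' : D * (1 / (z ^ 2 - 1)) = p - q := by
    rw [hp, hq]; field_simp; ring
  rw [hpq, hpq', Real.cosh_add, Real.cosh_sub] at hk
  rw [hc, hc (D / (z - 1)), hc (D / (z + 1)), ← hp, ← hq]
  rw [hc] at hk
  have h0 : 0 ≤ z ^ 2 * (2 * Real.sinh (D / z / 2) ^ 2) := by positivity
  calc (z ^ 2 * (2 * Real.sinh (D / z / 2) ^ 2)) ^ 2
      ≤ ((z ^ 2 - 1) * (Real.cosh p * Real.cosh q + Real.sinh p * Real.sinh q -
          (Real.cosh p * Real.cosh q - Real.sinh p * Real.sinh q))) ^ 2 := by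
        gcongr
    _ = _ := by ring

lemma integral_comb3 {Y : Type} [MeasurableSpace Y] {μ : Measure Y} {f g h : Y → ℝ}
    (hf : Integrable f μ) (hg : Integrable g μ) (hh : Integrable h μ) (a b c : ℝ) :
    ∫ y, (f y * a + g y * b + h y * c) ∂μ =
      (∫ y, f y ∂μ) * a + (∫ y, g y ∂μ) * b + (∫ y, h y ∂μ) * c := by
  have h1 : Integrable (fun y => f y * a) μ := hf.mul_const a
  have h2 : Integrable (fun y => g y * b) μ := hg.mul_const b
  have h3 : Integrable (fun y => h y * c) μ := hh.mul_const c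
  have h12 : Integrable (fun y => f y * a + g y * b) μ := h1.add h2
  rw [integral_add h12 h3, integral_add h1 h2, integral_mul_const, integral_mul_const,
    integral_mul_const]

lemma HasRep.step {c : ℕ} {w₀ : ℝ} {A : ℝ → ℝ} (hA : HasRep c w₀ A) :
    HasRep (2 * c + 2) (w₀ + 1) (Lf A) := by
  obtain ⟨Y, mY, μ, sf, T, h, hpos, hlc, hint, hrep⟩ := hA
  -- the basic identity
  have key : ∀ (z w : ℝ) (p : Y × Y), 0 < z →
      Real.exp (-((T p.1 + T p.2) * w / z)) *
        (z ^ 2 * (Real.cosh ((T p.1 - T p.2) / z) - 1) * (h z p.1 * h z p.2)) =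
      z ^ 2 * ((1 / 2) * ((Real.exp (-(T p.1 * (w - 1) / z)) * h z p.1) *
          (Real.exp (-(T p.2 * (w + 1) / z)) * h z p.2)) +
        (1 / 2) * ((Real.exp (-(T p.1 * (w + 1) / z)) * h z p.1) *
          (Real.exp (-(T p.2 * (w - 1) / z)) * h z p.2)) -
        (Real.exp (-(T p.1 * w / z)) * h z p.1) * (Real.exp (-(T p.2 * w / z)) * h z p.2)) := by
    intro z w p hz
    have e1 : Real.exp (-((T p.1 + T p.2) * w / z)) * Real.exp ((T p.1 - T p.2) / z) =
        Real.exp (-(T p.1 * (w - 1) / z)) * Real.exp (-(T p.2 * (w + 1) / z)) := by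
      rw [← Real.exp_add, ← Real.exp_add]; congr 1; field_simp; ring
    have e2 : Real.exp (-((T p.1 + T p.2) * w / z)) * Real.exp (-((T p.1 - T p.2) / z)) =
        Real.exp (-(T p.1 * (w + 1) / z)) * Real.exp (-(T p.2 * (w - 1) / z)) := by
      rw [← Real.exp_add, ← Real.exp_add]; congr 1; field_simp; ring
    have e3 : Real.exp (-((T p.1 + T p.2) * w / z)) =
        Real.exp (-(T p.1 * w / z)) * Real.exp (-(T p.2 * w / z)) := by
      rw [← Real.exp_add]; congr 1; field_simp; ring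
    rw [Real.cosh_eq]
    linear_combination (1 / 2 * z ^ 2 * h z p.1 * h z p.2) * e1 +
      (1 / 2 * z ^ 2 * h z p.1 * h z p.2) * e2 - (z ^ 2 * h z p.1 * h z p.2) * e3
  have int2 : ∀ (z w₁ w₂ : ℝ), 0 < z → w₀ < w₁ → w₀ < w₂ →
      Integrable (fun p : Y × Y => (Real.exp (-(T p.1 * w₁ / z)) * h z p.1) *
          (Real.exp (-(T p.2 * w₂ / z)) * h z p.2)) (μ.prod μ) := by
    intro z w₁ w₂ hz h1 h2
    exact (hint z w₁ hz h1).mul_prod (hint z w₂ hz h2)
  have val2 : ∀ (z w₁ w₂ : ℝ), 0 < z → w₀ < w₁ → w₀ < w₂ →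
      ∫ p : Y × Y, (Real.exp (-(T p.1 * w₁ / z)) * h z p.1) *
          (Real.exp (-(T p.2 * w₂ / z)) * h z p.2) ∂(μ.prod μ) =
        (z ^ c * A w₁) * (z ^ c * A w₂) := by
    intro z w₁ w₂ hz h1 h2
    rw [hrep z w₁ hz h1, hrep z w₂ hz h2]
    exact integral_prod_mul (fun y => Real.exp (-(T y * w₁ / z)) * h z y)
      (fun y => Real.exp (-(T y * w₂ / z)) * h z y)
  refine ⟨Y × Y, inferInstance, μ.prod μ, inferInstance, fun p => T p.1 + T p.2,
    fun z p => z ^ 2 * (Real.cosh ((T p.1 - T p.2) / z) - 1) * (h z p.1 * h z p.2), ?_, ?_, ?_, ?_⟩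
  · intro z p hz
    have h1 := hpos z p.1 hz
    have h2 := hpos z p.2 hz
    have h3 : 0 ≤ Real.cosh ((T p.1 - T p.2) / z) - 1 := by
      linarith [Real.one_le_cosh ((T p.1 - T p.2) / z)]
    positivity
  · intro z p hz
    have h1 := hlc z p.1 hz
    have h2 := hlc z p.2 hz
    have h3 := cosh_logconvex z hz (T p.1 - T p.2)
    have h4 : 0 ≤ h (z - 1) p.1 * h (z + 1) p.1 := le_trans (sq_nonneg _) h1
    have h5 : 0 ≤ ((z - 1) ^ 2 * (Real.cosh ((T p.1 - T p.2) / (z - 1)) - 1)) *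
        ((z + 1) ^ 2 * (Real.cosh ((T p.1 - T p.2) / (z + 1)) - 1)) := le_trans (sq_nonneg _) h3
    calc (z ^ 2 * (Real.cosh ((T p.1 - T p.2) / z) - 1) * (h z p.1 * h z p.2)) ^ 2
        = (z ^ 2 * (Real.cosh ((T p.1 - T p.2) / z) - 1)) ^ 2 * (h z p.1 ^ 2 * h z p.2 ^ 2) := by
          ring
      _ ≤ (((z - 1) ^ 2 * (Real.cosh ((T p.1 - T p.2) / (z - 1)) - 1)) *
          ((z + 1) ^ 2 * (Real.cosh ((T p.1 - T p.2) / (z + 1)) - 1))) *
          ((h (z - 1) p.1 * h (z + 1) p.1) * (h (z - 1) p.2 * h (z + 1) p.2)) := by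
          gcongr
      _ = _ := by ring
  · intro z w hz hw
    have i1 := int2 z (w - 1) (w + 1) hz (by linarith) (by linarith)
    have i2 := int2 z (w + 1) (w - 1) hz (by linarith) (by linarith)
    have i3 := int2 z w w hz (by linarith) (by linarith)
    have := (((i1.const_mul (1 / 2)).add (i2.const_mul (1 / 2))).sub i3).const_mul (z ^ 2)
    refine this.congr (Filter.Eventually.of_forall fun p => ?_)
    simp only [Pi.add_apply, Pi.sub_apply]
    exact (key z w p hz).symm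
  · intro z w hz hw
    have i1 := int2 z (w - 1) (w + 1) hz (by linarith) (by linarith)
    have i2 := int2 z (w + 1) (w - 1) hz (by linarith) (by linarith)
    have i3 := int2 z w w hz (by linarith) (by linarith)
    have v1 := val2 z (w - 1) (w + 1) hz (by linarith) (by linarith)
    have v2 := val2 z (w + 1) (w - 1) hz (by linarith) (by linarith)
    have v3 := val2 z w w hz (by linarith) (by linarith)
    rw [integral_congr_ae (Filter.Eventually.of_forall fun p => key z w p hz)]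
    have hc := integral_comb3 i1 i2 i3 (1 / 2) (1 / 2) (-1)
    rw [v1, v2, v3] at hc
    rw [integral_const_mul]
    have : ∫ p : Y × Y, ((1 / 2) * ((Real.exp (-(T p.1 * (w - 1) / z)) * h z p.1) *
          (Real.exp (-(T p.2 * (w + 1) / z)) * h z p.2)) +
        (1 / 2) * ((Real.exp (-(T p.1 * (w + 1) / z)) * h z p.1) *
          (Real.exp (-(T p.2 * (w - 1) / z)) * h z p.2)) -
        (Real.exp (-(T p.1 * w / z)) * h z p.1) * (Real.exp (-(T p.2 * w / z)) * h z p.2))
          ∂(μ.prod μ) = z ^ c * A (w - 1) * (z ^ c * A (w + 1)) * (1 / 2) +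
            z ^ c * A (w + 1) * (z ^ c * A (w - 1)) * (1 / 2) +
            z ^ c * A w * (z ^ c * A w) * (-1) := by
      rw [← hc]
      refine integral_congr_ae (Filter.Eventually.of_forall fun p => ?_)
      simp only []
      ring
    rw [this]
    simp only [Lf]
    ring

lemma HasRep.cs {c : ℕ} {w₀ : ℝ} {A : ℝ → ℝ} (hA : HasRep c w₀ A) {z : ℝ} (hz : 1 < z)
    (hzw : w₀ + 1 < z) :
    (z ^ c * A z) ^ 2 ≤ ((z - 1) ^ c * A (z - 1)) * ((z + 1) ^ c * A (z + 1)) := by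
  obtain ⟨Y, mY, μ, sf, T, h, hpos, hlc, hint, hrep⟩ := hA
  have hz0 : 0 < z := by linarith
  have hz1 : 0 < z - 1 := by linarith
  have hz2 : 0 < z + 1 := by linarith
  have e : ∀ (x y : ℝ), 0 < x → y * x / x = y := fun x y hx => by field_simp
  have I0 := hint z z hz0 (by linarith)
  have I1 := hint (z - 1) (z - 1) hz1 (by linarith)
  have I2 := hint (z + 1) (z + 1) hz2 (by linarith)
  rw [hrep z z hz0 (by linarith), hrep (z - 1) (z - 1) hz1 (by linarith),
    hrep (z + 1) (z + 1) hz2 (by linarith)]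
  simp only [e _ _ hz0, e _ _ hz1, e _ _ hz2] at I0 I1 I2 ⊢
  set F := ∫ y, Real.exp (-T y) * h (z - 1) y ∂μ with hF
  set G := ∫ y, Real.exp (-T y) * h (z + 1) y ∂μ with hG
  set H := ∫ y, Real.exp (-T y) * h z y ∂μ with hH
  have hquad : ∀ s : ℝ, 0 ≤ F * (s * s) + (-2 * H) * s + G := by
    intro s
    have : F * (s * s) + (-2 * H) * s + G =
        ∫ y, (Real.exp (-T y) * h (z - 1) y) * (s * s) + (Real.exp (-T y) * h z y) * (-2 * s) +
          Real.exp (-T y) * h (z + 1) y ∂μ := by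
      have hc := integral_comb3 I1 I0 I2 (s * s) (-2 * s) 1
      rw [← hF, ← hG, ← hH] at hc
      simp only [mul_one] at hc
      rw [hc]; ring
    rw [this]
    apply integral_nonneg
    intro y
    have a := hpos (z - 1) y hz1
    have b := hpos (z + 1) y hz2
    have g := hpos z y hz0
    have l := hlc z y hz
    have : 0 ≤ h (z - 1) y * (s * s) + h z y * (-2 * s) + h (z + 1) y := by
      by_cases hs : s ≤ 0
      · have h1 : 0 ≤ h z y * (-2 * s) := mul_nonneg g (by linarith)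
        have h2 : 0 ≤ h (z - 1) y * (s * s) := mul_nonneg a (mul_self_nonneg s)
        linarith
      · push Not at hs
        rcases eq_or_lt_of_le a with ha | ha
        · rw [← ha] at l ⊢
          have : h z y = 0 := by nlinarith
          rw [this]; nlinarith
        · -- complete the square
          have : 0 ≤ h (z - 1) y * (h (z - 1) y * (s * s) + h z y * (-2 * s) + h (z + 1) y) := by
            nlinarith [sq_nonneg (h (z - 1) y * s - h z y)]
          exact nonneg_of_mul_nonneg_right this ha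
    have h2 := mul_nonneg (Real.exp_pos (-T y)).le this
    calc (0 : ℝ) ≤ Real.exp (-T y) * (h (z - 1) y * (s * s) + h z y * (-2 * s) + h (z + 1) y) := h2
      _ = _ := by ring
  have := discrim_le_zero hquad
  rw [discrim] at this
  nlinarith

/-- exponents: `c 0 = 1`, `c (k+1) = 2 c k + 2`. -/
def cexp : ℕ → ℕ
  | 0 => 1
  | k + 1 => 2 * cexp k + 2

lemma cexp_pos (k : ℕ) : 1 ≤ cexp k := by
  induction k with
  | zero => simp [cexp]
  | succ k ih => simp [cexp]

lemma cexp_eq (k : ℕ) : cexp k + 2 = 3 * 2 ^ k := by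
  induction k with
  | zero => simp [cexp]
  | succ k ih => simp only [cexp]; rw [pow_succ]; omega

lemma HasRep.iterate {A : ℝ → ℝ} (hA : HasRep 1 0 A) (k : ℕ) :
    HasRep (cexp k) k (Lf^[k] A) := by
  induction k with
  | zero => simpa [cexp] using hA
  | succ k ih =>
    rw [Function.iterate_succ_apply']
    have := ih.step
    simpa [cexp] using this

/-- Main conclusion of the scaling lemma. -/
theorem scaling_main {A : ℝ → ℝ} (hA : HasRep 1 0 A) (hpos : ∀ w, 0 < w → 0 < A w) (k : ℕ) :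
    (∀ z : ℝ, (k : ℝ) < z → 0 < (Lf^[k] A) z) ∧
    (∀ z : ℝ, (k : ℝ) + 1 < z →
      (1 + 1 / (z ^ 2 - 1)) ^ (cexp k) * (Lf^[k] A) z ^ 2 ≤
        (Lf^[k] A) (z - 1) * (Lf^[k] A) (z + 1)) := by
  have hQ : ∀ (k : ℕ) (z : ℝ), (k : ℝ) + 1 < z →
      (1 + 1 / (z ^ 2 - 1)) ^ (cexp k) * (Lf^[k] A) z ^ 2 ≤
        (Lf^[k] A) (z - 1) * (Lf^[k] A) (z + 1) := by
    intro k z hz
    have hk0 : (0 : ℝ) ≤ k := Nat.cast_nonneg k
    have hz1 : 1 < z := by linarith
    have hy : 0 < z ^ 2 - 1 := by nlinarith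
    have h := (hA.iterate k).cs hz1 hz
    have h1 : (z ^ cexp k * (Lf^[k] A) z) ^ 2 = (z ^ 2) ^ cexp k * (Lf^[k] A) z ^ 2 := by
      rw [mul_pow, ← pow_mul, ← pow_mul, mul_comm (cexp k) 2]
    have h2 : ((z - 1) ^ cexp k * (Lf^[k] A) (z - 1)) * ((z + 1) ^ cexp k * (Lf^[k] A) (z + 1)) =
        (z ^ 2 - 1) ^ cexp k * ((Lf^[k] A) (z - 1) * (Lf^[k] A) (z + 1)) := by
      have : (z ^ 2 - 1) = (z - 1) * (z + 1) := by ring
      rw [this, mul_pow]; ring
    rw [h1, h2] at h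
    have h3 : (1 + 1 / (z ^ 2 - 1)) ^ cexp k = (z ^ 2) ^ cexp k / (z ^ 2 - 1) ^ cexp k := by
      rw [← div_pow]; congr 1; field_simp; ring
    rw [h3, div_mul_eq_mul_div, div_le_iff₀ (by positivity)]
    linarith
  refine ⟨?_, hQ k⟩
  induction k with
  | zero => intro z hz; simpa using hpos z (by simpa using hz)
  | succ k ih =>
    intro z hz
    push_cast at hz
    have hk0 : (0 : ℝ) ≤ k := Nat.cast_nonneg k
    have hz1 : 1 < z := by linarith
    have hy : 0 < z ^ 2 - 1 := by nlinarith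
    rw [Function.iterate_succ_apply']
    have hq := hQ k z hz
    have h0 := ih z (by linarith)
    have h1 : (1 : ℝ) < (1 + 1 / (z ^ 2 - 1)) ^ cexp k := by
      apply one_lt_pow₀
      · have : 0 < 1 / (z ^ 2 - 1) := by positivity
        linarith
      · have := cexp_pos k; omega
    have h2 : (Lf^[k] A) z ^ 2 < (1 + 1 / (z ^ 2 - 1)) ^ cexp k * (Lf^[k] A) z ^ 2 := by
      have : 0 < (Lf^[k] A) z ^ 2 := by positivity
      nlinarith
    simp only [Lf] at *
    linarith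

end Pool.Agent.MP5ad
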