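import Mathlib
import Pool.Agent.Lib.MP_5ad3e6_co.Scaling

set_option autoImplicit false

/-!
# The perturbation criterion

`a` is exponentially close to a sequence `b` all of whose iterates satisfy the quantitative
log-convexity of the scaling lemma; a finite check settles the remaining cases.
-/

open Finset

namespace Pool.Agent.MP5ad

/-- The log-convexity operator on real sequences. -/
def Ls (a : ℕ → ℝ) (m : ℕ) : ℝ := a m * a (m + 2) - a (m + 1) ^ 2

lemma Ls_iter_succ (a : ℕ → ℝ) (k m : ℕ) :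
    (Ls^[k + 1] a) m = (Ls^[k] a) m * (Ls^[k] a) (m + 2) - (Ls^[k] a) (m + 1) ^ 2 := by
  rw [Function.iterate_succ_apply']; rfl

/-- one amplification factor -/
noncomputable def Fac (j m : ℕ) : ℝ := 11 / 10 + 8 / 5 * ((m : ℝ) + j + 3) ^ 2 / 2 ^ j

lemma Fac_pos (j m : ℕ) : 0 < Fac j m := by unfold Fac; positivity

/-- error bound -/
noncomputable def Er (k m : ℕ) : ℝ := 100 * (1 / 10) ^ m * ∏ j ∈ range k, Fac j m

lemma Er_pos (k m : ℕ) : 0 < Er k m := by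
  unfold Er
  have : 0 < ∏ j ∈ range k, Fac j m := prod_pos fun j _ => Fac_pos j m
  positivity

lemma Er_succ (k m : ℕ) : Er (k + 1) m = Er k m * Fac k m := by
  unfold Er; rw [prod_range_succ]; ring

lemma Fac_ratio (j m : ℕ) :
    Fac j (m + 1) ≤ (((m : ℝ) + j + 4) / ((m : ℝ) + j + 3)) ^ 2 * Fac j m := by
  unfold Fac
  have h1 : (1 : ℝ) ≤ (((m : ℝ) + j + 4) / ((m : ℝ) + j + 3)) ^ 2 := by
    apply one_le_pow₀
    rw [le_div_iff₀ (by positivity)]
    linarith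
  have h2 : (((m : ℝ) + j + 4) / ((m : ℝ) + j + 3)) ^ 2 * (8 / 5 * ((m : ℝ) + j + 3) ^ 2 / 2 ^ j) =
      8 / 5 * (((m + 1 : ℕ) : ℝ) + j + 3) ^ 2 / 2 ^ j := by
    push_cast
    field_simp
    ring
  rw [mul_add, h2]
  linarith

lemma Er_ratio (k m : ℕ) :
    Er k (m + 1) ≤ 1 / 10 * (((m : ℝ) + k + 3) / ((m : ℝ) + 3)) ^ 2 * Er k m := by
  induction k with
  | zero =>
    unfold Er
    have h : ((m : ℝ) + (0 : ℕ) + 3) / ((m : ℝ) + 3) = 1 := by
      simp only [Nat.cast_zero, add_zero]; apply div_self; positivity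
    rw [h]
    simp only [range_zero, prod_empty]
    apply le_of_eq; ring
  | succ k ih =>
    rw [Er_succ, Er_succ]
    have h1 := Fac_ratio k m
    have h2 := Er_pos k m
    have h3 := Fac_pos k (m + 1)
    calc Er k (m + 1) * Fac k (m + 1)
        ≤ (1 / 10 * (((m : ℝ) + k + 3) / ((m : ℝ) + 3)) ^ 2 * Er k m) *
          ((((m : ℝ) + k + 4) / ((m : ℝ) + k + 3)) ^ 2 * Fac k m) := by
          gcongr
      _ = _ := by
          push_cast
          field_simp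
          ring

lemma Er_ratio' (k m : ℕ) (hm : 10 + 2 * k ≤ m) : Er k (m + 1) ≤ 9 / 40 * Er k m := by
  refine (Er_ratio k m).trans ?_
  have h2 := Er_pos k m
  have h3 : ((m : ℝ) + k + 3) / ((m : ℝ) + 3) ≤ 3 / 2 := by
    rw [div_le_iff₀ (by positivity)]
    have : (10 : ℝ) + 2 * k ≤ m := by exact_mod_cast hm
    have hk : (0 : ℝ) ≤ k := Nat.cast_nonneg k
    linarith
  have h4 : (((m : ℝ) + k + 3) / ((m : ℝ) + 3)) ^ 2 ≤ 9 / 4 := by
    have : 0 ≤ ((m : ℝ) + k + 3) / ((m : ℝ) + 3) := by positivity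
    nlinarith
  nlinarith

lemma Er_start_succ (k : ℕ) :
    Er (k + 1) (10 + 2 * (k + 1)) ≤ 81 / 1600 * Fac k (12 + 2 * k) * Er k (10 + 2 * k) := by
  have e : 10 + 2 * (k + 1) = (10 + 2 * k) + 1 + 1 := by ring
  have e' : 12 + 2 * k = (10 + 2 * k) + 1 + 1 := by ring
  rw [Er_succ, e, e']
  have h1 := Er_ratio' k (10 + 2 * k) le_rfl
  have h2 := Er_ratio' k (10 + 2 * k + 1) (by omega)
  have h3 := Fac_pos k (10 + 2 * k + 1 + 1)
  nlinarith

lemma sq_le_pow (k : ℕ) (hk : 7 ≤ k) : 8 * (3 * k + 15) ^ 2 ≤ 93 * 2 ^ k := by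
  induction k, hk using Nat.le_induction with
  | base => norm_num
  | succ k hk ih =>
    have h2 : 2 ^ (k + 1) = 2 * 2 ^ k := by ring
    rw [h2]
    nlinarith

lemma Er_start (k : ℕ) : Er k (10 + 2 * k) ≤ 1 / 100 := by
  have h0 : Er 0 (10 + 2 * 0) ≤ 1 / 10 ^ 8 := by unfold Er; norm_num
  have h1 : Er 1 (10 + 2 * 1) ≤ 19 / 10 ^ 8 := by
    have := Er_start_succ 0
    have e : Fac 0 (12 + 2 * 0) = 3611 / 10 := by unfold Fac; norm_num
    rw [e] at this
    norm_num at this ⊢; norm_num at h0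
    linarith
  have h2 : Er 2 (10 + 2 * 2) ≤ 252 / 10 ^ 8 := by
    have := Er_start_succ 1
    have e : Fac 1 (12 + 2 * 1) = 2603 / 10 := by unfold Fac; norm_num
    rw [e] at this
    norm_num at this ⊢; norm_num at h1
    linarith
  have h3 : Er 3 (10 + 2 * 3) ≤ 2300 / 10 ^ 8 := by
    have := Er_start_succ 2
    have e : Fac 2 (12 + 2 * 2) = 355 / 2 := by unfold Fac; norm_num
    rw [e] at this
    norm_num at this ⊢; norm_num at h2
    linarith
  have h4 : Er 4 (10 + 2 * 4) ≤ 14000 / 10 ^ 8 := by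
    have := Er_start_succ 3
    have e : Fac 3 (12 + 2 * 3) = 1163 / 10 := by unfold Fac; norm_num
    rw [e] at this
    norm_num at this ⊢; norm_num at h3
    linarith
  have h5 : Er 5 (10 + 2 * 5) ≤ 54000 / 10 ^ 8 := by
    have := Er_start_succ 4
    have e : Fac 4 (12 + 2 * 4) = 74 := by unfold Fac; norm_num
    rw [e] at this
    norm_num at this ⊢; norm_num at h4
    linarith
  have h6 : Er 6 (10 + 2 * 6) ≤ 130000 / 10 ^ 8 := by
    have := Er_start_succ 5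
    have e : Fac 5 (12 + 2 * 5) = 461 / 10 := by unfold Fac; norm_num
    rw [e] at this
    norm_num at this ⊢; norm_num at h5
    linarith
  have h7 : Er 7 (10 + 2 * 7) ≤ 200000 / 10 ^ 8 := by
    have := Er_start_succ 6
    have e : Fac 6 (12 + 2 * 6) = 11330 / 400 := by unfold Fac; norm_num
    rw [e] at this
    norm_num at this ⊢; norm_num at h6
    linarith
  rcases Nat.lt_or_ge k 7 with hk | hk
  · interval_cases k
    · exact h0.trans (by norm_num)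
    · exact h1.trans (by norm_num)
    · exact h2.trans (by norm_num)
    · exact h3.trans (by norm_num)
    · exact h4.trans (by norm_num)
    · exact h5.trans (by norm_num)
    · exact h6.trans (by norm_num)
  · induction k, hk using Nat.le_induction with
    | base => exact h7.trans (by norm_num)
    | succ k hk ih =>
      refine (Er_start_succ k).trans (le_trans ?_ ih)
      have h2 := Er_pos k (10 + 2 * k)
      have h3 : Fac k (12 + 2 * k) ≤ 1600 / 81 := by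
        unfold Fac
        have h4 : (8 * (3 * k + 15) ^ 2 : ℝ) ≤ 93 * 2 ^ k := by exact_mod_cast sq_le_pow k hk
        have h5 : 8 / 5 * (((12 + 2 * k : ℕ) : ℝ) + k + 3) ^ 2 / 2 ^ k ≤ 93 / 5 := by
          rw [div_le_iff₀ (by positivity)]
          push_cast
          have : ((12 : ℝ) + 2 * k + k + 3) = 3 * k + 15 := by ring
          rw [this]; linarith
        linarith
      nlinarith

lemma Er_small (k m : ℕ) (hm : 10 + 2 * k ≤ m) : Er k m ≤ 1 / 100 := by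
  induction m, hm using Nat.le_induction with
  | base => exact Er_start k
  | succ m hm ih =>
    have h1 := Er_ratio' k m hm
    have h2 := Er_pos k m
    linarith

lemma cexp_real (k : ℕ) : (cexp k : ℝ) = 3 * 2 ^ k - 2 := by
  have := cexp_eq k
  have h : ((cexp k + 2 : ℕ) : ℝ) = ((3 * 2 ^ k : ℕ) : ℝ) := by rw [this]
  push_cast at h
  linarith

lemma cexp_ge (k : ℕ) : (2 : ℝ) ^ k ≤ cexp k := by
  rw [cexp_real]
  have : (1 : ℝ) ≤ 2 ^ k := one_le_pow₀ (by norm_num)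
  linarith

/-- `b` has all iterates positive and quantitatively log-convex. -/
structure QP (b : ℕ → ℝ) : Prop where
  pos : ∀ k m : ℕ, 0 < (Ls^[k] b) m
  conv : ∀ k m : ℕ, (1 + 1 / (((m : ℝ) + k + 3) ^ 2 - 1)) ^ (cexp k) * (Ls^[k] b) (m + 1) ^ 2 ≤
    (Ls^[k] b) m * (Ls^[k] b) (m + 2)

lemma QP.bern {b : ℕ → ℝ} (hb : QP b) (k m : ℕ) :
    (1 + cexp k / (((m : ℝ) + k + 3) ^ 2 - 1)) * (Ls^[k] b) (m + 1) ^ 2 ≤
      (Ls^[k] b) m * (Ls^[k] b) (m + 2) := by
  refine le_trans ?_ (hb.conv k m)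
  have hz : 0 < ((m : ℝ) + k + 3) ^ 2 - 1 := by
    have : (3 : ℝ) ≤ (m : ℝ) + k + 3 := by
      have := Nat.cast_nonneg (α := ℝ) m
      have := Nat.cast_nonneg (α := ℝ) k
      linarith
    nlinarith
  have h := one_add_mul_le_pow (a := 1 / (((m : ℝ) + k + 3) ^ 2 - 1))
    (by have : 0 < 1 / (((m : ℝ) + k + 3) ^ 2 - 1) := by positivity
        linarith) (cexp k)
  have h' : 1 + cexp k / (((m : ℝ) + k + 3) ^ 2 - 1) =
      1 + (cexp k : ℝ) * (1 / (((m : ℝ) + k + 3) ^ 2 - 1)) := by ring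
  rw [h']
  have : 0 ≤ (Ls^[k] b) (m + 1) ^ 2 := sq_nonneg _
  gcongr

/-- one step of the error recursion (pure algebra). -/
lemma err_step {A0 A1 A2 a0 a1 a2 E0 E1 E2 t : ℝ} (hA0 : 0 < A0) (hA2 : 0 < A2)
    (ht : 0 < t) (hE0 : 0 < E0) (hE1 : 0 < E1) (hE2 : 0 < E2) (hE : E0 ≤ 1 / 100)
    (h01 : E1 ≤ 9 / 40 * E0) (h12 : E2 ≤ 9 / 40 * E1)
    (h0 : |a0 - A0| ≤ E0 * A0) (h1 : |a1 - A1| ≤ E1 * A1) (h2 : |a2 - A2| ≤ E2 * A2)
    (hA1 : 0 < A1) (hQ : (1 + 1 / t) * A1 ^ 2 ≤ A0 * A2) :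
    |(a0 * a2 - a1 ^ 2) - (A0 * A2 - A1 ^ 2)| ≤
      (11 / 10 + 8 / 5 * t) * E0 * (A0 * A2 - A1 ^ 2) := by
  obtain ⟨d0, hd0⟩ : ∃ d, d = a0 - A0 := ⟨_, rfl⟩
  obtain ⟨d1, hd1⟩ : ∃ d, d = a1 - A1 := ⟨_, rfl⟩
  obtain ⟨d2, hd2⟩ : ∃ d, d = a2 - A2 := ⟨_, rfl⟩
  rw [← hd0] at h0; rw [← hd1] at h1; rw [← hd2] at h2
  have e0 : a0 = A0 + d0 := by rw [hd0]; ring
  have e1 : a1 = A1 + d1 := by rw [hd1]; ring
  have e2 : a2 = A2 + d2 := by rw [hd2]; ring
  have hid : (a0 * a2 - a1 ^ 2) - (A0 * A2 - A1 ^ 2) =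
      d0 * A2 + A0 * d2 + d0 * d2 - (2 * A1 * d1 + d1 ^ 2) := by
    rw [e0, e1, e2]; ring
  have hb : |(a0 * a2 - a1 ^ 2) - (A0 * A2 - A1 ^ 2)| ≤
      (E0 + E2 + E0 * E2) * (A0 * A2) + (2 * E1 + E1 ^ 2) * A1 ^ 2 := by
    rw [hid]
    have t1 : |d0 * A2| ≤ E0 * A0 * A2 := by
      rw [abs_mul, abs_of_pos hA2]; gcongr
    have t2 : |A0 * d2| ≤ A0 * (E2 * A2) := by
      rw [abs_mul, abs_of_pos hA0]; gcongr
    have t3 : |d0 * d2| ≤ (E0 * A0) * (E2 * A2) := by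
      rw [abs_mul]; gcongr
    have t4 : |2 * A1 * d1| ≤ 2 * A1 * (E1 * A1) := by
      rw [abs_mul, abs_of_pos (by positivity)]; gcongr
    have t5 : |d1 ^ 2| ≤ (E1 * A1) ^ 2 := by
      rw [abs_pow]; gcongr
    calc |d0 * A2 + A0 * d2 + d0 * d2 - (2 * A1 * d1 + d1 ^ 2)|
        ≤ |d0 * A2 + A0 * d2 + d0 * d2| + |2 * A1 * d1 + d1 ^ 2| := abs_sub _ _
      _ ≤ (|d0 * A2| + |A0 * d2| + |d0 * d2|) + (|2 * A1 * d1| + |d1 ^ 2|) := by
          gcongr
          · exact (abs_add_le _ _).trans (by gcongr; exact abs_add_le _ _)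
          · exact abs_add_le _ _
      _ ≤ (E0 * A0 * A2 + A0 * (E2 * A2) + (E0 * A0) * (E2 * A2)) +
          (2 * A1 * (E1 * A1) + (E1 * A1) ^ 2) := by gcongr
      _ = _ := by ring
  refine hb.trans ?_
  set D := A0 * A2 - A1 ^ 2 with hD
  have hQ' : A1 ^ 2 ≤ t * D := by
    have h3 : (t + 1) * A1 ^ 2 ≤ t * (A0 * A2) := by
      have := mul_le_mul_of_nonneg_left hQ ht.le
      calc (t + 1) * A1 ^ 2 = t * ((1 + 1 / t) * A1 ^ 2) := by field_simp
        _ ≤ _ := this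
    rw [hD]; linarith
  have hP' : A0 * A2 ≤ (1 + t) * D := by
    have : A0 * A2 = D + A1 ^ 2 := by rw [hD]; ring
    rw [this]; linarith
  have hD0 : 0 < D := by
    have : 0 < A1 ^ 2 := by positivity
    by_contra hcon
    push Not at hcon
    nlinarith
  have c1 : E0 + E2 + E0 * E2 ≤ 1052 / 1000 * E0 := by nlinarith
  have c2 : 2 * E1 + E1 ^ 2 ≤ 451 / 1000 * E0 := by nlinarith
  have c1' : 0 ≤ E0 + E2 + E0 * E2 := by positivity
  have c2' : 0 ≤ 2 * E1 + E1 ^ 2 := by positivity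
  calc (E0 + E2 + E0 * E2) * (A0 * A2) + (2 * E1 + E1 ^ 2) * A1 ^ 2
      ≤ (1052 / 1000 * E0) * ((1 + t) * D) + (451 / 1000 * E0) * (t * D) := by gcongr
    _ = (1052 / 1000 + 1503 / 1000 * t) * E0 * D := by ring
    _ ≤ (11 / 10 + 8 / 5 * t) * E0 * D := by
        have : 0 < E0 * D := by positivity
        have h9 : (1052 / 1000 + 1503 / 1000 * t) ≤ (11 / 10 + 8 / 5 * t) := by linarith
        gcongr

theorem regime2 {a b : ℕ → ℝ} (hb : QP b)
    (herr : ∀ n, 10 ≤ n → |a n - b n| ≤ 100 * (1 / 10) ^ n * b n) (k : ℕ) :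
    ∀ m, 10 + 2 * k ≤ m → |(Ls^[k] a) m - (Ls^[k] b) m| ≤ Er k m * (Ls^[k] b) m := by
  induction k with
  | zero =>
    intro m hm
    simp only [Function.iterate_zero, id]
    have : Er 0 m = 100 * (1 / 10) ^ m := by unfold Er; simp
    rw [this]; exact herr m (by omega)
  | succ k ih =>
    intro m hm
    have h0 := ih m (by omega)
    have h1 := ih (m + 1) (by omega)
    have h2 := ih (m + 2) (by omega)
    have hz : 0 < ((m : ℝ) + k + 3) ^ 2 - 1 := by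
      have : (3 : ℝ) ≤ (m : ℝ) + k + 3 := by
        have := Nat.cast_nonneg (α := ℝ) m
        have := Nat.cast_nonneg (α := ℝ) k
        linarith
      nlinarith
    have hc : (0 : ℝ) < cexp k := lt_of_lt_of_le (by positivity) (cexp_ge k)
    have hQ := hb.bern k m
    have ht : 0 < (((m : ℝ) + k + 3) ^ 2 - 1) / cexp k := by positivity
    have hE0 := Er_pos k m
    rw [Ls_iter_succ, Ls_iter_succ]
    have key := err_step (hb.pos k m) (hb.pos k (m + 2)) ht hE0 (Er_pos k (m + 1))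
      (Er_pos k (m + 2)) (Er_small k m (by omega)) (Er_ratio' k m (by omega))
      (Er_ratio' k (m + 1) (by omega)) h0 h1 h2 (hb.pos k (m + 1))
      (by rw [one_div_div]; exact hQ)
    refine key.trans ?_
    have hD : 0 < (Ls^[k] b) m * (Ls^[k] b) (m + 2) - (Ls^[k] b) (m + 1) ^ 2 := by
      rw [← Ls_iter_succ]; exact hb.pos (k + 1) m
    rw [Er_succ]
    have hF : 11 / 10 + 8 / 5 * ((((m : ℝ) + k + 3) ^ 2 - 1) / cexp k) ≤ Fac k m := by
      unfold Fac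
      have h5 : (((m : ℝ) + k + 3) ^ 2 - 1) / cexp k ≤ ((m : ℝ) + k + 3) ^ 2 / 2 ^ k := by
        have := cexp_ge k
        gcongr
        linarith
      have : 8 / 5 * ((m : ℝ) + k + 3) ^ 2 / 2 ^ k = 8 / 5 * (((m : ℝ) + k + 3) ^ 2 / 2 ^ k) := by
        ring
      rw [this]; linarith
    calc (11 / 10 + 8 / 5 * ((((m : ℝ) + k + 3) ^ 2 - 1) / cexp k)) * Er k m *
          ((Ls^[k] b) m * (Ls^[k] b) (m + 2) - (Ls^[k] b) (m + 1) ^ 2)
        ≤ Fac k m * Er k m *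
          ((Ls^[k] b) m * (Ls^[k] b) (m + 2) - (Ls^[k] b) (m + 1) ^ 2) := by gcongr
      _ = _ := by ring

lemma big_c (k : ℕ) (hk : 11 ≤ k) : 11 * (3 * k + 16) ^ 2 + 10 ≤ 15 * 2 ^ k := by
  induction k, hk using Nat.le_induction with
  | base => norm_num
  | succ k hk ih =>
    have h2 : 2 ^ (k + 1) = 2 * 2 ^ k := by ring
    rw [h2]
    nlinarith

/-- The criterion. -/
theorem criterion {a b : ℕ → ℝ} (hb : QP b)
    (herr : ∀ n, 10 ≤ n → |a n - b n| ≤ 100 * (1 / 10) ^ n * b n)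
    (hfin : ∀ k, k ≤ 11 → ∀ m, m < 10 + 2 * k → 0 < (Ls^[k] a) m)
    (hfin2 : ∀ m, m < 32 → 3 * (Ls^[11] a) (m + 1) ^ 2 ≤ (Ls^[11] a) m * (Ls^[11] a) (m + 2)) :
    ∀ k m, 0 < (Ls^[k] a) m := by
  have hR2 := regime2 hb herr
  -- positivity in regime II
  have hpos2 : ∀ k m, 10 + 2 * k ≤ m → 99 / 100 * (Ls^[k] b) m ≤ (Ls^[k] a) m ∧
      (Ls^[k] a) m ≤ 101 / 100 * (Ls^[k] b) m := by
    intro k m hm
    have h1 := hR2 k m hm
    have h2 := Er_small k m hm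
    have h3 := hb.pos k m
    have h4 : Er k m * (Ls^[k] b) m ≤ 1 / 100 * (Ls^[k] b) m := by gcongr
    rw [abs_le] at h1
    constructor <;> linarith
  have hpos2' : ∀ k m, 10 + 2 * k ≤ m → 0 < (Ls^[k] a) m := by
    intro k m hm
    have := (hpos2 k m hm).1
    have h3 := hb.pos k m
    linarith
  -- log-convexity quotient for the right neighbours
  have hq2 : ∀ k m, 11 ≤ k → 10 + 2 * k ≤ m → m ≤ 13 + 2 * k →
      3 * (Ls^[k] a) (m + 1) ^ 2 ≤ (Ls^[k] a) m * (Ls^[k] a) (m + 2) := by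
    intro k m hk hm hm'
    have hb1 := hb.bern k m
    have hz : 0 < ((m : ℝ) + k + 3) ^ 2 - 1 := by
      have : (3 : ℝ) ≤ (m : ℝ) + k + 3 := by
        have := Nat.cast_nonneg (α := ℝ) m
        have := Nat.cast_nonneg (α := ℝ) k
        linarith
      nlinarith
    have hbig : (11 * (3 * k + 16) ^ 2 + 10 : ℝ) ≤ 15 * 2 ^ k := by exact_mod_cast big_c k hk
    have hc : 11 / 5 * (((m : ℝ) + k + 3) ^ 2 - 1) ≤ cexp k := by
      rw [cexp_real]
      have hm'' : (m : ℝ) ≤ 13 + 2 * k := by exact_mod_cast hm'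
      have h0 : (0 : ℝ) ≤ (m : ℝ) + k + 3 := by positivity
      have : ((m : ℝ) + k + 3) ^ 2 ≤ (3 * k + 16) ^ 2 := by
        apply pow_le_pow_left₀ h0; linarith
      linarith
    have h32 : 11 / 5 ≤ cexp k / (((m : ℝ) + k + 3) ^ 2 - 1) := by
      rw [le_div_iff₀ hz]; exact hc
    have hB1 := hb.pos k (m + 1)
    have hB0 := hb.pos k m
    have hB2 := hb.pos k (m + 2)
    have h16 : 16 / 5 * (Ls^[k] b) (m + 1) ^ 2 ≤ (Ls^[k] b) m * (Ls^[k] b) (m + 2) := by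
      refine le_trans ?_ hb1
      have : 0 ≤ (Ls^[k] b) (m + 1) ^ 2 := sq_nonneg _
      have h5 : (16 : ℝ) / 5 ≤ 1 + cexp k / (((m : ℝ) + k + 3) ^ 2 - 1) := by linarith
      gcongr
    obtain ⟨l0, u0⟩ := hpos2 k m hm
    obtain ⟨l1, u1⟩ := hpos2 k (m + 1) (by omega)
    obtain ⟨l2, u2⟩ := hpos2 k (m + 2) (by omega)
    have p1 := hpos2' k (m + 1) (by omega)
    have p0 := (hpos2' k m hm).le
    calc 3 * (Ls^[k] a) (m + 1) ^ 2 ≤ 3 * (101 / 100 * (Ls^[k] b) (m + 1)) ^ 2 := by gcongr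
      _ = 3 * (101 / 100) ^ 2 * (Ls^[k] b) (m + 1) ^ 2 := by ring
      _ ≤ (99 / 100) ^ 2 * (16 / 5 * (Ls^[k] b) (m + 1) ^ 2) := by
          have : 0 ≤ (Ls^[k] b) (m + 1) ^ 2 := sq_nonneg _
          nlinarith
      _ ≤ (99 / 100) ^ 2 * ((Ls^[k] b) m * (Ls^[k] b) (m + 2)) := by gcongr
      _ = (99 / 100 * (Ls^[k] b) m) * (99 / 100 * (Ls^[k] b) (m + 2)) := by ring
      _ ≤ _ := by gcongr
  -- regime I
  have hR1 : ∀ k, 11 ≤ k → ∀ m, m < 10 + 2 * k → 0 < (Ls^[k] a) m ∧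
      3 * (Ls^[k] a) (m + 1) ^ 2 ≤ (Ls^[k] a) m * (Ls^[k] a) (m + 2) := by
    intro k hk
    induction k, hk using Nat.le_induction with
    | base => intro m hm; exact ⟨hfin 11 le_rfl m hm, hfin2 m (by omega)⟩
    | succ k hk ih =>
      have P : ∀ m, 0 < (Ls^[k] a) m := by
        intro m
        rcases Nat.lt_or_ge m (10 + 2 * k) with h | h
        · exact (ih m h).1
        · exact hpos2' k m h
      have Q : ∀ m, m ≤ 13 + 2 * k →
          3 * (Ls^[k] a) (m + 1) ^ 2 ≤ (Ls^[k] a) m * (Ls^[k] a) (m + 2) := by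
        intro m hm
        rcases Nat.lt_or_ge m (10 + 2 * k) with h | h
        · exact (ih m h).2
        · exact hq2 k m hk h hm
      intro m hm
      have q0 := Q m (by omega)
      have q1 := Q (m + 1) (by omega)
      have q2 := Q (m + 2) (by omega)
      have p0 := P m
      have p1 := P (m + 1)
      have p2 := P (m + 2)
      have p3 := P (m + 3)
      have p4 := P (m + 4)
      rw [Ls_iter_succ, Ls_iter_succ, Ls_iter_succ]
      simp only [show m + 1 + 1 = m + 2 by ring, show m + 1 + 2 = m + 3 by ring,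
        show m + 2 + 2 = m + 4 by ring] at q1 q2 ⊢
      set x0 := (Ls^[k] a) m
      set x1 := (Ls^[k] a) (m + 1)
      set x2 := (Ls^[k] a) (m + 2)
      set x3 := (Ls^[k] a) (m + 3)
      set x4 := (Ls^[k] a) (m + 4)
      have s1 : 0 < x1 ^ 2 := by positivity
      have s3 : 0 < x3 ^ 2 := by positivity
      have d0 : 2 * x1 ^ 2 ≤ x0 * x2 - x1 ^ 2 := by linarith
      have d2 : 2 * x3 ^ 2 ≤ x2 * x4 - x3 ^ 2 := by linarith
      have d1 : 0 ≤ x1 * x3 - x2 ^ 2 := by nlinarith [sq_nonneg x2]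
      have d1' : x1 * x3 - x2 ^ 2 ≤ x1 * x3 := by nlinarith [sq_nonneg x2]
      refine ⟨by linarith, ?_⟩
      calc 3 * (x1 * x3 - x2 ^ 2) ^ 2 ≤ 3 * (x1 * x3) ^ 2 := by gcongr
        _ ≤ (2 * x1 ^ 2) * (2 * x3 ^ 2) := by nlinarith [mul_pos s1 s3]
        _ ≤ (x0 * x2 - x1 ^ 2) * (x2 * x4 - x3 ^ 2) := by
            have d00 : 0 ≤ x0 * x2 - x1 ^ 2 := by linarith
            gcongr
  intro k m
  rcases Nat.lt_or_ge m (10 + 2 * k) with h | h
  · rcases Nat.lt_or_ge k 11 with hk | hk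
    · exact hfin k hk.le m h
    · exact (hR1 k hk m h).1
  · exact hpos2' k m h

end Pool.Agent.MP5ad
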