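import Mathlib
import Pool.Agent.Lib.MP_5ad3e6_co.Criterion

set_option autoImplicit false

/-!
# From a density on a bounded interval to a scaling representation

The density is extended beyond the cut so that it stays log-convex in the variable `1/ξ`.
-/

open MeasureTheory Set

namespace Pool.Agent.MP5ad

/-- support inequality inside the interval -/
lemma support_in {R U : ℝ → ℝ} {L : ℝ}
    (hR : ∀ x, 0 < x → x ≤ L → HasDerivAt R (U x) x)
    (hK : MonotoneOn (fun x => x ^ 2 * U x) (Ioc 0 L)) {x y : ℝ} (hx : 0 < x) (hxL : x ≤ L)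
    (hy : 0 < y) (hyL : y ≤ L) :
    R x + x ^ 2 * U x * (1 / x - 1 / y) ≤ R y := by
  set K := x ^ 2 * U x with hKdef
  have hd : ∀ t, 0 < t → t ≤ L → HasDerivAt (fun t => R t + K * (1 / t)) (U t - K / t ^ 2) t := by
    intro t ht htL
    have h1 := hR t ht htL
    have h2 : HasDerivAt (fun t : ℝ => 1 / t) (-(t ^ 2)⁻¹) t := by
      have := hasDerivAt_inv ht.ne'
      simpa only [one_div] using this
    have h3 : HasDerivAt (fun t => R t + K * (1 / t)) (U t + K * (-(t ^ 2)⁻¹)) t :=
      h1.add (h2.const_mul K)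
    have e : U t - K / t ^ 2 = U t + K * (-(t ^ 2)⁻¹) := by ring
    rw [e]; exact h3
  have hmono : ∀ s t, 0 < s → s ≤ t → t ≤ L → s ^ 2 * U s ≤ t ^ 2 * U t := by
    intro s t hs hst ht
    exact hK ⟨hs, hst.trans ht⟩ ⟨hs.trans_le hst, ht⟩ hst
  have key : R x + K * (1 / x) ≤ R y + K * (1 / y) := by
    rcases le_total x y with hxy | hxy
    · have hm : MonotoneOn (fun t => R t + K * (1 / t)) (Icc x y) := by
        apply monotoneOn_of_deriv_nonneg (convex_Icc x y)
        · intro t ht
          exact (hd t (hx.trans_le ht.1) (ht.2.trans hyL)).continuousAt.continuousWithinAt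
        · intro t ht
          rw [interior_Icc] at ht
          exact (hd t (hx.trans ht.1) (ht.2.le.trans hyL)).differentiableAt.differentiableWithinAt
        · intro t ht
          rw [interior_Icc] at ht
          have ht0 : 0 < t := hx.trans ht.1
          rw [(hd t ht0 (ht.2.le.trans hyL)).deriv]
          have := hmono x t hx ht.1.le (ht.2.le.trans hyL)
          rw [sub_nonneg, div_le_iff₀ (by positivity)]
          linarith
      exact hm (left_mem_Icc.mpr hxy) (right_mem_Icc.mpr hxy) hxy
    · have hm : AntitoneOn (fun t => R t + K * (1 / t)) (Icc y x) := by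
        apply antitoneOn_of_deriv_nonpos (convex_Icc y x)
        · intro t ht
          exact (hd t (hy.trans_le ht.1) (ht.2.trans hxL)).continuousAt.continuousWithinAt
        · intro t ht
          rw [interior_Icc] at ht
          exact (hd t (hy.trans ht.1) (ht.2.le.trans hxL)).differentiableAt.differentiableWithinAt
        · intro t ht
          rw [interior_Icc] at ht
          have ht0 : 0 < t := hy.trans ht.1
          rw [(hd t ht0 (ht.2.le.trans hxL)).deriv]
          have := hmono t x ht0 ht.2.le hxL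
          rw [sub_nonpos, le_div_iff₀ (by positivity)]
          linarith
      exact hm (left_mem_Icc.mpr hxy) (right_mem_Icc.mpr hxy) hxy
  linarith

/-- extended exponent -/
noncomputable def Rt (R : ℝ → ℝ) (L K : ℝ) (x : ℝ) : ℝ :=
  if x ≤ L then R x else R L + K * (1 / L - 1 / x)

lemma support_ext {R U : ℝ → ℝ} {L : ℝ} (hL : 0 < L)
    (hR : ∀ x, 0 < x → x ≤ L → HasDerivAt R (U x) x)
    (hK : MonotoneOn (fun x => x ^ 2 * U x) (Ioc 0 L)) {x : ℝ} (hx : 0 < x) :
    ∃ k : ℝ, ∀ y, 0 < y → Rt R L (L ^ 2 * U L) x + k * (1 / x - 1 / y) ≤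
      Rt R L (L ^ 2 * U L) y := by
  rcases le_or_gt x L with hxL | hxL
  · refine ⟨x ^ 2 * U x, fun y hy => ?_⟩
    unfold Rt
    rw [if_pos hxL]
    split_ifs with hyL
    · exact support_in hR hK hx hxL hy hyL
    · push Not at hyL
      have h1 := support_in hR hK hx hxL hL le_rfl
      have h2 : x ^ 2 * U x ≤ L ^ 2 * U L := hK ⟨hx, hxL⟩ ⟨hL, le_rfl⟩ hxL
      have h3 : 0 ≤ 1 / L - 1 / y := by
        rw [sub_nonneg]; exact one_div_le_one_div_of_le hL hyL.le
      nlinarith
  · refine ⟨L ^ 2 * U L, fun y hy => ?_⟩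
    unfold Rt
    rw [if_neg (not_le.mpr hxL)]
    split_ifs with hyL
    · have h1 := support_in hR hK hL le_rfl hy hyL
      linarith
    · linarith

lemma logconvex_ext {R U : ℝ → ℝ} {L : ℝ} (hL : 0 < L)
    (hR : ∀ x, 0 < x → x ≤ L → HasDerivAt R (U x) x)
    (hK : MonotoneOn (fun x => x ^ 2 * U x) (Ioc 0 L)) {ζ z : ℝ} (hζ : 0 < ζ) (hz : 1 < z) :
    Real.exp (Rt R L (L ^ 2 * U L) (ζ / z)) ^ 2 ≤
      Real.exp (Rt R L (L ^ 2 * U L) (ζ / (z - 1))) *
        Real.exp (Rt R L (L ^ 2 * U L) (ζ / (z + 1))) := by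
  have hz0 : 0 < z := by linarith
  have hz1 : 0 < z - 1 := by linarith
  have hz2 : 0 < z + 1 := by linarith
  obtain ⟨k, hk⟩ := support_ext hL hR hK (x := ζ / z) (by positivity)
  have h1 := hk (ζ / (z - 1)) (by positivity)
  have h2 := hk (ζ / (z + 1)) (by positivity)
  rw [← Real.exp_add, ← Real.exp_nat_mul]
  apply Real.exp_le_exp.mpr
  push_cast
  have e1 : 1 / (ζ / z) - 1 / (ζ / (z - 1)) = 1 / ζ := by field_simp; ring
  have e2 : 1 / (ζ / z) - 1 / (ζ / (z + 1)) = -(1 / ζ) := by field_simp; ring
  rw [e1] at h1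
  rw [e2] at h2
  linarith

theorem density_main {f f1 : ℝ → ℝ} {L : ℝ} (hL : 0 < L)
    (hf : ∀ x, 0 < x → x ≤ L → 0 < f x) (hc : ContinuousOn f (Icc 0 L))
    (hd : ∀ x, 0 < x → x ≤ L → HasDerivAt f (f1 x) x)
    (hK : MonotoneOn (fun x => x ^ 2 * (1 + f1 x / f x)) (Ioc 0 L))
    (hU0 : 0 ≤ 1 + f1 L / f L) (hU1 : 1 + f1 L / f L ≤ 3) :
    ∃ S : ℝ → ℝ, HasRep 1 0 S ∧ (∀ w, 0 < w → 0 < S w) ∧
      ∀ n : ℕ, 2 ≤ n →
        (∫ x in (0 : ℝ)..L, Real.exp (-((n + 1) * x)) * f x) ≤ S (n + 2) ∧
        S (n + 2) ≤ (∫ x in (0 : ℝ)..L, Real.exp (-((n + 1) * x)) * f x) +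
          f L * Real.exp (-((n + 1) * L)) := by
  set R : ℝ → ℝ := fun x => x + Real.log (f x) with hRdef
  set U : ℝ → ℝ := fun x => 1 + f1 x / f x with hUdef
  have hR : ∀ x, 0 < x → x ≤ L → HasDerivAt R (U x) x := by
    intro x hx hxL
    exact (hasDerivAt_id x).add ((hd x hx hxL).log (hf x hx hxL).ne')
  set K := L ^ 2 * U L with hKd
  have hK0 : 0 ≤ K := by positivity
  set ρ : ℝ → ℝ := fun x => Real.exp (Rt R L K x) with hρ
  have hρpos : ∀ x, 0 < ρ x := fun x => Real.exp_pos _
  have hρin : ∀ x, 0 < x → x ≤ L → ρ x = Real.exp x * f x := by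
    intro x hx hxL
    simp only [hρ, Rt, if_pos hxL, hRdef]
    rw [Real.exp_add, Real.exp_log (hf x hx hxL)]
  have hfL := hf L hL le_rfl
  have hρout : ∀ x, L < x → ρ x = Real.exp L * f L * Real.exp (K * (1 / L - 1 / x)) := by
    intro x hx
    simp only [hρ, Rt, if_neg (not_le.mpr hx), hRdef]
    rw [Real.exp_add, Real.exp_add, Real.exp_log hfL]
  -- integrability
  have hin : ∀ w, IntegrableOn (fun x => Real.exp (-(w * x)) * ρ x) (Ioc 0 L) := by
    intro w
    have h1 : IntegrableOn (fun x => Real.exp (-(w * x)) * (Real.exp x * f x)) (Icc 0 L) := by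
      apply ContinuousOn.integrableOn_Icc
      exact (by fun_prop : Continuous fun x => Real.exp (-(w * x))).continuousOn.mul
        (Real.continuous_exp.continuousOn.mul hc)
    refine (h1.mono_set Ioc_subset_Icc_self).congr_fun ?_ measurableSet_Ioc
    intro x hx
    simp only []
    rw [hρin x hx.1 hx.2]
  have hbound : ∀ x, L < x → ρ x ≤ Real.exp L * f L * Real.exp (U L * (x - L)) := by
    intro x hx
    rw [hρout x hx]
    have hx0 : 0 < x := hL.trans hx
    have : K * (1 / L - 1 / x) ≤ U L * (x - L) := by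
      have e : K * (1 / L - 1 / x) = U L * (L * (x - L) / x) := by
        rw [hKd]; field_simp
      rw [e]
      have h3 : L * (x - L) / x ≤ x - L := by
        rw [div_le_iff₀ hx0]
        nlinarith
      exact mul_le_mul_of_nonneg_left h3 hU0
    gcongr
  have hbound' : ∀ x, L < x → ρ x ≤ Real.exp L * f L * Real.exp (K * (1 / L)) := by
    intro x hx
    rw [hρout x hx]
    have hx0 : 0 < x := hL.trans hx
    have : 0 ≤ 1 / x := by positivity
    gcongr
    linarith
  have hmeas : ∀ w, AEStronglyMeasurable (fun x => Real.exp (-(w * x)) * ρ x)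
      (volume.restrict (Ioi L)) := by
    intro w
    apply ContinuousOn.aestronglyMeasurable _ measurableSet_Ioi
    have h1 : ContinuousOn (fun x => Real.exp (-(w * x)) *
        (Real.exp L * f L * Real.exp (K * (1 / L - 1 / x)))) (Ioi L) := by
      apply ContinuousOn.mul
      · exact (by fun_prop : Continuous fun x => Real.exp (-(w * x))).continuousOn
      · apply ContinuousOn.mul continuousOn_const
        apply Real.continuous_exp.comp_continuousOn
        apply ContinuousOn.mul continuousOn_const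
        apply ContinuousOn.sub continuousOn_const
        apply ContinuousOn.div continuousOn_const continuousOn_id
        intro x hx
        exact (hL.trans hx).ne'
    refine h1.congr ?_
    intro x hx
    simp only []
    rw [hρout x hx]
  have hout : ∀ w, 0 < w → IntegrableOn (fun x => Real.exp (-(w * x)) * ρ x) (Ioi L) := by
    intro w hw
    have h1 : IntegrableOn (fun x => Real.exp (-w * x) *
        (Real.exp L * f L * Real.exp (K * (1 / L)))) (Ioi L) :=
      (exp_neg_integrableOn_Ioi L hw).mul_const _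
    refine Integrable.mono' h1 (hmeas w) ?_
    refine (ae_restrict_iff' measurableSet_Ioi).mpr (Filter.Eventually.of_forall fun x hx => ?_)
    have h2 := hρpos x
    rw [Real.norm_of_nonneg (by positivity), neg_mul]
    have := hbound' x hx
    gcongr
  have hint : ∀ w, 0 < w → IntegrableOn (fun x => Real.exp (-(w * x)) * ρ x) (Ioi 0) := by
    intro w hw
    rw [← Ioc_union_Ioi_eq_Ioi hL.le]
    exact (hin w).union (hout w hw)
  set S : ℝ → ℝ := fun w => ∫ x in Ioi 0, Real.exp (-(w * x)) * ρ x with hS
  have hsplit : ∀ w, 0 < w → S w = (∫ x in Ioc 0 L, Real.exp (-(w * x)) * ρ x) +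
      ∫ x in Ioi L, Real.exp (-(w * x)) * ρ x := by
    intro w hw
    simp only [hS]
    rw [← Ioc_union_Ioi_eq_Ioi hL.le, setIntegral_union (Ioc_disjoint_Ioi le_rfl)
      measurableSet_Ioi (hin w) (hout w hw)]
  have hIoc : ∀ w, (∫ x in Ioc 0 L, Real.exp (-(w * x)) * ρ x) =
      ∫ x in (0 : ℝ)..L, Real.exp (-((w - 1) * x)) * f x := by
    intro w
    rw [intervalIntegral.integral_of_le hL.le]
    apply setIntegral_congr_fun measurableSet_Ioc
    intro x hx
    simp only []
    rw [hρin x hx.1 hx.2, ← mul_assoc, ← Real.exp_add]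
    congr 2
    ring
  have hIocpos : ∀ w, 0 < ∫ x in Ioc 0 L, Real.exp (-(w * x)) * ρ x := by
    intro w
    rw [hIoc]
    apply intervalIntegral.intervalIntegral_pos_of_pos_on _ _ hL
    · apply ContinuousOn.intervalIntegrable
      rw [uIcc_of_le hL.le]
      exact (by fun_prop : Continuous fun x => Real.exp (-((w - 1) * x))).continuousOn.mul hc
    · intro x hx
      have := hf x hx.1 hx.2.le
      positivity
  refine ⟨S, ?_, ?_, ?_⟩
  · -- the scaling representation
    refine ⟨ℝ, inferInstance, volume.restrict (Ioi 0), inferInstance, id,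
      fun z ζ => if 0 < ζ then ρ (ζ / z) else 0, ?_, ?_, ?_, ?_⟩
    · intro z ζ _
      beta_reduce
      split_ifs
      · exact (hρpos _).le
      · exact le_rfl
    · intro z ζ hz
      beta_reduce
      split_ifs with hζ
      · exact logconvex_ext hL hR hK hζ hz
      · simp
    · intro z w hz hw
      have h1 := (integrableOn_Ioi_comp_mul_left_iff (fun x => Real.exp (-(w * x)) * ρ x) 0
        (inv_pos.mpr hz)).mpr (by simpa using hint w hw)
      refine IntegrableOn.congr_fun h1 ?_ measurableSet_Ioi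
      intro ζ hζ
      simp only [mem_Ioi] at hζ
      simp only [if_pos hζ, id]
      rw [inv_mul_eq_div]
      congr 2
      ring
    · intro z w hz hw
      have h1 := integral_comp_mul_left_Ioi (fun x => Real.exp (-(w * x)) * ρ x) 0
        (inv_pos.mpr hz)
      simp only [mul_zero, inv_inv, smul_eq_mul] at h1
      rw [pow_one]
      simp only [hS]
      rw [← h1]
      apply setIntegral_congr_fun measurableSet_Ioi
      intro ζ hζ
      simp only [mem_Ioi] at hζ
      simp only [if_pos hζ, id]
      rw [inv_mul_eq_div]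
      congr 2
      ring
  · intro w hw
    rw [hsplit w hw]
    have h1 := hIocpos w
    have h2 : 0 ≤ ∫ x in Ioi L, Real.exp (-(w * x)) * ρ x := by
      apply integral_nonneg
      intro x
      have := hρpos x
      simp only [Pi.zero_apply]
      positivity
    linarith
  · intro n hn
    have hn0 : (0 : ℝ) < (n : ℝ) + 2 := by positivity
    have hn2 : (2 : ℝ) ≤ n := by exact_mod_cast hn
    rw [hsplit _ hn0, hIoc]
    have e : ((n : ℝ) + 2 - 1) = n + 1 := by ring
    rw [e]
    have h2 : 0 ≤ ∫ x in Ioi L, Real.exp (-(((n : ℝ) + 2) * x)) * ρ x := by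
      apply integral_nonneg
      intro x
      have := hρpos x
      simp only [Pi.zero_apply]
      positivity
    refine ⟨by linarith, ?_⟩
    have hneg : -(((n : ℝ) + 2) - U L) < 0 := by linarith
    have h3 : ∫ x in Ioi L, Real.exp (-(((n : ℝ) + 2) * x)) * ρ x ≤
        ∫ x in Ioi L, Real.exp (-(((n : ℝ) + 2) - U L) * x) *
          (Real.exp L * f L * Real.exp (-(U L * L))) := by
      apply setIntegral_mono_on (hout _ hn0) _ measurableSet_Ioi
      · intro x hx
        have h4 := hbound x hx
        calc Real.exp (-(((n : ℝ) + 2) * x)) * ρ x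
            ≤ Real.exp (-(((n : ℝ) + 2) * x)) * (Real.exp L * f L * Real.exp (U L * (x - L))) := by
              gcongr
          _ = (Real.exp (-(((n : ℝ) + 2) * x)) * Real.exp (U L * (x - L))) *
              (Real.exp L * f L) := by ring
          _ = (Real.exp (-(((n : ℝ) + 2) - U L) * x) * Real.exp (-(U L * L))) *
              (Real.exp L * f L) := by
              rw [← Real.exp_add, ← Real.exp_add]; congr 2; ring
          _ = _ := by ring
      · have h5 := (exp_neg_integrableOn_Ioi L (b := ((n : ℝ) + 2) - U L) (by linarith)).mul_const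
          (Real.exp L * f L * Real.exp (-(U L * L)))
        exact h5
    have h6 : ∫ x in Ioi L, Real.exp (-(((n : ℝ) + 2) - U L) * x) *
          (Real.exp L * f L * Real.exp (-(U L * L))) ≤ f L * Real.exp (-(((n : ℝ) + 1) * L)) := by
      rw [integral_mul_const, integral_exp_mul_Ioi hneg]
      have e1 : -Real.exp (-(((n : ℝ) + 2) - U L) * L) / (-(((n : ℝ) + 2) - U L)) =
          Real.exp (-(((n : ℝ) + 2) - U L) * L) / (((n : ℝ) + 2) - U L) := by
        rw [neg_div_neg_eq]
      rw [e1]
      have e2 : Real.exp (-(((n : ℝ) + 2) - U L) * L) / (((n : ℝ) + 2) - U L) *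
          (Real.exp L * f L * Real.exp (-(U L * L))) =
          (f L * Real.exp (-(((n : ℝ) + 1) * L))) / (((n : ℝ) + 2) - U L) := by
        have : Real.exp (-(((n : ℝ) + 1) * L)) = Real.exp (-(((n : ℝ) + 2) - U L) * L) *
            (Real.exp L * Real.exp (-(U L * L))) := by
          rw [← Real.exp_add, ← Real.exp_add]; congr 1; ring
        rw [this]; ring
      rw [e2]
      apply div_le_self (by positivity)
      linarith
    linarith

end Pool.Agent.MP5ad
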