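import Mathlib

set_option autoImplicit false

/-!
# The recurrences of the two Apéry sequences (creative telescoping)
-/

open Finset

namespace Pool.Agent.MP5ad

/-- first Apéry sequence -/
def seqA (m : ℕ) : ℕ := ∑ j ∈ range (m + 1), (m.choose j) ^ 2 * ((m + j).choose j) ^ 2

/-- second Apéry sequence -/
def seqB (m : ℕ) : ℕ := ∑ j ∈ range (m + 1), (m.choose j) ^ 2 * ((m + j).choose j)

lemma ch1 (N k : ℕ) : (N.choose (k + 1) : ℝ) * (k + 1) = N.choose k * ((N : ℝ) - k) := by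
  rcases Nat.lt_or_ge N k with h | h
  · rw [Nat.choose_eq_zero_of_lt h, Nat.choose_eq_zero_of_lt (by omega)]; simp
  · have := Nat.choose_succ_right_eq N k
    have h2 : ((N.choose (k + 1) * (k + 1) : ℕ) : ℝ) = ((N.choose k * (N - k) : ℕ) : ℝ) := by
      rw [this]
    push_cast [h] at h2
    linarith

lemma ch2 (N k : ℕ) : ((N + 1).choose (k + 1) : ℝ) * (k + 1) = N.choose k * ((N : ℝ) + 1) := by
  have := Nat.add_one_mul_choose_eq N k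
  have h2 : (((N + 1) * N.choose k : ℕ) : ℝ) = (((N + 1).choose (k + 1) * (k + 1) : ℕ) : ℝ) := by
    rw [this]
  push_cast at h2
  linarith

lemma ch3 (N k : ℕ) : ((N + 1 + k).choose k : ℝ) * (N + 1) = (N + k).choose k * ((N : ℝ) + k + 1) := by
  have := Nat.choose_mul_succ_eq (N + k) k
  rw [show N + k + 1 - k = N + 1 by omega, show N + k + 1 = N + 1 + k by ring] at this
  have h2 : (((N + k).choose k * (N + 1 + k) : ℕ) : ℝ) =
      (((N + 1 + k).choose k * (N + 1) : ℕ) : ℝ) := by rw [this]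
  push_cast at h2
  linarith

lemma ch4 (n k : ℕ) : (n.choose k : ℝ) * (n + 1) = (n + 1).choose k * ((n : ℝ) + 1 - k) := by
  rcases Nat.lt_or_ge (n + 1) k with h | h
  · rw [Nat.choose_eq_zero_of_lt h, Nat.choose_eq_zero_of_lt (by omega)]; simp
  · have := Nat.choose_mul_succ_eq n k
    have h2 : ((n.choose k * (n + 1) : ℕ) : ℝ) = (((n + 1).choose k * (n + 1 - k) : ℕ) : ℝ) := by
      rw [this]
    push_cast [h] at h2
    linarith

/-- certificate for the first sequence -/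
lemma certA (n k : ℕ) :
    ((n : ℝ) + 2) ^ 3 * (((n + 2).choose (k + 1) : ℝ) ^ 2 * ((n + 2 + (k + 1)).choose (k + 1) : ℝ) ^ 2) -
      (34 * ((n : ℝ) + 1) ^ 3 + 51 * ((n : ℝ) + 1) ^ 2 + 27 * ((n : ℝ) + 1) + 5) *
        (((n + 1).choose (k + 1) : ℝ) ^ 2 * ((n + 1 + (k + 1)).choose (k + 1) : ℝ) ^ 2) +
      ((n : ℝ) + 1) ^ 3 * ((n.choose (k + 1) : ℝ) ^ 2 * ((n + (k + 1)).choose (k + 1) : ℝ) ^ 2) =
    4 * (2 * ((n : ℝ) + 1) + 1) * (((k : ℝ) + 1) * (2 * (k + 1) + 1) - (2 * ((n : ℝ) + 1) + 1) ^ 2) *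
        (((n + 1).choose (k + 1) : ℝ) ^ 2 * ((n + 1 + (k + 1)).choose (k + 1) : ℝ) ^ 2) -
      4 * (2 * ((n : ℝ) + 1) + 1) * ((k : ℝ) * (2 * k + 1) - (2 * ((n : ℝ) + 1) + 1) ^ 2) *
        (((n + 1).choose k : ℝ) ^ 2 * ((n + 1 + k).choose k : ℝ) ^ 2) := by
  set x : ℝ := ((n + 1).choose k : ℝ) * ((n + 1 + k).choose k : ℝ) with hx
  have hk : ((k : ℝ) + 1) ≠ 0 := by positivity
  have hn : ((n : ℝ) + 1) ≠ 0 := by positivity
  have hn2 : ((n : ℝ) + 2) ≠ 0 := by positivity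
  -- x(N, k+1)
  have e1 : ((n + 1).choose (k + 1) : ℝ) * ((n + 1 + (k + 1)).choose (k + 1) : ℝ) * (k + 1) ^ 2 =
      x * ((n : ℝ) + 1 - k) * ((n : ℝ) + 1 + k + 1) := by
    have a := ch1 (n + 1) k
    have b := ch2 (n + 1 + k) k
    push_cast at a b
    rw [show n + 1 + (k + 1) = n + 1 + k + 1 by ring]
    calc _ = (((n + 1).choose (k + 1) : ℝ) * (k + 1)) * (((n + 1 + k + 1).choose (k + 1) : ℝ) * (k + 1)) := by
          ring
      _ = _ := by rw [a, b, hx]; ring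
  -- x(N+1, k+1)
  have e2 : ((n + 2).choose (k + 1) : ℝ) * ((n + 2 + (k + 1)).choose (k + 1) : ℝ) * (k + 1) ^ 2 =
      x * ((n : ℝ) + 1 + k + 1) * ((n : ℝ) + 1 + k + 2) := by
    have a := ch2 (n + 1) k
    have b := ch2 (n + 2 + k) k
    have c := ch3 (n + 1) k
    push_cast at a b c
    rw [show n + 1 + 1 = n + 2 by ring] at a
    rw [show n + 1 + 1 + k = n + 2 + k by ring] at c
    rw [show n + 2 + (k + 1) = n + 2 + k + 1 by ring]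
    have : ((n + 2).choose (k + 1) : ℝ) * ((n + 2 + k + 1).choose (k + 1) : ℝ) * (k + 1) ^ 2 * (n + 2) =
        x * ((n : ℝ) + 1 + k + 1) * ((n : ℝ) + 1 + k + 2) * (n + 2) := by
      calc _ = (((n + 2).choose (k + 1) : ℝ) * (k + 1)) * (((n + 2 + k + 1).choose (k + 1) : ℝ) * (k + 1)) * (n + 2) := by
            ring
        _ = ((n + 1).choose k * ((n : ℝ) + 1 + 1)) * ((n : ℝ) + 2 + k + 1) * (((n + 2 + k).choose k : ℝ) * (n + 1 + 1)) := by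
            rw [a, b]; ring
        _ = _ := by rw [c, hx]; ring
    exact mul_right_cancel₀ hn2 this
  -- x(N-1, k+1)
  have e3 : (n.choose (k + 1) : ℝ) * ((n + (k + 1)).choose (k + 1) : ℝ) * (k + 1) ^ 2 =
      x * ((n : ℝ) + 1 - k) * ((n : ℝ) - k) := by
    have a := ch1 n k
    have b := ch4 n k
    have c := ch1 (n + 1 + k) k
    push_cast at a b c
    rw [show n + (k + 1) = n + 1 + k by ring]
    have : (n.choose (k + 1) : ℝ) * ((n + 1 + k).choose (k + 1) : ℝ) * (k + 1) ^ 2 * (n + 1) =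
      x * ((n : ℝ) + 1 - k) * ((n : ℝ) - k) * (n + 1) := by
      calc _ = ((n.choose (k + 1) : ℝ) * (k + 1)) * (((n + 1 + k).choose (k + 1) : ℝ) * (k + 1)) * (n + 1) := by
            ring
        _ = ((n : ℝ) - k) * ((n + 1 + k).choose k * ((n : ℝ) + 1 + k - k)) * ((n.choose k : ℝ) * (n + 1)) := by
            rw [a, c]; ring
        _ = _ := by rw [b, hx]; ring
    exact mul_right_cancel₀ hn this
  have h4 : ((k : ℝ) + 1) ^ 4 ≠ 0 := by positivity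
  refine mul_right_cancel₀ h4 ?_
  have f1 : (((n + 1).choose (k + 1) : ℝ) ^ 2 * ((n + 1 + (k + 1)).choose (k + 1) : ℝ) ^ 2) * ((k : ℝ) + 1) ^ 4 =
      (x * ((n : ℝ) + 1 - k) * ((n : ℝ) + 1 + k + 1)) ^ 2 := by rw [← e1]; ring
  have f2 : (((n + 2).choose (k + 1) : ℝ) ^ 2 * ((n + 2 + (k + 1)).choose (k + 1) : ℝ) ^ 2) * ((k : ℝ) + 1) ^ 4 =
      (x * ((n : ℝ) + 1 + k + 1) * ((n : ℝ) + 1 + k + 2)) ^ 2 := by rw [← e2]; ring
  have f3 : ((n.choose (k + 1) : ℝ) ^ 2 * ((n + (k + 1)).choose (k + 1) : ℝ) ^ 2) * ((k : ℝ) + 1) ^ 4 =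
      (x * ((n : ℝ) + 1 - k) * ((n : ℝ) - k)) ^ 2 := by rw [← e3]; ring
  have f0 : ((n + 1).choose k : ℝ) ^ 2 * ((n + 1 + k).choose k : ℝ) ^ 2 = x ^ 2 := by rw [hx]; ring
  rw [f0]
  linear_combination (((n : ℝ) + 2) ^ 3) * f2 -
    (34 * ((n : ℝ) + 1) ^ 3 + 51 * ((n : ℝ) + 1) ^ 2 + 27 * ((n : ℝ) + 1) + 5) * f1 +
    ((n : ℝ) + 1) ^ 3 * f3 -
    4 * (2 * ((n : ℝ) + 1) + 1) * (((k : ℝ) + 1) * (2 * (k + 1) + 1) - (2 * ((n : ℝ) + 1) + 1) ^ 2) * f1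

/-- certificate for the second sequence -/
lemma certB (n k : ℕ) :
    ((n : ℝ) + 2) ^ 2 * (((n + 2).choose (k + 1) : ℝ) ^ 2 * ((n + 2 + (k + 1)).choose (k + 1) : ℝ)) -
      (11 * ((n : ℝ) + 1) ^ 2 + 11 * ((n : ℝ) + 1) + 3) *
        (((n + 1).choose (k + 1) : ℝ) ^ 2 * ((n + 1 + (k + 1)).choose (k + 1) : ℝ)) -
      ((n : ℝ) + 1) ^ 2 * ((n.choose (k + 1) : ℝ) ^ 2 * ((n + (k + 1)).choose (k + 1) : ℝ)) =
    (((k : ℝ) + 1) ^ 2 + 3 * (2 * ((n : ℝ) + 1) + 1) * (k + 1) - 11 * ((n : ℝ) + 1) ^ 2 -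
        9 * ((n : ℝ) + 1) - 2) *
        (((n + 1).choose (k + 1) : ℝ) ^ 2 * ((n + 1 + (k + 1)).choose (k + 1) : ℝ)) -
      ((k : ℝ) ^ 2 + 3 * (2 * ((n : ℝ) + 1) + 1) * k - 11 * ((n : ℝ) + 1) ^ 2 -
        9 * ((n : ℝ) + 1) - 2) *
        (((n + 1).choose k : ℝ) ^ 2 * ((n + 1 + k).choose k : ℝ)) := by
  set x : ℝ := ((n + 1).choose k : ℝ) ^ 2 * ((n + 1 + k).choose k : ℝ) with hx
  have hk : ((k : ℝ) + 1) ≠ 0 := by positivity
  have hn : ((n : ℝ) + 1) ≠ 0 := by positivity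
  have hn2 : ((n : ℝ) + 2) ≠ 0 := by positivity
  have e1 : ((n + 1).choose (k + 1) : ℝ) ^ 2 * ((n + 1 + (k + 1)).choose (k + 1) : ℝ) * (k + 1) ^ 3 =
      x * ((n : ℝ) + 1 - k) ^ 2 * ((n : ℝ) + 1 + k + 1) := by
    have a := ch1 (n + 1) k
    have b := ch2 (n + 1 + k) k
    push_cast at a b
    rw [show n + 1 + (k + 1) = n + 1 + k + 1 by ring]
    calc _ = (((n + 1).choose (k + 1) : ℝ) * (k + 1)) ^ 2 * (((n + 1 + k + 1).choose (k + 1) : ℝ) * (k + 1)) := by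
          ring
      _ = _ := by rw [a, b, hx]; ring
  have e2 : ((n + 2).choose (k + 1) : ℝ) ^ 2 * ((n + 2 + (k + 1)).choose (k + 1) : ℝ) * (k + 1) ^ 3 =
      x * ((n : ℝ) + 2) * ((n : ℝ) + 1 + k + 1) * ((n : ℝ) + 1 + k + 2) := by
    have a := ch2 (n + 1) k
    have b := ch2 (n + 2 + k) k
    have c := ch3 (n + 1) k
    push_cast at a b c
    rw [show n + 1 + 1 = n + 2 by ring] at a
    rw [show n + 1 + 1 + k = n + 2 + k by ring] at c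
    rw [show n + 2 + (k + 1) = n + 2 + k + 1 by ring]
    have : ((n + 2).choose (k + 1) : ℝ) ^ 2 * ((n + 2 + k + 1).choose (k + 1) : ℝ) * (k + 1) ^ 3 * (n + 2) =
        x * ((n : ℝ) + 2) * ((n : ℝ) + 1 + k + 1) * ((n : ℝ) + 1 + k + 2) * (n + 2) := by
      calc _ = (((n + 2).choose (k + 1) : ℝ) * (k + 1)) ^ 2 * (((n + 2 + k + 1).choose (k + 1) : ℝ) * (k + 1)) * (n + 2) := by
            ring
        _ = ((n + 1).choose k * ((n : ℝ) + 1 + 1)) ^ 2 * ((n : ℝ) + 2 + k + 1) * (((n + 2 + k).choose k : ℝ) * (n + 1 + 1)) := by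
            rw [a, b]; ring
        _ = _ := by rw [c, hx]; ring
    exact mul_right_cancel₀ hn2 this
  have e3 : (n.choose (k + 1) : ℝ) ^ 2 * ((n + (k + 1)).choose (k + 1) : ℝ) * (k + 1) ^ 3 * (n + 1) =
      x * (((n : ℝ) + 1 - k) * ((n : ℝ) - k)) ^ 2 := by
    have a := ch1 n k
    have b := ch4 n k
    have c := ch1 (n + 1 + k) k
    push_cast at a b c
    rw [show n + (k + 1) = n + 1 + k by ring]
    have : (n.choose (k + 1) : ℝ) ^ 2 * ((n + 1 + k).choose (k + 1) : ℝ) * (k + 1) ^ 3 * (n + 1) * (n + 1) =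
      x * (((n : ℝ) + 1 - k) * ((n : ℝ) - k)) ^ 2 * (n + 1) := by
      calc _ = ((n.choose (k + 1) : ℝ) * (k + 1)) ^ 2 * (((n + 1 + k).choose (k + 1) : ℝ) * (k + 1)) * (n + 1) ^ 2 := by
            ring
        _ = ((n : ℝ) - k) ^ 2 * ((n + 1 + k).choose k * ((n : ℝ) + 1 + k - k)) * ((n.choose k : ℝ) * (n + 1)) ^ 2 := by
            rw [a, c]; ring
        _ = _ := by rw [b, hx]; ring
    exact mul_right_cancel₀ hn this
  have h4 : ((k : ℝ) + 1) ^ 3 ≠ 0 := by positivity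
  refine mul_right_cancel₀ h4 ?_
  linear_combination (((n : ℝ) + 2) ^ 2) * e2 -
    (11 * ((n : ℝ) + 1) ^ 2 + 11 * ((n : ℝ) + 1) + 3) * e1 - ((n : ℝ) + 1) * e3 -
    (((k : ℝ) + 1) ^ 2 + 3 * (2 * ((n : ℝ) + 1) + 1) * (k + 1) - 11 * ((n : ℝ) + 1) ^ 2 -
        9 * ((n : ℝ) + 1) - 2) * e1

lemma seqA_eq (m M : ℕ) (h : m ≤ M) : (seqA m : ℝ) =
    ∑ j ∈ range (M + 1), (m.choose j : ℝ) ^ 2 * ((m + j).choose j : ℝ) ^ 2 := by
  unfold seqA
  push_cast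
  apply sum_subset (range_subset_range.mpr (by omega))
  intro j _ hj
  have : m < j := by simp at hj; omega
  rw [Nat.choose_eq_zero_of_lt this]; simp

lemma seqB_eq (m M : ℕ) (h : m ≤ M) : (seqB m : ℝ) =
    ∑ j ∈ range (M + 1), (m.choose j : ℝ) ^ 2 * ((m + j).choose j : ℝ) := by
  unfold seqB
  push_cast
  apply sum_subset (range_subset_range.mpr (by omega))
  intro j _ hj
  have : m < j := by simp at hj; omega
  rw [Nat.choose_eq_zero_of_lt this]; simp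

theorem seqA_rec (n : ℕ) :
    ((n : ℝ) + 2) ^ 3 * seqA (n + 2) + ((n : ℝ) + 1) ^ 3 * seqA n =
      (34 * ((n : ℝ) + 1) ^ 3 + 51 * ((n : ℝ) + 1) ^ 2 + 27 * ((n : ℝ) + 1) + 5) * seqA (n + 1) := by
  rw [seqA_eq (n + 2) (n + 2) le_rfl, seqA_eq (n + 1) (n + 2) (by omega),
    seqA_eq n (n + 2) (by omega)]
  rw [mul_sum, mul_sum, mul_sum, ← sum_add_distrib, ← sub_eq_zero, ← sum_sub_distrib,
    sum_range_succ']
  obtain ⟨F, hF⟩ : ∃ F : ℕ → ℝ, F = (fun k : ℕ => 4 * (2 * ((n : ℝ) + 1) + 1) *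
      ((k : ℝ) * (2 * k + 1) - (2 * ((n : ℝ) + 1) + 1) ^ 2) *
        (((n + 1).choose k : ℝ) ^ 2 * ((n + 1 + k).choose k : ℝ) ^ 2)) := ⟨_, rfl⟩
  have e : ∀ k ∈ range (n + 2), (((n : ℝ) + 2) ^ 3 * (((n + 2).choose (k + 1) : ℝ) ^ 2 *
        ((n + 2 + (k + 1)).choose (k + 1) : ℝ) ^ 2) +
      ((n : ℝ) + 1) ^ 3 * ((n.choose (k + 1) : ℝ) ^ 2 * ((n + (k + 1)).choose (k + 1) : ℝ) ^ 2) -
      (34 * ((n : ℝ) + 1) ^ 3 + 51 * ((n : ℝ) + 1) ^ 2 + 27 * ((n : ℝ) + 1) + 5) *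
        (((n + 1).choose (k + 1) : ℝ) ^ 2 * ((n + 1 + (k + 1)).choose (k + 1) : ℝ) ^ 2)) =
      F (k + 1) - F k := by
    intro k _
    have := certA n k
    rw [hF]
    push_cast
    linear_combination this
  rw [sum_congr rfl e, sum_range_sub, hF]
  simp only [Nat.choose_eq_zero_of_lt (show n + 1 < n + 2 by omega)]
  simp
  ring

theorem seqB_rec (n : ℕ) :
    ((n : ℝ) + 2) ^ 2 * seqB (n + 2) =
      (11 * ((n : ℝ) + 1) ^ 2 + 11 * ((n : ℝ) + 1) + 3) * seqB (n + 1) +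
      ((n : ℝ) + 1) ^ 2 * seqB n := by
  rw [seqB_eq (n + 2) (n + 2) le_rfl, seqB_eq (n + 1) (n + 2) (by omega),
    seqB_eq n (n + 2) (by omega)]
  rw [mul_sum, mul_sum, mul_sum, ← sum_add_distrib, ← sub_eq_zero, ← sum_sub_distrib,
    sum_range_succ']
  obtain ⟨F, hF⟩ : ∃ F : ℕ → ℝ, F = (fun k : ℕ => ((k : ℝ) ^ 2 + 3 * (2 * ((n : ℝ) + 1) + 1) * k -
      11 * ((n : ℝ) + 1) ^ 2 - 9 * ((n : ℝ) + 1) - 2) *
        (((n + 1).choose k : ℝ) ^ 2 * ((n + 1 + k).choose k : ℝ))) := ⟨_, rfl⟩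
  have e : ∀ k ∈ range (n + 2), (((n : ℝ) + 2) ^ 2 * (((n + 2).choose (k + 1) : ℝ) ^ 2 *
        ((n + 2 + (k + 1)).choose (k + 1) : ℝ)) -
      ((11 * ((n : ℝ) + 1) ^ 2 + 11 * ((n : ℝ) + 1) + 3) *
        (((n + 1).choose (k + 1) : ℝ) ^ 2 * ((n + 1 + (k + 1)).choose (k + 1) : ℝ)) +
      ((n : ℝ) + 1) ^ 2 * ((n.choose (k + 1) : ℝ) ^ 2 * ((n + (k + 1)).choose (k + 1) : ℝ)))) =
      F (k + 1) - F k := by
    intro k _
    have := certB n k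
    rw [hF]
    push_cast
    linear_combination this
  rw [sum_congr rfl e, sum_range_sub, hF]
  simp only [Nat.choose_eq_zero_of_lt (show n + 1 < n + 2 by omega)]
  simp
  ring

end Pool.Agent.MP5ad
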