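import Mathlib
import Pool.Agent.Lib.MP_5ad3e6_co.Criterion
import Pool.Agent.Lib.MP_5ad3e6_co.Recurrence

set_option autoImplicit false

/-!
# The finite part: exact computation of the first eleven iterates on a list
-/

namespace Pool.Agent.MP5ad

/-- one application of the log-convexity operator to a list of naturals, failing when some value is
not positive; the result is accumulated in reverse order. -/
def stepAcc : List ℕ → ℕ → ℕ → List ℕ → Option (List ℕ)
  | [], _, _, acc => some acc
  | x2 :: t, x0, x1, acc =>
    match x0 * x2 - x1 * x1 with
    | 0 => none
    | v + 1 => stepAcc t x1 x2 ((v + 1) :: acc)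

/-- all consecutive triples satisfy `3 x₁² ≤ x₀ x₂`. -/
def triples : List ℕ → ℕ → ℕ → Bool
  | [], _, _ => true
  | x2 :: t, x0, x1 => Nat.ble (3 * (x1 * x1)) (x0 * x2) && triples t x1 x2

/-- iterate the step `k` times and check triples at the end. -/
def iterCheck : ℕ → List ℕ → Bool
  | 0, x0 :: x1 :: t => triples t x0 x1
  | k + 1, x0 :: x1 :: t =>
    match stepAcc t x0 x1 [] with
    | none => false
    | some l => iterCheck k l.reverse
  | _, _ => false

/-- check of a three-term recurrence `P n x₂ + R n x₀ = Q n x₁ + S n x₀` along a list. -/
def recCheck (P Q R S : ℕ → ℕ) : List ℕ → ℕ → ℕ → ℕ → Bool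
  | [], _, _, _ => true
  | x2 :: t, n, x0, x1 =>
    Nat.beq (P n * x2 + R n * x0) (Q n * x1 + S n * x0) && recCheck P Q R S t (n + 1) x1 x2

/-- The first values of the first Apéry sequence. -/
def listA : List ℕ := [
  1,
  5,
  73,
  1445,
  33001,
  819005,
  21460825,
  584307365,
  16367912425,
  468690849005,
  13657436403073,
  403676083788125,
  12073365010564729,
  364713572395983725,
  11111571997143198073,
  341034504521827105445,
  10534522198396293262825,
  327259338516161442321485,
  10217699252454924737153425,
  320453816254421403579490445,
  10090942470266994032842836001,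
  318921014082963955914319044245,
  10112862370204493589226059105073,
  321646044050119013257870914202205,
  10258527782126040976126514552283001,
  328017861753617108138745994353819005,
  10513075844868136906230866440417359025,
  337680344520220231237735104674430132365,
  10868197045847822233854339973569898723225,
  350448416188671492371137001869642486509005,
  11320115195385966907843180411829810312080825,
  366259032039195694511963784094119536372841125,
  11868391417565105084697095320648938996662005225,
  385141893551972009791193063262399441595876410125,
  12515206395070677771488520122693471618033650555825,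
  407201895741328038643638742179545192478609191472365,
  13264933862314086588526333019005254963413604768312625,
  432608890743363080972636276208886395181797990653684645,
  14123900124474974355463488387575208768428006139187446625,
  461592241038601221317568598272003199462332786066242772365,
  15100268525919986925572504996818177040381209593531087707425,
  494438677791110331986222037672826221379374110829159839541125,
  16204012637643564134944174573318170906068938798508028723732025,
  531492577920058494830906965608283383123328156566952626026355125,
  17446956469170505526918984913610522180024171894385647979410457425,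
  573158130094091509896823954287273156502032876616634989286084964005,
  18842868840510684130726174724393234844121893058638825682059447790225,
  619903080638433291652133768202852831319657957808718399474465302262365,
  20407604627034218634187650429709995262016693431943802877443284992092025,
  672263892742494684823288023413485802270813139858223098722258869327599005,
  22159289267919256357975989248225451256263203286184474224684522415569903073,
  730852248537001330286255206493818913053505494743673534265031262812676859165,
  24118545478569221522220535891464306054025125759758523198656184698879247893329,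
  796362892209112896336931248654199983419105577493639845719852706327463957351685,
  26308762982707997150163347174607600383446073635531980036072760356460577053767073,
  869582864469011442233018824680867259036999718563485864311203118504545920921930125]

/-- The first values of the second Apéry sequence. -/
def listB : List ℕ := [
  1,
  3,
  19,
  147,
  1251,
  11253,
  104959,
  1004307,
  9793891,
  96918753,
  970336269,
  9807518757,
  99912156111,
  1024622952993,
  10567623342519,
  109527728400147,
  1140076177397091,
  11911997404064793,
  124879633548031009,
  1313106114867738897,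
  13844511065506477501,
  146322941273885580603,
  1549912367267761433769,
  16450439086749950936997,
  174924168566476732188751,
  1863199580733462135011253,
  19876914506420861848156009,
  212357595992698186804215057,
  2271802438441883959581085191,
  24334177339758036334496433753,
  260957406138037006933491169959,
  2801537873690234052707036350227,
  30106998006472224852500377711971,
  323858571735408246309617900696073,
  3486869021542096067090489528911209,
  37573842128960649582979345057338057,
  405214188260162463619620764045365521,
  4373345236195627396789688479385786583,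
  47234082882575015660412016560662630229,
  510497588377023087642328889011069863057,
  5520945718362027407515485874553599950141,
  59744925483527244172533990396780675598623,
  646909480180266558345062346837944728306179,
  7008563823826207845580526624328309853148427,
  75970760135225118374038575394988186671447641,
  823920813623968539225049969073445569451772503,
  8939976123786609833874995775465230165942767809,
  97048777069213595440342680060660891951973147557,
  1053993925928062867342402275214212400517616806991,
  11451767270202455150511956853822369245502157856253,
  124476049059968021046495152377545456899064983461269,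
  1353539416553167640251291196379022924068906334363557,
  14723844186961406333976832302400883706769530446390361,
  160225063185063240989349615511392406939205310193032543,
  1744185662792486533930663088584922501650615501526591269,
  18993386593278200639286445808980625836385217509388826257]

theorem checkA : iterCheck 11 listA = true := by decide +kernel

theorem checkB : iterCheck 11 listB = true := by decide +kernel

lemma stepAcc_spec (t : List ℕ) : ∀ (x0 x1 : ℕ) (acc l' : List ℕ) (a : ℕ → ℝ) (s : ℕ),
    (∀ i (h : i < (x0 :: x1 :: t).length), (((x0 :: x1 :: t)[i] : ℕ) : ℝ) = a (i + s)) →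
    stepAcc t x0 x1 acc = some l' →
    ∃ r : List ℕ, l' = r.reverse ++ acc ∧ r.length = t.length ∧
      ∀ i (h : i < r.length), ((r[i] : ℕ) : ℝ) = Ls a (i + s) ∧ 0 < r[i] := by
  induction t with
  | nil =>
    intro x0 x1 acc l' a s ha h
    simp only [stepAcc, Option.some.injEq] at h
    exact ⟨[], by simp [h], rfl, by simp⟩
  | cons x2 t ih =>
    intro x0 x1 acc l' a s ha h
    simp only [stepAcc] at h
    split at h
    · exact absurd h (by simp)
    · rename_i v hv
      have ha' : ∀ i (h : i < (x1 :: x2 :: t).length),
          (((x1 :: x2 :: t)[i] : ℕ) : ℝ) = a (i + (s + 1)) := by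
        intro i hi
        have := ha (i + 1) (by simp at hi ⊢; omega)
        rw [show i + (s + 1) = i + 1 + s by ring, ← this]
        simp
      obtain ⟨r, hr1, hr2, hr3⟩ := ih x1 x2 ((v + 1) :: acc) l' a (s + 1) ha' h
      refine ⟨(v + 1) :: r, ?_, by simp [hr2], ?_⟩
      · rw [hr1]; simp
      · intro i hi
        rcases i with _ | i
        · have h0 := ha 0 (by simp)
          have h1 := ha 1 (by simp)
          have h2 := ha 2 (by simp)
          simp only [List.getElem_cons_zero, List.getElem_cons_succ] at h0 h1 h2
          refine ⟨?_, by simp⟩
          have hle : x1 * x1 ≤ x0 * x2 := by omega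
          have hcast : ((v + 1 : ℕ) : ℝ) = (x0 : ℝ) * x2 - x1 * x1 := by
            have hv' : v + 1 = x0 * x2 - x1 * x1 := hv.symm
            rw [hv']; push_cast [hle]; ring
          simp only [List.getElem_cons_zero]
          rw [hcast, h0, h1, h2]
          simp only [Ls, show 0 + s + 2 = 2 + s by ring, show 0 + s + 1 = 1 + s by ring]
          ring
        · have := hr3 i (by simpa using hi)
          simp only [List.getElem_cons_succ]
          rw [show i + 1 + s = i + (s + 1) by ring]
          exact this

lemma triples_spec (t : List ℕ) : ∀ (x0 x1 : ℕ), triples t x0 x1 = true →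
    ∀ i (h : i + 2 < (x0 :: x1 :: t).length),
      3 * ((x0 :: x1 :: t)[i + 1] * (x0 :: x1 :: t)[i + 1]) ≤
        (x0 :: x1 :: t)[i] * (x0 :: x1 :: t)[i + 2] := by
  induction t with
  | nil => intro x0 x1 _ i hi; simp at hi
  | cons x2 t ih =>
    intro x0 x1 h i hi
    simp only [triples, Bool.and_eq_true] at h
    rcases i with _ | i
    · simpa using Nat.le_of_ble_eq_true h.1
    · have := ih x1 x2 h.2 i (by simp at hi ⊢; omega)
      simpa using this

lemma iterCheck_spec (k : ℕ) : ∀ (l : List ℕ) (a : ℕ → ℝ),
    (∀ i (h : i < l.length), ((l[i] : ℕ) : ℝ) = a i) →
    (∀ i (h : i < l.length), 0 < l[i]) →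
    iterCheck k l = true →
    (∀ j, j ≤ k → ∀ m, m + 2 * j < l.length → 0 < (Ls^[j] a) m) ∧
    (∀ m, m + 2 * k + 2 < l.length →
      3 * (Ls^[k] a) (m + 1) ^ 2 ≤ (Ls^[k] a) m * (Ls^[k] a) (m + 2)) := by
  induction k with
  | zero =>
    intro l a ha hp h
    refine ⟨?_, ?_⟩
    · intro j hj m hm
      obtain rfl : j = 0 := by omega
      simp only [Function.iterate_zero, id]
      have h1 := ha m (by omega)
      have h2 := hp m (by omega)
      rw [← h1]; exact_mod_cast h2
    · intro m hm
      match l, h with
      | x0 :: x1 :: t, h =>
        simp only [iterCheck] at h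
        have := triples_spec t x0 x1 h m (by omega)
        simp only [Function.iterate_zero, id]
        rw [← ha m (by omega), ← ha (m + 1) (by omega), ← ha (m + 2) (by omega)]
        have h' : ((3 * ((x0 :: x1 :: t)[m + 1] * (x0 :: x1 :: t)[m + 1]) : ℕ) : ℝ) ≤
          (((x0 :: x1 :: t)[m] * (x0 :: x1 :: t)[m + 2] : ℕ) : ℝ) := by exact_mod_cast this
        push_cast at h'
        linarith
  | succ k ih =>
    intro l a ha hp h
    match l, h with
    | x0 :: x1 :: t, h =>
      simp only [iterCheck] at h
      split at h
      · exact absurd h (by simp)
      · rename_i l' hl'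
        obtain ⟨r, hr1, hr2, hr3⟩ := stepAcc_spec t x0 x1 [] l' a 0
          (by intro i hi; simpa using ha i hi) hl'
        have hr : l'.reverse = r := by rw [hr1]; simp
        rw [hr] at h
        have := ih r (Ls a) (fun i hi => by simpa using (hr3 i hi).1)
          (fun i hi => (hr3 i hi).2) h
        obtain ⟨A1, A2⟩ := this
        simp only [List.length_cons]
        refine ⟨?_, ?_⟩
        · intro j hj m hm
          rcases j with _ | j
          · simp only [Function.iterate_zero, id]
            have h1 := ha m (by simp at hm ⊢; omega)
            have h2 := hp m (by simp at hm ⊢; omega)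
            rw [← h1]; exact_mod_cast h2
          · rw [Function.iterate_succ_apply]
            exact A1 j (by omega) m (by omega)
        · intro m hm
          rw [Function.iterate_succ_apply]
          exact A2 m (by omega)

lemma recCheck_spec (P Q R S : ℕ → ℕ) (hP : ∀ n, 0 < P n) (t : List ℕ) :
    ∀ (n x0 x1 : ℕ) (a : ℕ → ℕ), 
    recCheck P Q R S t n x0 x1 = true → a n = x0 → a (n + 1) = x1 →
    (∀ i, P (n + i) * a (n + i + 2) + R (n + i) * a (n + i) =
      Q (n + i) * a (n + i + 1) + S (n + i) * a (n + i)) →
    ∀ i (h : i < (x0 :: x1 :: t).length), (x0 :: x1 :: t)[i] = a (n + i) := by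
  induction t with
  | nil =>
    intro n x0 x1 a _ h0 h1 _ i hi
    simp at hi
    rcases i with _ | _ | i
    · simpa using h0.symm
    · simpa using h1.symm
    · omega
  | cons x2 t ih =>
    intro n x0 x1 a hc h0 h1 hrec i hi
    simp only [recCheck, Bool.and_eq_true] at hc
    obtain ⟨hc1, hc2⟩ := hc
    have hc1' := Nat.eq_of_beq_eq_true hc1
    have h2 : a (n + 2) = x2 := by
      have := hrec 0
      simp only [add_zero] at this
      rw [h0, h1] at this
      have h3 : P n * a (n + 2) = P n * x2 := by omega
      exact Nat.eq_of_mul_eq_mul_left (hP n) h3
    rcases i with _ | i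
    · simpa using h0.symm
    · have := ih (n + 1) x1 x2 a hc2 h1 (by rw [← h2]) (fun i => by
        have := hrec (i + 1)
        rw [show n + 1 + i = n + (i + 1) by ring]
        exact this) i (by simp at hi ⊢; omega)
      rw [show n + (i + 1) = n + 1 + i by ring, ← this]
      simp


theorem recA_check : recCheck (fun n => (n + 2) ^ 3)
    (fun n => 34 * (n + 1) ^ 3 + 51 * (n + 1) ^ 2 + 27 * (n + 1) + 5)
    (fun n => (n + 1) ^ 3) (fun _ => 0) (listA.drop 2) 0 1 5 = true := by decide +kernel

theorem recB_check : recCheck (fun n => (n + 2) ^ 2)
    (fun n => 11 * (n + 1) ^ 2 + 11 * (n + 1) + 3)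
    (fun _ => 0) (fun n => (n + 1) ^ 2) (listB.drop 2) 0 1 3 = true := by decide +kernel

theorem listA_form : 1 :: 5 :: listA.drop 2 = listA := by decide +kernel

theorem listB_form : 1 :: 3 :: listB.drop 2 = listB := by decide +kernel

theorem listA_length : listA.length = 56 := by decide +kernel

theorem listB_length : listB.length = 56 := by decide +kernel

theorem listA_pos : listA.all (fun x => Nat.blt 0 x) = true := by decide +kernel

theorem listB_pos : listB.all (fun x => Nat.blt 0 x) = true := by decide +kernel

lemma seqA_rec_nat (n : ℕ) :
    (n + 2) ^ 3 * seqA (n + 2) + (n + 1) ^ 3 * seqA n =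
      (34 * (n + 1) ^ 3 + 51 * (n + 1) ^ 2 + 27 * (n + 1) + 5) * seqA (n + 1) := by
  have := seqA_rec n
  exact_mod_cast this

lemma seqB_rec_nat (n : ℕ) :
    (n + 2) ^ 2 * seqB (n + 2) =
      (11 * (n + 1) ^ 2 + 11 * (n + 1) + 3) * seqB (n + 1) + (n + 1) ^ 2 * seqB n := by
  have := seqB_rec n
  exact_mod_cast this

lemma listA_spec (i : ℕ) (h : i < listA.length) : listA[i] = seqA i := by
  have key := recCheck_spec (fun n => (n + 2) ^ 3)
    (fun n => 34 * (n + 1) ^ 3 + 51 * (n + 1) ^ 2 + 27 * (n + 1) + 5)
    (fun n => (n + 1) ^ 3) (fun _ => 0) (fun n => by positivity) (listA.drop 2) 0 1 5 seqA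
    recA_check (by decide) (by decide) (fun i => by
      have := seqA_rec_nat i
      simp only [zero_add, zero_mul, add_zero]
      exact this) i (by rw [listA_form]; exact h)
  simp only [listA_form, zero_add] at key
  exact key

lemma listB_spec (i : ℕ) (h : i < listB.length) : listB[i] = seqB i := by
  have key := recCheck_spec (fun n => (n + 2) ^ 2)
    (fun n => 11 * (n + 1) ^ 2 + 11 * (n + 1) + 3)
    (fun _ => 0) (fun n => (n + 1) ^ 2) (fun n => by positivity) (listB.drop 2) 0 1 3 seqB
    recB_check (by decide) (by decide) (fun i => by
      have := seqB_rec_nat i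
      simp only [zero_add, zero_mul, add_zero]
      exact this) i (by rw [listB_form]; exact h)
  simp only [listB_form, zero_add] at key
  exact key

theorem finA : (∀ k, k ≤ 11 → ∀ m, m < 10 + 2 * k → 0 < (Ls^[k] (fun n => (seqA n : ℝ))) m) ∧
    (∀ m, m < 32 → 3 * (Ls^[11] (fun n => (seqA n : ℝ))) (m + 1) ^ 2 ≤
      (Ls^[11] (fun n => (seqA n : ℝ))) m * (Ls^[11] (fun n => (seqA n : ℝ))) (m + 2)) := by
  have h := iterCheck_spec 11 listA (fun n => (seqA n : ℝ))
    (fun i hi => by rw [listA_spec i hi])
    (fun i hi => by
      have := List.all_eq_true.mp listA_pos listA[i] (List.getElem_mem hi)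
      have h1 : 1 ≤ listA[i] := by simpa [Nat.blt] using this
      exact h1) checkA
  rw [listA_length] at h
  exact ⟨fun k hk m hm => h.1 k hk m (by omega), fun m hm => h.2 m (by omega)⟩

theorem finB : (∀ k, k ≤ 11 → ∀ m, m < 10 + 2 * k → 0 < (Ls^[k] (fun n => (seqB n : ℝ))) m) ∧
    (∀ m, m < 32 → 3 * (Ls^[11] (fun n => (seqB n : ℝ))) (m + 1) ^ 2 ≤
      (Ls^[11] (fun n => (seqB n : ℝ))) m * (Ls^[11] (fun n => (seqB n : ℝ))) (m + 2)) := by
  have h := iterCheck_spec 11 listB (fun n => (seqB n : ℝ))
    (fun i hi => by rw [listB_spec i hi])
    (fun i hi => by
      have := List.all_eq_true.mp listB_pos listB[i] (List.getElem_mem hi)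
      have h1 : 1 ≤ listB[i] := by simpa [Nat.blt] using this
      exact h1) checkB
  rw [listB_length] at h
  exact ⟨fun k hk m hm => h.1 k hk m (by omega), fun m hm => h.2 m (by omega)⟩

end Pool.Agent.MP5ad
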