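import Mathlib
import Pool.Agent.Lib.MP_5ad3e6_co.Density
import Pool.Agent.Lib.MP_5ad3e6_co.Finite

set_option autoImplicit false

/-!
# Comparison of a sequence with a Laplace transform
-/

open MeasureTheory Set Filter Topology

namespace Pool.Agent.MP5ad

lemma iter_shift (S : ℝ → ℝ) (k : ℕ) : ∀ m : ℕ,
    (Ls^[k] (fun n : ℕ => S ((n : ℝ) + 2))) m = (Lf^[k] S) ((m : ℝ) + k + 2) := by
  induction k with
  | zero => intro m; simp
  | succ k ih =>
    intro m
    rw [Ls_iter_succ, Function.iterate_succ_apply', ih, ih, ih]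
    simp only [Lf]
    push_cast
    have e1 : (m : ℝ) + (k + 1) + 2 - 1 = m + k + 2 := by ring
    have e2 : (m : ℝ) + (k + 1) + 2 + 1 = m + 2 + k + 2 := by ring
    have e3 : (m : ℝ) + (k + 1) + 2 = m + 1 + k + 2 := by ring
    rw [e1, e2, e3]

lemma QP_of_rep {S : ℝ → ℝ} (h : HasRep 1 0 S) (hpos : ∀ w, 0 < w → 0 < S w) :
    QP (fun n : ℕ => S ((n : ℝ) + 2)) := by
  refine ⟨fun k m => ?_, fun k m => ?_⟩
  · rw [iter_shift]
    apply (scaling_main h hpos k).1
    have := Nat.cast_nonneg (α := ℝ) m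
    linarith
  · rw [iter_shift, iter_shift, iter_shift]
    have := (scaling_main h hpos k).2 ((m : ℝ) + k + 3) (by
      have := Nat.cast_nonneg (α := ℝ) m
      linarith)
    have e1 : (m : ℝ) + k + 3 - 1 = m + k + 2 := by ring
    have e2 : (m : ℝ) + k + 3 + 1 = ((m + 2 : ℕ) : ℝ) + k + 2 := by push_cast; ring
    have e3 : ((m + 1 : ℕ) : ℝ) + k + 2 = (m : ℝ) + k + 3 := by push_cast; ring
    rw [e1, e2] at this
    rw [e3]
    exact this

lemma iter_scale (b : ℕ → ℝ) {c μ : ℝ} (hc : 0 < c) (hμ : 0 < μ) (k : ℕ) :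
    ∃ C M : ℝ, 0 < C ∧ 0 < M ∧ ∀ m : ℕ,
      (Ls^[k] (fun n => c * μ ^ n * b n)) m = C * M ^ m * (Ls^[k] b) m := by
  induction k with
  | zero => exact ⟨c, μ, hc, hμ, fun m => rfl⟩
  | succ k ih =>
    obtain ⟨C, M, hC, hM, h⟩ := ih
    refine ⟨C ^ 2 * M ^ 2, M ^ 2, by positivity, by positivity, fun m => ?_⟩
    rw [Ls_iter_succ, Ls_iter_succ, h, h, h]
    ring

lemma QP.scale {b : ℕ → ℝ} (hb : QP b) {c μ : ℝ} (hc : 0 < c) (hμ : 0 < μ) :
    QP (fun n => c * μ ^ n * b n) := by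
  refine ⟨fun k m => ?_, fun k m => ?_⟩
  · obtain ⟨C, M, hC, hM, h⟩ := iter_scale b hc hμ k
    rw [h]
    have := hb.pos k m
    positivity
  · obtain ⟨C, M, hC, hM, h⟩ := iter_scale b hc hμ k
    rw [h, h, h]
    have := mul_le_mul_of_nonneg_left (hb.conv k m) (show 0 ≤ C ^ 2 * (M ^ m) ^ 2 * M ^ 2 by positivity)
    calc _ = C ^ 2 * (M ^ m) ^ 2 * M ^ 2 * ((1 + 1 / (((m : ℝ) + k + 3) ^ 2 - 1)) ^ (cexp k) *
        (Ls^[k] b) (m + 1) ^ 2) := by ring
      _ ≤ _ := this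
      _ = _ := by ring

/-- convergence of the ratio with relative error control -/
lemma limit_ratio {R : ℕ → ℝ} (hR : ∀ n, 10 ≤ n → 0 < R n)
    (hx : ∀ n, 10 ≤ n → |R (n + 1) - R n| ≤ 16 * (1 / 10) ^ n * R n) :
    ∃ l : ℝ, 0 < l ∧ ∀ n, 10 ≤ n → |R n - l| ≤ 32 * (1 / 10) ^ n * l := by
  have hsm : ∀ n, 10 ≤ n → (1 / 10 : ℝ) ^ n ≤ 1 / 10 ^ 10 := by
    intro n hn
    calc (1 / 10 : ℝ) ^ n ≤ (1 / 10) ^ 10 := pow_le_pow_of_le_one (by norm_num) (by norm_num) hn
      _ = 1 / 10 ^ 10 := by norm_num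
  have hclaim : ∀ n, 10 ≤ n → ∀ N, n ≤ N →
      |R N - R n| ≤ 20 * ((1 / 10) ^ n - (1 / 10) ^ N) * R n := by
    intro n hn N hN
    have hRn := hR n hn
    induction N, hN using Nat.le_induction with
    | base => simp
    | succ N hN ih =>
      have h1 := hx N (by omega)
      have h2 := hsm n hn
      have h3 : (0 : ℝ) < (1 / 10) ^ N := by positivity
      have h4 : R N ≤ 11 / 10 * R n := by
        have := (abs_le.mp ih).2
        nlinarith
      have h5 : (1 / 10 : ℝ) ^ (N + 1) = (1 / 10) ^ N * (1 / 10) := pow_succ _ _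
      calc |R (N + 1) - R n| ≤ |R (N + 1) - R N| + |R N - R n| := by
            have := abs_sub_le (R (N + 1)) (R N) (R n)
            exact this
        _ ≤ 16 * (1 / 10) ^ N * R N + 20 * ((1 / 10) ^ n - (1 / 10) ^ N) * R n := by gcongr
        _ ≤ 16 * (1 / 10) ^ N * (11 / 10 * R n) + 20 * ((1 / 10) ^ n - (1 / 10) ^ N) * R n := by
            gcongr
        _ ≤ 20 * ((1 / 10) ^ n - (1 / 10) ^ (N + 1)) * R n := by
            rw [h5]; nlinarith [mul_pos h3 hRn]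
  have hcau : CauchySeq (fun N => R (N + 10)) := by
    apply cauchySeq_of_le_geometric (1 / 10) (R 10) (by norm_num)
    intro N
    rw [dist_comm, Real.dist_eq]
    have h1 := hx (N + 10) (by omega)
    have h2 := hclaim 10 le_rfl (N + 10) (by omega)
    have hR0 := hR 10 le_rfl
    have h3 : (0 : ℝ) < (1 / 10) ^ (N + 10) := by positivity
    have h4 : R (N + 10) ≤ 11 / 10 * R 10 := by
      have := (abs_le.mp h2).2
      have := hsm 10 le_rfl
      nlinarith
    have h5 : (1 / 10 : ℝ) ^ (N + 10) = (1 / 10) ^ N * (1 / 10) ^ 10 := pow_add _ _ _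
    rw [show N + 1 + 10 = N + 10 + 1 by ring]
    have h6 : (0 : ℝ) < (1 / 10) ^ N := by positivity
    calc |R (N + 10 + 1) - R (N + 10)| ≤ 16 * (1 / 10) ^ (N + 10) * R (N + 10) := h1
      _ ≤ 16 * (1 / 10) ^ (N + 10) * (11 / 10 * R 10) := by gcongr
      _ = (16 * (1 / 10) ^ 10 * (11 / 10)) * ((1 / 10) ^ N * R 10) := by rw [h5]; ring
      _ ≤ 1 * ((1 / 10) ^ N * R 10) := by
          have : (16 * (1 / 10 : ℝ) ^ 10 * (11 / 10)) ≤ 1 := by norm_num
          gcongr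
      _ = R 10 * (1 / 10) ^ N := by ring
  obtain ⟨l, hl⟩ := cauchySeq_tendsto_of_complete hcau
  have hl' : Tendsto R atTop (𝓝 l) := (tendsto_add_atTop_iff_nat 10).mp hl
  have hlim : ∀ n, 10 ≤ n → |l - R n| ≤ 20 * (1 / 10) ^ n * R n := by
    intro n hn
    have h1 : Tendsto (fun N => |R N - R n|) atTop (𝓝 |l - R n|) :=
      ((hl'.sub_const (R n))).abs
    refine le_of_tendsto h1 (eventually_atTop.mpr ⟨n, fun N hN => ?_⟩)
    refine (hclaim n hn N hN).trans ?_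
    have hRn := hR n hn
    have h3 : (0 : ℝ) < (1 / 10) ^ N := by positivity
    have : 20 * ((1 / 10) ^ n - (1 / 10) ^ N) ≤ 20 * (1 / 10 : ℝ) ^ n := by linarith
    gcongr
  have hlR : ∀ n, 10 ≤ n → 9 / 10 * R n ≤ l := by
    intro n hn
    have h1 := (abs_le.mp (hlim n hn)).1
    have h2 := hsm n hn
    have hRn := hR n hn
    nlinarith
  refine ⟨l, ?_, fun n hn => ?_⟩
  · have h1 := hlR 10 le_rfl
    have h2 := hR 10 le_rfl
    linarith
  · have h1 := hlim n hn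
    have h2 := hlR n hn
    have h3 : (0 : ℝ) < (1 / 10) ^ n := by positivity
    rw [abs_sub_comm]
    refine h1.trans ?_
    have h4 : R n ≤ 10 / 9 * l := by linarith
    have h5 : 0 < l := by have := hR n hn; linarith
    calc 20 * (1 / 10) ^ n * R n ≤ 20 * (1 / 10) ^ n * (10 / 9 * l) := by gcongr
      _ = (200 / 9) * ((1 / 10) ^ n * l) := by ring
      _ ≤ 32 * ((1 / 10) ^ n * l) := by
          have : 0 < (1 / 10 : ℝ) ^ n * l := by positivity
          gcongr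
          norm_num
      _ = _ := by ring

lemma y_bound {y : ℕ → ℝ} (h1 : y 1 ≤ 5) 
    (h : ∀ n, 1 ≤ n → y (n + 1) ≤ 1 / 30 * y n + 10 * (1 / 10) ^ (n + 1)) :
    ∀ n, 10 ≤ n → y n ≤ 16 * (1 / 10) ^ n := by
  have h2 : ∀ n, 1 ≤ n → y n ≤ 150 * (1 / 30) ^ n + 15 * (1 / 10) ^ n := by
    intro n hn
    induction n, hn using Nat.le_induction with
    | base => norm_num; linarith
    | succ n hn ih =>
      have := h n hn
      have e1 : (1 / 10 : ℝ) ^ (n + 1) = (1 / 10) ^ n * (1 / 10) := pow_succ _ _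
      have e2 : (1 / 30 : ℝ) ^ (n + 1) = (1 / 30) ^ n * (1 / 30) := pow_succ _ _
      rw [e1] at this ⊢
      rw [e2]
      linarith
  intro n hn
  have h3 := h2 n (by omega)
  have e : (1 / 30 : ℝ) ^ n = (1 / 3) ^ n * (1 / 10) ^ n := by rw [← mul_pow]; norm_num
  have h4 : (1 / 3 : ℝ) ^ n ≤ 1 / 150 := by
    calc (1 / 3 : ℝ) ^ n ≤ (1 / 3) ^ 10 := pow_le_pow_of_le_one (by norm_num) (by norm_num) hn
      _ ≤ 1 / 150 := by norm_num
  rw [e] at h3
  have h5 : (0 : ℝ) < (1 / 10) ^ n := by positivity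
  nlinarith

/-- The main comparison theorem. `s` is the moment sequence of the density on the cut interval,
`α` the growth rate. -/
theorem compare_main {a : ℕ → ℝ} {s : ℕ → ℝ} {S : ℝ → ℝ} {α : ℝ} (hα : 0 < α)
    (hrep : HasRep 1 0 S) (hSpos : ∀ w, 0 < w → 0 < S w)
    (ha : ∀ n, 1 ≤ n → 0 < a n) (hs : ∀ n, 1 ≤ n → 0 < s n)
    (hsS : ∀ n : ℕ, 10 ≤ n → s n ≤ S (n + 2) ∧ S (n + 2) ≤ s n + 30 * (1 / 10) ^ n * s n)
    (hy1 : |a 2 * s 1 / (α * (a 1 * s 2)) - 1| ≤ 5)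
    (hy : ∀ n, 1 ≤ n → |a (n + 2) * s (n + 1) / (α * (a (n + 1) * s (n + 2))) - 1| ≤
      1 / 30 * |a (n + 1) * s n / (α * (a n * s (n + 1))) - 1| + 10 * (1 / 10) ^ (n + 1)) :
    ∃ b : ℕ → ℝ, QP b ∧ ∀ n, 10 ≤ n → |a n - b n| ≤ 100 * (1 / 10) ^ n * b n := by
  have hyb := y_bound (y := fun n => |a (n + 1) * s n / (α * (a n * s (n + 1))) - 1|) hy1 hy
  set R : ℕ → ℝ := fun n => a n / (α ^ n * s n) with hRdef
  have hR : ∀ n, 10 ≤ n → 0 < R n := by
    intro n hn
    have := ha n (by omega)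
    have := hs n (by omega)
    simp only [hRdef]; positivity
  have hx : ∀ n, 10 ≤ n → |R (n + 1) - R n| ≤ 16 * (1 / 10) ^ n * R n := by
    intro n hn
    have h1 := hyb n hn
    have a0 := ha n (by omega)
    have a1 := ha (n + 1) (by omega)
    have s0 := hs n (by omega)
    have s1 := hs (n + 1) (by omega)
    have hRn := hR n hn
    have e : R (n + 1) - R n = R n * (a (n + 1) * s n / (α * (a n * s (n + 1))) - 1) := by
      simp only [hRdef]
      rw [pow_succ]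
      field_simp
    rw [e, abs_mul, abs_of_pos hRn, mul_comm]
    gcongr
  obtain ⟨l, hl, hlR⟩ := limit_ratio hR hx
  refine ⟨fun n => l * α ^ n * S (n + 2), (QP_of_rep hrep hSpos).scale hl hα, ?_⟩
  intro n hn
  have h1 := hlR n hn
  obtain ⟨h2, h3⟩ := hsS n hn
  have a0 := ha n (by omega)
  have s0 := hs n (by omega)
  have hαn : 0 < α ^ n := by positivity
  have ea : a n = R n * (α ^ n * s n) := by simp only [hRdef]; field_simp
  have h10 : (0 : ℝ) < (1 / 10) ^ n := by positivity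
  have h4 : |a n - l * (α ^ n * s n)| ≤ 32 * (1 / 10) ^ n * (l * (α ^ n * s n)) := by
    rw [ea, ← sub_mul, abs_mul, abs_of_pos (show 0 < α ^ n * s n by positivity)]
    calc |R n - l| * (α ^ n * s n) ≤ (32 * (1 / 10) ^ n * l) * (α ^ n * s n) := by gcongr
      _ = _ := by ring
  have h5 : |l * (α ^ n * s n) - l * α ^ n * S (n + 2)| ≤
      30 * (1 / 10) ^ n * (l * (α ^ n * s n)) := by
    have e : l * (α ^ n * s n) - l * α ^ n * S (n + 2) = -(l * α ^ n * (S (n + 2) - s n)) := by ring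
    rw [e, abs_neg, abs_of_nonneg (by
      have : 0 ≤ S (n + 2) - s n := by linarith
      positivity)]
    calc l * α ^ n * (S (n + 2) - s n) ≤ l * α ^ n * (30 * (1 / 10) ^ n * s n) := by
          gcongr; linarith
      _ = _ := by ring
  have h6 : l * (α ^ n * s n) ≤ l * α ^ n * S (n + 2) := by
    calc l * (α ^ n * s n) = l * α ^ n * s n := by ring
      _ ≤ _ := by gcongr
  calc |a n - l * α ^ n * S (n + 2)|
      ≤ |a n - l * (α ^ n * s n)| + |l * (α ^ n * s n) - l * α ^ n * S (n + 2)| :=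
        abs_sub_le _ _ _
    _ ≤ 32 * (1 / 10) ^ n * (l * (α ^ n * s n)) + 30 * (1 / 10) ^ n * (l * (α ^ n * s n)) := by
        gcongr
    _ = 62 * (1 / 10) ^ n * (l * (α ^ n * s n)) := by ring
    _ ≤ 100 * (1 / 10) ^ n * (l * α ^ n * S (n + 2)) := by
        have : 0 < l * (α ^ n * s n) := by positivity
        gcongr
        norm_num

end Pool.Agent.MP5ad
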