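import Mathlib
import Pool.Agent.Lib.MP_5ad3e6_co.Coeff

set_option autoImplicit false

/-!
# The solutions as functions of `ξ`, where `v = 1 - exp (-ξ)`
-/

open Set

namespace Pool.Agent.MP5ad

/-- the cut -/
noncomputable def Lc : ℝ := Real.log 12

lemma Lc_pos : 0 < Lc := Real.log_pos (by norm_num)

lemma exp_Lc : Real.exp Lc = 12 := Real.exp_log (by norm_num)

lemma exp_neg_Lc : Real.exp (-Lc) = 1 / 12 := by rw [Real.exp_neg, exp_Lc]; norm_num

lemma Lc_le : Lc ≤ 5 / 2 := by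
  have h1 : (2.7182818283 : ℝ) < Real.exp 1 := Real.exp_one_gt_d9
  rw [Lc, Real.log_le_iff_le_exp (by norm_num)]
  have h2 : Real.exp (5 / 2) ^ 2 = Real.exp 1 ^ 5 := by
    rw [← Real.exp_nat_mul, ← Real.exp_nat_mul]; norm_num
  have h3 : (144 : ℝ) ≤ Real.exp (5 / 2) ^ 2 := by
    rw [h2]
    calc (144 : ℝ) ≤ 2.7182818283 ^ 5 := by norm_num
      _ ≤ Real.exp 1 ^ 5 := by gcongr
  have h4 : 0 < Real.exp (5 / 2) := Real.exp_pos _
  by_contra hcon
  push Not at hcon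
  nlinarith

/-- a logarithmically controlled factor on `[0, L]` -/
structure Fac3 (E E1 E2 : ℝ → ℝ) (h : ℝ) : Prop where
  d1 : ∀ x, 0 ≤ x → x ≤ Lc → HasDerivAt E (E1 x) x
  d2 : ∀ x, 0 ≤ x → x ≤ Lc → HasDerivAt E1 (E2 x) x
  one_le : ∀ x, 0 ≤ x → x ≤ Lc → 1 ≤ E x
  nonneg : ∀ x, 0 ≤ x → x ≤ Lc → 0 ≤ E1 x
  le : ∀ x, 0 ≤ x → x ≤ Lc → E1 x ≤ h * E x
  conv : ∀ x, 0 ≤ x → x ≤ Lc → -E1 x ≤ E2 x
  zero : E 0 = 1

lemma Fac3.kappa {E E1 E2 : ℝ → ℝ} {h : ℝ} (hF : Fac3 E E1 E2 h) {x : ℝ}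
    (hx : 0 < x) (hxL : x ≤ Lc) :
    ∃ d : ℝ, HasDerivAt (fun x => x ^ 2 * (E1 x / E x)) d x ∧ -(h * (1 / 2 + 5 / 2 * h)) * x ≤ d := by
  have hE := hF.one_le x hx.le hxL
  have hE0 : 0 < E x := by linarith
  refine ⟨2 * x * (E1 x / E x) + x ^ 2 * ((E2 x * E x - E1 x * E1 x) / E x ^ 2), ?_, ?_⟩
  · have h1 := (hF.d2 x hx.le hxL).div (hF.d1 x hx.le hxL) hE0.ne'
    have h2 := hasDerivAt_pow 2 x
    exact (h2.mul h1).congr_deriv (by simp)
  · obtain ⟨u, hu⟩ : ∃ u, u = E1 x / E x := ⟨_, rfl⟩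
    have hu0 : 0 ≤ u := by rw [hu]; exact div_nonneg (hF.nonneg x hx.le hxL) hE0.le
    have huh : u ≤ h := by rw [hu, div_le_iff₀ hE0]; exact hF.le x hx.le hxL
    have hh0 : 0 ≤ h := hu0.trans huh
    have e1 : E1 x = u * E x := by rw [hu]; field_simp
    have hw : -u ≤ E2 x / E x := by
      rw [le_div_iff₀ hE0, neg_mul, ← e1]; exact hF.conv x hx.le hxL
    have e2 : (E2 x * E x - E1 x * E1 x) / E x ^ 2 = E2 x / E x - u ^ 2 := by
      rw [e1]; field_simp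
    rw [e2, ← hu]
    have hL := Lc_le
    have hx2 : x ≤ 5 / 2 := hxL.trans hL
    have h1 : x ^ 2 * (-u - u ^ 2) ≤ x ^ 2 * (E2 x / E x - u ^ 2) := by
      apply mul_le_mul_of_nonneg_left _ (by positivity)
      linarith
    have h2 : -(h * (1 / 2 + 5 / 2 * h)) * x ≤ 2 * x * u + x ^ 2 * (-u - u ^ 2) := by
      have h3 : x * (u + u ^ 2) ≤ 5 / 2 * (u + u ^ 2) := by
        apply mul_le_mul_of_nonneg_right hx2 (by positivity)
      have h4 : u * (1 / 2 + 5 / 2 * u) ≤ h * (1 / 2 + 5 / 2 * h) := by gcongr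
      have h5 : -(h * (1 / 2 + 5 / 2 * h)) ≤ 2 * u - x * (u + u ^ 2) := by nlinarith
      have := mul_le_mul_of_nonneg_right h5 hx.le
      calc _ ≤ (2 * u - x * (u + u ^ 2)) * x := this
        _ = _ := by ring
    linarith

lemma Fac3.growth {E E1 E2 : ℝ → ℝ} {h : ℝ} (hF : Fac3 E E1 E2 h) :
    E Lc ≤ Real.exp (h * Lc) := by
  have hd : ∀ x, 0 ≤ x → x ≤ Lc →
      HasDerivAt (fun x => E x * Real.exp (-(h * x))) ((E1 x - h * E x) * Real.exp (-(h * x))) x := by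
    intro x hx hxL
    have h1 := hF.d1 x hx hxL
    have h2 : HasDerivAt (fun x => Real.exp (-(h * x))) (Real.exp (-(h * x)) * (-(h * 1))) x := by
      exact (((hasDerivAt_id x).const_mul h).neg).exp
    have h3 := h1.mul h2
    have e : (E1 x - h * E x) * Real.exp (-(h * x)) =
        E1 x * Real.exp (-(h * x)) + E x * (Real.exp (-(h * x)) * (-(h * 1))) := by ring
    rw [e]; exact h3
  have hanti : AntitoneOn (fun x => E x * Real.exp (-(h * x))) (Icc 0 Lc) := by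
    apply antitoneOn_of_deriv_nonpos (convex_Icc 0 Lc)
    · intro x hx
      exact (hd x hx.1 hx.2).continuousAt.continuousWithinAt
    · intro x hx
      rw [interior_Icc] at hx
      exact (hd x hx.1.le hx.2.le).differentiableAt.differentiableWithinAt
    · intro x hx
      rw [interior_Icc] at hx
      rw [(hd x hx.1.le hx.2.le).deriv]
      have h1 := hF.le x hx.1.le hx.2.le
      have h2 := Real.exp_pos (-(h * x))
      have h3 : E1 x - h * E x ≤ 0 := by linarith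
      exact mul_nonpos_of_nonpos_of_nonneg h3 h2.le
  have h1 := hanti (left_mem_Icc.mpr Lc_pos.le) (right_mem_Icc.mpr Lc_pos.le) Lc_pos.le
  simp only [mul_zero, neg_zero, Real.exp_zero, mul_one, hF.zero] at h1
  have h2 : Real.exp (-(h * Lc)) * Real.exp (h * Lc) = 1 := by
    rw [← Real.exp_add]; simp
  have h3 := Real.exp_pos (h * Lc)
  calc E Lc = E Lc * Real.exp (-(h * Lc)) * Real.exp (h * Lc) := by rw [mul_assoc, h2, mul_one]
    _ ≤ 1 * Real.exp (h * Lc) := by gcongr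
    _ = _ := one_mul _

/-! ### Factors from power series -/

noncomputable def F0 (c : ℕ → ℝ) (x : ℝ) : ℝ := PS c (1 - Real.exp (-x))
noncomputable def F1 (c : ℕ → ℝ) (x : ℝ) : ℝ := Real.exp (-x) * PS (der c) (1 - Real.exp (-x))
noncomputable def F2 (c : ℕ → ℝ) (x : ℝ) : ℝ :=
  Real.exp (-x) ^ 2 * PS (der (der c)) (1 - Real.exp (-x)) -
    Real.exp (-x) * PS (der c) (1 - Real.exp (-x))

lemma v_range {x : ℝ} (hx : 0 ≤ x) (hxL : x ≤ Lc) :
    0 ≤ 1 - Real.exp (-x) ∧ 1 - Real.exp (-x) ≤ 11 / 12 ∧ |1 - Real.exp (-x)| < 24 / 25 := by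
  have h1 : Real.exp (-x) ≤ 1 := by rw [Real.exp_le_one_iff]; linarith
  have h2 : 1 / 12 ≤ Real.exp (-x) := by rw [← exp_neg_Lc]; apply Real.exp_le_exp.mpr; linarith
  refine ⟨by linarith, by linarith, ?_⟩
  rw [abs_lt]; constructor <;> linarith

lemma hasDerivAt_v (x : ℝ) :
    HasDerivAt (fun x : ℝ => 1 - Real.exp (-x)) (Real.exp (-x)) x := by
  have h1 : HasDerivAt (fun x : ℝ => Real.exp (-x)) (Real.exp (-x) * (-1)) x :=
    (hasDerivAt_neg x).exp
  have h2 := h1.const_sub 1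
  simpa using h2

lemma hasDerivAt_X (x : ℝ) :
    HasDerivAt (fun x : ℝ => Real.exp (-x)) (-Real.exp (-x)) x := by
  have h1 : HasDerivAt (fun x : ℝ => Real.exp (-x)) (Real.exp (-x) * (-1)) x :=
    (hasDerivAt_neg x).exp
  simpa using h1

lemma F0_deriv {c : ℕ → ℝ} (hg : Good c) {x : ℝ} (hx : 0 ≤ x) (hxL : x ≤ Lc) :
    HasDerivAt (F0 c) (F1 c x) x := by
  have h := v_range hx hxL
  have h1 := (PS_hasDerivAt hg h.2.2).comp x (hasDerivAt_v x)
  unfold F1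
  rw [mul_comm]
  exact h1

lemma F1_deriv {c : ℕ → ℝ} (hg : Good c) {x : ℝ} (hx : 0 ≤ x) (hxL : x ≤ Lc) :
    HasDerivAt (F1 c) (F2 c x) x := by
  have h := v_range hx hxL
  have h1 := (PS_hasDerivAt hg.der h.2.2).comp x (hasDerivAt_v x)
  have h2 := (hasDerivAt_X x).mul h1
  unfold F2
  have e : Real.exp (-x) ^ 2 * PS (der (der c)) (1 - Real.exp (-x)) -
      Real.exp (-x) * PS (der c) (1 - Real.exp (-x)) =
      -Real.exp (-x) * (PS (der c) ∘ fun x => 1 - Real.exp (-x)) x +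
        Real.exp (-x) * (PS (der (der c)) (1 - Real.exp (-x)) * Real.exp (-x)) := by
    simp only [Function.comp]; ring
  rw [e]
  exact h2

lemma fac3_of_series {c : ℕ → ℝ} (h0 : c 0 = 1) (hpos : ∀ n, 0 < c n) (hg : Good c)
    {r h h' : ℝ} (hr0 : 0 < r) (hr : r ≤ 1.00087)
    (hup : ∀ n : ℕ, ((n : ℝ) + 1) * c (n + 1) ≤ r * (((n : ℝ) + h) * c n))
    (hh' : 1.0097 * (r * h) ≤ h') : Fac3 (F0 c) (F1 c) (F2 c) h' := by
  have hder : ∀ n, 0 ≤ der c n := fun n => mul_nonneg (by positivity) (hpos _).le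
  have hder2 : ∀ n, 0 ≤ der (der c) n := fun n => mul_nonneg (by positivity) (hder _)
  refine ⟨fun x hx hxL => F0_deriv hg hx hxL, fun x hx hxL => F1_deriv hg hx hxL,
    fun x hx hxL => ?_, fun x hx hxL => ?_, fun x hx hxL => ?_, fun x hx hxL => ?_, ?_⟩
  · have h := v_range hx hxL
    rw [← h0]
    exact PS_ge_zero_coeff hg (fun n => (hpos n).le) h.1 h.2.2
  · have h := v_range hx hxL
    exact mul_nonneg (Real.exp_pos _).le (PS_nonneg hder h.1)
  · obtain ⟨v0, v1, v2⟩ := v_range hx hxL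
    unfold F1 F0
    obtain ⟨v, hv⟩ : ∃ v, v = 1 - Real.exp (-x) := ⟨_, rfl⟩
    have hX : Real.exp (-x) = 1 - v := by rw [hv]; ring
    rw [← hv] at v0 v1 v2 ⊢
    rw [hX]
    have hb := PS_log_deriv_bound hg hup v0 v2
    have hw : 0 ≤ PS (der c) v := PS_nonneg hder v0
    have hw0 : 0 ≤ PS c v := PS_nonneg (fun n => (hpos n).le) v0
    have h1 : 1 - v ≤ 1.0097 * (1 - r * v) := by nlinarith
    calc (1 - v) * PS (der c) v ≤ 1.0097 * (1 - r * v) * PS (der c) v := by gcongr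
      _ = 1.0097 * ((1 - r * v) * PS (der c) v) := by ring
      _ ≤ 1.0097 * (r * h * PS c v) := by gcongr
      _ = (1.0097 * (r * h)) * PS c v := by ring
      _ ≤ h' * PS c v := by gcongr
  · have h := v_range hx hxL
    unfold F1 F2
    have : 0 ≤ Real.exp (-x) ^ 2 * PS (der (der c)) (1 - Real.exp (-x)) :=
      mul_nonneg (by positivity) (PS_nonneg hder2 h.1)
    linarith
  · unfold F0 PS
    simp only [neg_zero, Real.exp_zero, sub_self]
    rw [tsum_eq_single 0]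
    · simp [h0]
    · intro n hn
      simp [hn]

end Pool.Agent.MP5ad
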