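import Mathlib
import Pool.Agent.Lib.MP_5ad3e6_co.Factor
import Pool.Agent.Lib.MP_5ad3e6_co.Compare

set_option autoImplicit false

/-!
# Generic estimates for the moments
-/

open Set MeasureTheory

namespace Pool.Agent.MP5ad

/-- moments of `f` on the cut interval -/
noncomputable def mom (f : ℝ → ℝ) (n : ℕ) : ℝ :=
  ∫ x in (0 : ℝ)..Lc, Real.exp (-(((n : ℝ) + 1) * x)) * f x

lemma exp_nLc (n : ℕ) : Real.exp (-((n : ℝ) * Lc)) = (1 / 12) ^ n := by
  have : -((n : ℝ) * Lc) = n * (-Lc) := by ring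
  rw [this, Real.exp_nat_mul, exp_neg_Lc]

lemma mom_integrable {f : ℝ → ℝ} (hc : ContinuousOn f (Icc 0 Lc)) (a : ℝ) :
    IntervalIntegrable (fun x => Real.exp (-(a * x)) * f x) volume 0 Lc := by
  apply ContinuousOn.intervalIntegrable
  rw [uIcc_of_le Lc_pos.le]
  exact (by fun_prop : Continuous fun x => Real.exp (-(a * x))).continuousOn.mul hc

lemma mom_lower {f : ℝ → ℝ} (hc : ContinuousOn f (Icc 0 Lc))
    (hf : ∀ x, 0 ≤ x → x ≤ Lc → 1 - Real.exp (-x) ≤ f x) (n : ℕ) (hn : 1 ≤ n) :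
    9 / 10 / (((n : ℝ) + 1) * (n + 2)) ≤ mom f n := by
  have hn1 : (1 : ℝ) ≤ n := by exact_mod_cast hn
  set G : ℝ → ℝ := fun x => -(Real.exp (-(((n : ℝ) + 1) * x)) / (n + 1)) +
    Real.exp (-(((n : ℝ) + 2) * x)) / (n + 2) with hG
  have hd : ∀ a : ℝ, 0 < a → ∀ x : ℝ,
      HasDerivAt (fun x => Real.exp (-(a * x)) / a) (-Real.exp (-(a * x))) x := by
    intro a ha x
    have h2 : HasDerivAt (fun x => Real.exp (-(a * x))) (Real.exp (-(a * x)) * (-(a * 1))) x :=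
      (((hasDerivAt_id x).const_mul a).neg).exp
    refine (h2.div_const a).congr_deriv ?_
    field_simp
  have hGd : ∀ x ∈ uIcc 0 Lc, HasDerivAt G
      (Real.exp (-(((n : ℝ) + 1) * x)) * (1 - Real.exp (-x))) x := by
    intro x _
    have h1 := (hd ((n : ℝ) + 1) (by positivity) x).neg
    have h2 := hd ((n : ℝ) + 2) (by positivity) x
    refine (h1.add h2).congr_deriv ?_
    have : Real.exp (-(((n : ℝ) + 2) * x)) = Real.exp (-(((n : ℝ) + 1) * x)) * Real.exp (-x) := by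
      rw [← Real.exp_add]; congr 1; ring
    rw [this]; ring
  have hcont : ContinuousOn (fun x : ℝ => 1 - Real.exp (-x)) (Icc 0 Lc) := by fun_prop
  have hint := mom_integrable hcont ((n : ℝ) + 1)
  have h1 := intervalIntegral.integral_eq_sub_of_hasDerivAt hGd hint
  have h2 : (∫ x in (0 : ℝ)..Lc, Real.exp (-(((n : ℝ) + 1) * x)) * (1 - Real.exp (-x))) ≤ mom f n := by
    unfold mom
    apply intervalIntegral.integral_mono_on Lc_pos.le hint (mom_integrable hc _)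
    intro x hx
    have := hf x hx.1 hx.2
    gcongr
  refine le_trans ?_ h2
  rw [h1]
  have e0 : G 0 = -(1 / ((n : ℝ) + 1)) + 1 / (n + 2) := by simp [hG]
  have eL : -((1 / 12) ^ (n + 1) / ((n : ℝ) + 1)) ≤ G Lc := by
    have a1 := exp_nLc (n + 1)
    push_cast at a1
    simp only [hG]
    rw [a1]
    have : 0 ≤ Real.exp (-(((n : ℝ) + 2) * Lc)) / (n + 2) := by positivity
    linarith
  rw [e0]
  have hp : (1 / 12 : ℝ) ^ (n + 1) * (n + 2) ≤ 1 / 10 := by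
    have : ∀ m : ℕ, 1 ≤ m → (1 / 12 : ℝ) ^ (m + 1) * (m + 2) ≤ 1 / 10 := by
      intro m hm
      induction m, hm using Nat.le_induction with
      | base => norm_num
      | succ m hm ih =>
        push_cast
        have hm0 : (0 : ℝ) ≤ m := Nat.cast_nonneg m
        have hp : (0 : ℝ) < (1 / 12) ^ (m + 1) := by positivity
        calc (1 / 12 : ℝ) ^ (m + 1 + 1) * (m + 1 + 2) = (1 / 12) ^ (m + 1) * ((m + 3) / 12) := by ring
          _ ≤ (1 / 12) ^ (m + 1) * (m + 2) := by gcongr; linarith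
          _ ≤ _ := ih
    exact this n hn
  have h3 : 9 / 10 / (((n : ℝ) + 1) * (n + 2)) ≤
      -((1 / 12) ^ (n + 1) / ((n : ℝ) + 1)) - (-(1 / ((n : ℝ) + 1)) + 1 / (n + 2)) := by
    rw [← sub_nonneg]
    have : -((1 / 12) ^ (n + 1) / ((n : ℝ) + 1)) - (-(1 / ((n : ℝ) + 1)) + 1 / (n + 2)) -
        9 / 10 / (((n : ℝ) + 1) * (n + 2)) =
        (1 / 10 - (1 / 12) ^ (n + 1) * (n + 2)) / (((n : ℝ) + 1) * (n + 2)) := by
      field_simp; ring
    rw [this]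
    apply div_nonneg (by linarith) (by positivity)
  linarith

lemma y_step {P Q N a0 a1 a2 s0 s1 s2 α δ ρ1 ρ2 : ℝ} (hP : 0 < P) (ha0 : 0 < a0) (ha1 : 0 < a1)
    (hs1 : 0 < s1) (hs2 : 0 < s2) (hα : 0 < α) (hN : |N| ≤ P)
    (hρ1 : a0 ≤ ρ1 * a1) (hρ2 : s1 ≤ ρ2 * (α * s2))
    (ha : P * a2 = Q * a1 + N * a0) (hs : α ^ 2 * P * s2 = α * Q * s1 + N * s0 + δ) :
    |a2 * s1 / (α * (a1 * s2)) - 1| ≤
      ρ1 * ρ2 * |a1 * s0 / (α * (a0 * s1)) - 1| + |δ| / (α ^ 2 * P * s2) := by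
  have e : a2 * s1 / (α * (a1 * s2)) - 1 =
      (N / P) * ((a0 / a1) * (s1 / (α * s2))) * (-(a1 * s0 / (α * (a0 * s1)) - 1)) -
        δ / (α ^ 2 * P * s2) := by
    have h1 : a2 = (Q * a1 + N * a0) / P := by rw [← ha]; field_simp
    have h2 : δ = α ^ 2 * P * s2 - α * Q * s1 - N * s0 := by rw [hs]; ring
    rw [h1, h2]
    field_simp
    ring
  rw [e]
  have hr1 : a0 / a1 ≤ ρ1 := by rw [div_le_iff₀ ha1]; exact hρ1
  have hr2 : s1 / (α * s2) ≤ ρ2 := by rw [div_le_iff₀ (by positivity)]; exact hρ2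
  have hr10 : 0 < a0 / a1 := by positivity
  have hr20 : 0 < s1 / (α * s2) := by positivity
  have hNP : |N / P| ≤ 1 := by
    rw [abs_div, abs_of_pos hP, div_le_one hP]; exact hN
  calc _ ≤ |(N / P) * ((a0 / a1) * (s1 / (α * s2))) * (-(a1 * s0 / (α * (a0 * s1)) - 1))| +
        |δ / (α ^ 2 * P * s2)| := abs_sub _ _
    _ = |N / P| * ((a0 / a1) * (s1 / (α * s2))) * |a1 * s0 / (α * (a0 * s1)) - 1| +
        |δ| / (α ^ 2 * P * s2) := by
        rw [abs_mul, abs_mul, abs_neg, abs_of_pos (mul_pos hr10 hr20), abs_div δ,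
          abs_of_pos (show 0 < α ^ 2 * P * s2 by positivity)]
    _ ≤ 1 * (ρ1 * ρ2) * |a1 * s0 / (α * (a0 * s1)) - 1| + |δ| / (α ^ 2 * P * s2) := by
        have hρ10 : 0 ≤ ρ1 := hr10.le.trans hr1
        gcongr
    _ = _ := by ring

lemma pow_bound1 (n : ℕ) (hn : 10 ≤ n) : (5 / 6 : ℝ) ^ n * ((n + 1) * (n + 2)) ≤ 27 := by
  induction n, hn using Nat.le_induction with
  | base => norm_num
  | succ n hn ih =>
    push_cast
    have hn' : (10 : ℝ) ≤ n := by exact_mod_cast hn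
    have hp : (0 : ℝ) < (5 / 6) ^ n := by positivity
    calc (5 / 6 : ℝ) ^ (n + 1) * ((n + 1 + 1) * (n + 1 + 2))
        = (5 / 6) ^ n * (5 / 6 * ((n + 2) * (n + 3))) := by ring
      _ ≤ (5 / 6) ^ n * ((n + 1) * (n + 2)) := by
          have : 5 / 6 * (((n : ℝ) + 2) * (n + 3)) ≤ (n + 1) * (n + 2) := by nlinarith
          exact mul_le_mul_of_nonneg_left this hp.le
      _ ≤ _ := ih

lemma tail_bound {f : ℝ → ℝ} (hc : ContinuousOn f (Icc 0 Lc))
    (hf : ∀ x, 0 ≤ x → x ≤ Lc → 1 - Real.exp (-x) ≤ f x) (hfL : f Lc ≤ 12) (n : ℕ)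
    (hn : 10 ≤ n) :
    f Lc * Real.exp (-(((n : ℝ) + 1) * Lc)) ≤ 30 * (1 / 10) ^ n * mom f n := by
  have h1 := mom_lower hc hf n (by omega)
  have h2 := pow_bound1 n hn
  have a1 := exp_nLc (n + 1)
  push_cast at a1
  rw [a1]
  have h12 : (1 / 12 : ℝ) ^ n = (5 / 6) ^ n * (1 / 10) ^ n := by rw [← mul_pow]; norm_num
  have h10 : (0 : ℝ) < (1 / 10) ^ n := by positivity
  calc f Lc * (1 / 12) ^ (n + 1) ≤ 12 * (1 / 12) ^ (n + 1) := by gcongr
    _ = (1 / 12) ^ n := by rw [pow_succ]; ring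
    _ = (5 / 6) ^ n * (1 / 10) ^ n := h12
    _ ≤ 27 / ((n + 1) * (n + 2)) * (1 / 10) ^ n := by
        gcongr
        rw [le_div_iff₀ (by positivity)]; exact h2
    _ = 30 * (1 / 10) ^ n * (9 / 10 / (((n : ℝ) + 1) * (n + 2))) := by ring
    _ ≤ _ := by gcongr

lemma pow_bound2 (n : ℕ) : (5 / 6 : ℝ) ^ (n + 1) * (n + 6) ≤ 5 := by
  induction n with
  | zero => norm_num
  | succ n ih =>
    push_cast
    have hn' : (0 : ℝ) ≤ n := Nat.cast_nonneg n
    have hp : (0 : ℝ) < (5 / 6) ^ (n + 1) := by positivity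
    calc (5 / 6 : ℝ) ^ (n + 1 + 1) * (n + 1 + 6)
        = (5 / 6) ^ (n + 1) * (5 / 6 * (n + 7)) := by ring
      _ ≤ (5 / 6) ^ (n + 1) * (n + 6) := by
          gcongr
          linarith
      _ ≤ _ := ih

end Pool.Agent.MP5ad
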