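import Mathlib
import Pool.Agent.Lib.MP_5ad3e6_co.Moment

set_option autoImplicit false

/-!
# The first Apéry sequence
-/

open Set MeasureTheory

namespace Pool.Agent.MP5ad

lemma odeE {v : ℝ} (hv : |v| < 24 / 25) :
    TT * (v * PS (der (der cE)) v) - (TT + αA) * (v * (v * PS (der (der cE)) v)) +
      αA * (v * (v * (v * PS (der (der cE)) v))) + 1 / 2 * TT * PS (der cE) v -
      (3 / 2 * TT + αA) * (v * PS (der cE) v) + 2 * αA * (v * (v * PS (der cE) v)) -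
      ((αA - 10) / 4) * PS cE v + αA / 4 * (v * PS cE v) = 0 := by
  have g := cE_good
  have g1 := g.der
  have g2 := g1.der
  have s2 := g2.sh.hasSum hv
  have s22 := g2.sh.sh.hasSum hv
  have s222 := g2.sh.sh.sh.hasSum hv
  have s1 := g1.hasSum hv
  have s11 := g1.sh.hasSum hv
  have s111 := g1.sh.sh.hasSum hv
  have s0 := g.hasSum hv
  have s00 := g.sh.hasSum hv
  rw [PS_sh g2.sh.sh hv, PS_sh g2.sh hv, PS_sh g2 hv] at s222
  rw [PS_sh g2.sh hv, PS_sh g2 hv] at s22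
  rw [PS_sh g2 hv] at s2
  rw [PS_sh g1.sh hv, PS_sh g1 hv] at s111
  rw [PS_sh g1 hv] at s11
  rw [PS_sh g hv] at s00
  have hsum := ((((((((s2.mul_left TT).sub (s22.mul_left (TT + αA))).add
    (s222.mul_left αA)).add (s1.mul_left (1 / 2 * TT))).sub (s11.mul_left (3 / 2 * TT + αA))).add
    (s111.mul_left (2 * αA))).sub (s0.mul_left ((αA - 10) / 4))).add (s00.mul_left (αA / 4)))
  refine hsum.unique ?_
  convert hasSum_zero using 1
  funext n
  rcases n with _ | _ | _ | n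
  · have h := cE_one
    unfold PE QE at h
    simp [sh, der] at h ⊢
    linear_combination h
  · have h := cE_rec 0
    unfold PE QE NE at h
    simp [sh, der] at h ⊢
    linear_combination v * h
  · have h := cE_rec 1
    unfold PE QE NE at h
    simp [sh, der] at h ⊢
    linear_combination v ^ 2 * h
  · have h := cE_rec (n + 2)
    unfold PE QE NE at h
    simp [sh, der] at h ⊢
    linear_combination v ^ (n + 3) * h

lemma odeO {v : ℝ} (hv : |v| < 24 / 25) :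
    TT * (v * PS (der (der cO)) v) - (TT + αA) * (v * (v * PS (der (der cO)) v)) +
      αA * (v * (v * (v * PS (der (der cO)) v))) + 3 / 2 * TT * PS (der cO) v -
      (5 / 2 * TT + 2 * αA) * (v * PS (der cO) v) + 3 * αA * (v * (v * PS (der cO) v)) -
      ((αA + TT) / 2 - 5 / 2) * PS cO v + αA * (v * PS cO v) = 0 := by
  have g := cO_good
  have g1 := g.der
  have g2 := g1.der
  have s2 := g2.sh.hasSum hv
  have s22 := g2.sh.sh.hasSum hv
  have s222 := g2.sh.sh.sh.hasSum hv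
  have s1 := g1.hasSum hv
  have s11 := g1.sh.hasSum hv
  have s111 := g1.sh.sh.hasSum hv
  have s0 := g.hasSum hv
  have s00 := g.sh.hasSum hv
  rw [PS_sh g2.sh.sh hv, PS_sh g2.sh hv, PS_sh g2 hv] at s222
  rw [PS_sh g2.sh hv, PS_sh g2 hv] at s22
  rw [PS_sh g2 hv] at s2
  rw [PS_sh g1.sh hv, PS_sh g1 hv] at s111
  rw [PS_sh g1 hv] at s11
  rw [PS_sh g hv] at s00
  have hsum := ((((((((s2.mul_left TT).sub (s22.mul_left (TT + αA))).add
    (s222.mul_left αA)).add (s1.mul_left (3 / 2 * TT))).sub (s11.mul_left (5 / 2 * TT + 2 * αA))).add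
    (s111.mul_left (3 * αA))).sub (s0.mul_left ((αA + TT) / 2 - 5 / 2))).add (s00.mul_left αA))
  refine hsum.unique ?_
  convert hasSum_zero using 1
  funext n
  rcases n with _ | _ | _ | n
  · have h := cO_one
    unfold PO QO at h
    simp [sh, der] at h ⊢
    linear_combination h
  · have h := cO_rec 0
    unfold PO QO NO at h
    simp [sh, der] at h ⊢
    linear_combination v * h
  · have h := cO_rec 1
    unfold PO QO NO at h
    simp [sh, der] at h ⊢
    linear_combination v ^ 2 * h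
  · have h := cO_rec (n + 2)
    unfold PO QO NO at h
    simp [sh, der] at h ⊢
    linear_combination v ^ (n + 3) * h

lemma facE : Fac3 (F0 cE) (F1 cE) (F2 cE) (365 / 1000) :=
  fac3_of_series cE_zero cE_pos cE_good (r := rA) (h := 36 / 100) rA_pos rA_le cE_up
    (by have := rA_le; linarith)

lemma facO : Fac3 (F0 cO) (F1 cO) (F2 cO) (63 / 100) :=
  fac3_of_series cO_zero cO_pos cO_good (r := rA) (h := 62 / 100) rA_pos rA_le cO_up
    (by have := rA_le; linarith)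

lemma odeE_xi {x : ℝ} (hx : 0 ≤ x) (hxL : x ≤ Lc) {X : ℝ} (hX : X = Real.exp (-x)) :
    αA * (1 - X) * (TT - αA * (1 - X)) * F2 cE x +
      1 / 2 * (αA * X * (TT - 2 * αA * (1 - X))) * F1 cE x =
      1 / 4 * (αA * X) * (αA * X - 10) * F0 cE x := by
  obtain ⟨_, _, hv⟩ := v_range hx hxL
  have h := odeE hv
  unfold F2 F1 F0
  rw [← hX] at h ⊢
  generalize PS (der (der cE)) (1 - X) = w2 at *
  generalize PS (der cE) (1 - X) = w1 at *
  generalize PS cE (1 - X) = w0 at *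
  linear_combination (αA * X) * h

lemma odeO_xi {x : ℝ} (hx : 0 ≤ x) (hxL : x ≤ Lc) {X : ℝ} (hX : X = Real.exp (-x)) :
    αA * (1 - X) * (TT - αA * (1 - X)) * (F2 cO x + F1 cO x) +
      αA * (3 / 2 * TT - 5 / 2 * TT * (1 - X) - 2 * αA * (1 - X) + 3 * αA * (1 - X) ^ 2) * F1 cO x +
      αA * X * (αA * (1 - X) - (αA + TT) / 2 + 5 / 2) * F0 cO x = 0 := by
  obtain ⟨_, _, hv⟩ := v_range hx hxL
  have h := odeO hv
  unfold F2 F1 F0
  rw [← hX] at h ⊢
  generalize PS (der (der cO)) (1 - X) = w2 at *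
  generalize PS (der cO) (1 - X) = w1 at *
  generalize PS cO (1 - X) = w0 at *
  linear_combination (αA * X) * h

/-- `√v` -/
noncomputable def qv (x : ℝ) : ℝ := Real.sqrt (1 - Real.exp (-x))

lemma v_pos {x : ℝ} (hx : 0 < x) : 0 < 1 - Real.exp (-x) := by
  have : Real.exp (-x) < 1 := by rw [Real.exp_lt_one_iff]; linarith
  linarith

lemma qv_pos {x : ℝ} (hx : 0 < x) : 0 < qv x := Real.sqrt_pos.mpr (v_pos hx)

lemma qv_sq {x : ℝ} (hx : 0 ≤ x) : qv x ^ 2 = 1 - Real.exp (-x) := by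
  apply Real.sq_sqrt
  have : Real.exp (-x) ≤ 1 := by rw [Real.exp_le_one_iff]; linarith
  linarith

lemma qv_le (x : ℝ) : qv x ≤ 1 := by
  unfold qv
  have := Real.exp_pos (-x)
  rw [Real.sqrt_le_left (by norm_num)]
  linarith

lemma qv_deriv {x : ℝ} (hx : 0 < x) :
    HasDerivAt qv (Real.exp (-x) / (2 * qv x)) x := by
  have h := (hasDerivAt_v x).sqrt (v_pos hx).ne'
  exact h

lemma qv_cont : Continuous qv := by
  unfold qv; fun_prop

/-- the weight of the first sequence -/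
noncomputable def WA (x : ℝ) : ℝ := qv x * (F0 cE x * F0 cO x)

noncomputable def WA1 (x : ℝ) : ℝ :=
  Real.exp (-x) / (2 * qv x) * (F0 cE x * F0 cO x) +
    qv x * (F1 cE x * F0 cO x + F0 cE x * F1 cO x)

lemma WA_deriv {x : ℝ} (hx : 0 < x) (hxL : x ≤ Lc) : HasDerivAt WA (WA1 x) x :=
  (qv_deriv hx).mul ((facE.d1 x hx.le hxL).mul (facO.d1 x hx.le hxL))

lemma WA_cont : ContinuousOn WA (Icc 0 Lc) := by
  apply ContinuousOn.mul qv_cont.continuousOn
  intro x hx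
  exact ((facE.d1 x hx.1 hx.2).continuousAt.mul
    (facO.d1 x hx.1 hx.2).continuousAt).continuousWithinAt

lemma WA_ge (x : ℝ) (hx : 0 ≤ x) (hxL : x ≤ Lc) : 1 - Real.exp (-x) ≤ WA x := by
  have h1 := facE.one_le x hx hxL
  have h2 := facO.one_le x hx hxL
  have h3 := qv_sq hx
  have h4 := qv_le x
  have h5 : 0 ≤ qv x := Real.sqrt_nonneg _
  have h6 : 1 ≤ F0 cE x * F0 cO x := by nlinarith
  unfold WA
  rw [← h3]
  nlinarith

lemma WA_pos {x : ℝ} (hx : 0 < x) (hxL : x ≤ Lc) : 0 < WA x := by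
  have := WA_ge x hx.le hxL
  have := v_pos hx
  linarith

lemma WA_ratio {x : ℝ} (hx : 0 < x) (hxL : x ≤ Lc) :
    WA1 x / WA x = Real.exp (-x) / (2 * (1 - Real.exp (-x))) + F1 cE x / F0 cE x +
      F1 cO x / F0 cO x := by
  have h1 := facE.one_le x hx.le hxL
  have h2 := facO.one_le x hx.le hxL
  have h3 := qv_sq hx.le
  have h4 := qv_pos hx
  have hE : 0 < F0 cE x := by linarith
  have hO : 0 < F0 cO x := by linarith
  rw [← h3]
  unfold WA WA1
  field_simp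
  ring

lemma WA_L : WA Lc ≤ 12 := by
  have h1 := facE.growth
  have h2 := facO.growth
  have e1 := facE.one_le Lc Lc_pos.le le_rfl
  have e2 := facO.one_le Lc Lc_pos.le le_rfl
  have h4 := qv_le Lc
  have h5 : 0 ≤ qv Lc := Real.sqrt_nonneg _
  unfold WA
  calc qv Lc * (F0 cE Lc * F0 cO Lc) ≤ 1 * (Real.exp (365 / 1000 * Lc) * Real.exp (63 / 100 * Lc)) := by
        gcongr
    _ = Real.exp (995 / 1000 * Lc) := by rw [one_mul, ← Real.exp_add]; congr 1; ring
    _ ≤ Real.exp Lc := by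
        apply Real.exp_le_exp.mpr
        have := Lc_pos
        linarith
    _ = 12 := exp_Lc

/-- elementary inequality for the `√v` factor -/
lemma psi_nonneg {x : ℝ} (hx : 0 ≤ x) :
    x ≤ 2 * (1 - Real.exp (-x)) + 1 / 5 * (Real.exp x - 2 + Real.exp (-x)) := by
  set ψ : ℝ → ℝ := fun x => 2 * (1 - Real.exp (-x)) + 1 / 5 * (Real.exp x - 2 + Real.exp (-x)) - x
    with hψ
  have hd : ∀ x, HasDerivAt ψ (2 * Real.exp (-x) + 1 / 5 * (Real.exp x + -Real.exp (-x)) - 1) x := by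
    intro x
    have h1 := (hasDerivAt_v x).const_mul 2
    have h2 := (((Real.hasDerivAt_exp x).sub_const 2).add (hasDerivAt_X x)).const_mul (1 / 5)
    exact (h1.add h2).sub (hasDerivAt_id x)
  have hmono : MonotoneOn ψ (Ici 0) := by
    apply monotoneOn_of_deriv_nonneg (convex_Ici 0)
    · intro x _
      exact (hd x).continuousAt.continuousWithinAt
    · intro x _
      exact (hd x).differentiableAt.differentiableWithinAt
    · intro x _
      rw [(hd x).deriv]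
      obtain ⟨X, hX⟩ : ∃ X, X = Real.exp (-x) := ⟨_, rfl⟩
      have hX0 : 0 < X := by rw [hX]; exact Real.exp_pos _
      have hXi : Real.exp x = 1 / X := by rw [hX, Real.exp_neg]; field_simp
      rw [← hX, hXi]
      have : 2 * X + 1 / 5 * (1 / X + -X) - 1 = (9 / 5 * X ^ 2 - X + 1 / 5) / X := by
        field_simp; ring
      rw [this]
      apply div_nonneg _ hX0.le
      nlinarith [sq_nonneg (X - 5 / 18)]
  have h := hmono (mem_Ici.mpr le_rfl) (mem_Ici.mpr hx) hx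
  have h0 : ψ 0 = 0 := by simp [hψ]; norm_num
  rw [h0] at h
  simp only [hψ] at h
  linarith

/-- the regular part of the boundary function -/
noncomputable def ThA (m : ℝ) (x : ℝ) : ℝ :=
  αA * (TT - αA * (1 - Real.exp (-x))) *
      (Real.exp (-x) * F0 cO x + 2 * (1 - Real.exp (-x)) * F1 cO x) *
      (F1 cE x + m / 2 * F0 cE x) +
    m * (αA * (1 - Real.exp (-x)) * (TT - αA * (1 - Real.exp (-x)))) * F1 cE x * F0 cO x +
    (m ^ 2 * (αA * (1 - Real.exp (-x)) * (TT - αA * (1 - Real.exp (-x)))) -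
      m / 2 * (αA * Real.exp (-x) * (TT - 2 * αA * (1 - Real.exp (-x)))) -
      1 / 2 * ((αA * Real.exp (-x)) * (αA * Real.exp (-x) - 10))) * (F0 cE x * F0 cO x)

lemma αA_rel1 : 2 * αA - TT = 34 := by unfold αA; ring

lemma αA_rel2 : αA * (αA - TT) = 1 := by
  have := TT_sq
  unfold αA
  linear_combination (-1 / 4) * this

lemma ThA_deriv (m : ℝ) {x : ℝ} (hx : 0 ≤ x) (hxL : x ≤ Lc) :
    ∃ d : ℝ, HasDerivAt (ThA m) d x ∧
      Real.exp (-x) * ThA m x + 2 * (1 - Real.exp (-x)) * (d - m * ThA m x) =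
        2 * (1 - Real.exp (-x)) * ((F0 cE x * F0 cO x) *
          ((m + 1) ^ 3 * (αA * Real.exp (-x)) ^ 2 -
            (34 * m ^ 3 + 51 * m ^ 2 + 27 * m + 5) * (αA * Real.exp (-x)) + m ^ 3)) := by
  have hE := facE.d1 x hx hxL
  have hE1 := facE.d2 x hx hxL
  have hO := facO.d1 x hx hxL
  have hO1 := facO.d2 x hx hxL
  have hX := hasDerivAt_X x
  have hv := hasDerivAt_v x
  have hM := ((hv.const_mul αA).const_sub TT).const_mul αA
  have hZ := (hX.mul hO).add ((hv.const_mul 2).mul hO1)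
  have hR := hE1.add (hE.const_mul (m / 2))
  have hG := (hv.const_mul αA).mul ((hv.const_mul αA).const_sub TT)
  have hG' := (hX.const_mul αA).mul ((hv.const_mul (2 * αA)).const_sub TT)
  have hU := (hX.const_mul αA).mul ((hX.const_mul αA).sub_const 10)
  have h := (((hM.mul hZ).mul hR).add (((hG.const_mul m).mul hE1).mul hO)).add
    ((((hG.const_mul (m ^ 2)).sub (hG'.const_mul (m / 2))).sub (hU.const_mul (1 / 2))).mul
      (hE.mul hO))
  refine ⟨_, h, ?_⟩
  have odE := odeE_xi hx hxL (X := Real.exp (-x)) rfl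
  have odO := odeO_xi hx hxL (X := Real.exp (-x)) rfl
  have h34 := αA_rel1
  have h1 := αA_rel2
  simp only [Pi.add_apply, Pi.mul_apply, Pi.sub_apply]
  unfold ThA
  generalize F2 cE x = E2 at *
  generalize F1 cE x = E1 at *
  generalize F0 cE x = E0 at *
  generalize F2 cO x = O2 at *
  generalize F1 cO x = O1 at *
  generalize F0 cO x = O0 at *
  generalize Real.exp (-x) = X at *
  linear_combination (2 * (X * O0 + 2 * (1 - X) * O1) + 2 * (1 - X) * m * O0) * odE +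
    (4 * (1 - X) * (E1 + m / 2 * E0)) * odO + (2 * (1 - X) * E0 * O0 * m ^ 3) * h1 -
    (αA * X * (1 - X) * E0 * O0 * (2 * m ^ 3 + 3 * m ^ 2 + m)) * h34

/-- boundary function -/
noncomputable def PsiA (n : ℕ) (x : ℝ) : ℝ :=
  Real.exp (-(((n : ℝ) + 1) * x)) * (qv x * ThA ((n : ℝ) + 1) x)

lemma PsiA_deriv (n : ℕ) {x : ℝ} (hx : 0 < x) (hxL : x ≤ Lc) :
    HasDerivAt (PsiA n) (Real.exp (-(((n : ℝ) + 1) * x)) * (WA x *
      (((n : ℝ) + 2) ^ 3 * (αA * Real.exp (-x)) ^ 2 -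
        (34 * ((n : ℝ) + 1) ^ 3 + 51 * ((n : ℝ) + 1) ^ 2 + 27 * ((n : ℝ) + 1) + 5) *
          (αA * Real.exp (-x)) + ((n : ℝ) + 1) ^ 3))) x := by
  have h1 : HasDerivAt (fun x => Real.exp (-(((n : ℝ) + 1) * x)))
      (Real.exp (-(((n : ℝ) + 1) * x)) * (-(((n : ℝ) + 1) * 1))) x :=
    (((hasDerivAt_id x).const_mul ((n : ℝ) + 1)).neg).exp
  obtain ⟨d, hd, key⟩ := ThA_deriv ((n : ℝ) + 1) hx.le hxL
  have h3 := h1.mul ((qv_deriv hx).mul hd)
  refine h3.congr_deriv ?_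
  have hq := qv_pos hx
  have hq2 := qv_sq hx.le
  simp only [Pi.mul_apply]
  unfold WA
  have e : (n : ℝ) + 1 + 1 = n + 2 := by ring
  rw [e] at key
  rw [← hq2] at key
  generalize ThA ((n : ℝ) + 1) x = Θ at *
  generalize Real.exp (-(((n : ℝ) + 1) * x)) = Y at *
  generalize F0 cE x = E0 at *
  generalize F0 cO x = O0 at *
  generalize qv x = q at *
  generalize Real.exp (-x) = X at *
  have h2q : (2 * q) ≠ 0 := by positivity
  field_simp
  linear_combination Y * key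

lemma ThA_cont (m : ℝ) : ContinuousOn (ThA m) (Icc 0 Lc) := by
  intro x hx
  obtain ⟨d, hd, _⟩ := ThA_deriv m hx.1 hx.2
  exact hd.continuousAt.continuousWithinAt

lemma PsiA_cont (n : ℕ) : ContinuousOn (PsiA n) (Icc 0 Lc) := by
  apply ContinuousOn.mul
  · exact (by fun_prop : Continuous fun x : ℝ => Real.exp (-(((n : ℝ) + 1) * x))).continuousOn
  · exact qv_cont.continuousOn.mul (ThA_cont _)

lemma mom_rec_A (n : ℕ) :
    ((n : ℝ) + 2) ^ 3 * αA ^ 2 * mom WA (n + 2) -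
      (34 * ((n : ℝ) + 1) ^ 3 + 51 * ((n : ℝ) + 1) ^ 2 + 27 * ((n : ℝ) + 1) + 5) * αA *
        mom WA (n + 1) +
      ((n : ℝ) + 1) ^ 3 * mom WA n = PsiA n Lc := by
  have hI : ∀ a : ℝ, IntervalIntegrable (fun x => Real.exp (-(a * x)) * WA x) volume 0 Lc :=
    fun a => mom_integrable WA_cont a
  have e : ∀ x, Real.exp (-(((n : ℝ) + 1) * x)) * (WA x *
      (((n : ℝ) + 2) ^ 3 * (αA * Real.exp (-x)) ^ 2 -
        (34 * ((n : ℝ) + 1) ^ 3 + 51 * ((n : ℝ) + 1) ^ 2 + 27 * ((n : ℝ) + 1) + 5) *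
          (αA * Real.exp (-x)) + ((n : ℝ) + 1) ^ 3)) =
      (((n : ℝ) + 2) ^ 3 * αA ^ 2) * (Real.exp (-((((n + 2 : ℕ) : ℝ) + 1) * x)) * WA x) -
      ((34 * ((n : ℝ) + 1) ^ 3 + 51 * ((n : ℝ) + 1) ^ 2 + 27 * ((n : ℝ) + 1) + 5) * αA) *
        (Real.exp (-((((n + 1 : ℕ) : ℝ) + 1) * x)) * WA x) +
      ((n : ℝ) + 1) ^ 3 * (Real.exp (-(((n : ℝ) + 1) * x)) * WA x) := by
    intro x
    have e1 : Real.exp (-((((n + 1 : ℕ) : ℝ) + 1) * x)) =
        Real.exp (-(((n : ℝ) + 1) * x)) * Real.exp (-x) := by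
      rw [← Real.exp_add]; congr 1; push_cast; ring
    have e2 : Real.exp (-((((n + 2 : ℕ) : ℝ) + 1) * x)) =
        Real.exp (-(((n : ℝ) + 1) * x)) * Real.exp (-x) ^ 2 := by
      rw [← Real.exp_nat_mul, ← Real.exp_add]; congr 1; push_cast; ring
    rw [e1, e2]; ring
  have hFTC := intervalIntegral.integral_eq_sub_of_hasDerivAt_of_le (a := 0) (b := Lc)
    Lc_pos.le (PsiA_cont n) (fun x hx => PsiA_deriv n hx.1 hx.2.le) (by
      simp only [e]
      exact (((hI _).const_mul _).sub ((hI _).const_mul _)).add ((hI _).const_mul _))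
  have h0 : PsiA n 0 = 0 := by
    unfold PsiA qv
    simp
  rw [h0, sub_zero] at hFTC
  rw [← hFTC]
  simp only [e]
  rw [intervalIntegral.integral_add (((hI _).const_mul _).sub ((hI _).const_mul _))
    ((hI _).const_mul _), intervalIntegral.integral_sub ((hI _).const_mul _)
    ((hI _).const_mul _), intervalIntegral.integral_const_mul,
    intervalIntegral.integral_const_mul, intervalIntegral.integral_const_mul]
  rfl

lemma αA_lo : 33.97056 < αA := by have := TT_lo; unfold αA; linarith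
lemma αA_hi : αA < 33.9706 := by have := TT_hi; unfold αA; linarith

lemma kappa0 {x : ℝ} (hx : 0 < x) :
    ∃ d : ℝ, HasDerivAt (fun x => x ^ 2 * (Real.exp (-x) / (2 * (1 - Real.exp (-x))))) d x ∧
      -(1 / 10) * x ≤ d := by
  have hv := v_pos hx
  have h1 := (hasDerivAt_X x).div ((hasDerivAt_v x).const_mul 2) (by positivity)
  have h2 := (hasDerivAt_pow 2 x).mul h1
  refine ⟨_, h2, ?_⟩
  have hpsi := psi_nonneg hx.le
  obtain ⟨X, hX⟩ : ∃ X, X = Real.exp (-x) := ⟨_, rfl⟩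
  have hX0 : 0 < X := by rw [hX]; exact Real.exp_pos _
  have hXi : Real.exp x = 1 / X := by rw [hX, Real.exp_neg]; field_simp
  rw [← hX] at hv hpsi
  rw [hXi] at hpsi
  simp only [Pi.div_apply]
  rw [← hX]
  have e : ((2 : ℕ) : ℝ) * x ^ (2 - 1) * (X / (2 * (1 - X))) +
      x ^ 2 * ((-X * (2 * (1 - X)) - X * (2 * X)) / (2 * (1 - X)) ^ 2) =
      x * (X / (2 * (1 - X) ^ 2)) * (2 * (1 - X) - x) := by
    norm_num
    field_simp
    ring
  rw [e]
  have h3 : -(1 / 5 * (1 / X - 2 + X)) ≤ 2 * (1 - X) - x := by linarith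
  have h4 : 0 ≤ x * (X / (2 * (1 - X) ^ 2)) := by positivity
  have h5 := mul_le_mul_of_nonneg_left h3 h4
  refine le_trans (le_of_eq ?_) h5
  field_simp
  ring

lemma monoA : MonotoneOn (fun x => x ^ 2 * (1 + WA1 x / WA x)) (Ioc 0 Lc) := by
  set K : ℝ → ℝ := fun x => x ^ 2 + x ^ 2 * (Real.exp (-x) / (2 * (1 - Real.exp (-x)))) +
    x ^ 2 * (F1 cE x / F0 cE x) + x ^ 2 * (F1 cO x / F0 cO x) with hK
  have hd : ∀ x, 0 < x → x ≤ Lc → ∃ d, HasDerivAt K d x ∧ 0 ≤ d := by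
    intro x hx hxL
    obtain ⟨d0, h0, h0'⟩ := kappa0 hx
    obtain ⟨d1, h1, h1'⟩ := facE.kappa hx hxL
    obtain ⟨d2, h2, h2'⟩ := facO.kappa hx hxL
    refine ⟨_, (((hasDerivAt_pow 2 x).add h0).add h1).add h2, ?_⟩
    norm_num at h1' h2' ⊢
    linarith
  have hmono : MonotoneOn K (Ioc 0 Lc) := by
    apply monotoneOn_of_deriv_nonneg (convex_Ioc 0 Lc)
    · intro x hx
      obtain ⟨d, h, _⟩ := hd x hx.1 hx.2
      exact h.continuousAt.continuousWithinAt
    · intro x hx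
      rw [interior_Ioc] at hx
      obtain ⟨d, h, _⟩ := hd x hx.1 hx.2.le
      exact h.differentiableAt.differentiableWithinAt
    · intro x hx
      rw [interior_Ioc] at hx
      obtain ⟨d, h, h'⟩ := hd x hx.1 hx.2.le
      rw [h.deriv]; exact h'
  refine hmono.congr ?_
  intro x hx
  simp only [hK]
  rw [WA_ratio hx.1 hx.2]
  ring

lemma seqA_pos (n : ℕ) : 0 < seqA n := by
  unfold seqA
  apply Finset.sum_pos
  · intro j hj
    have : j ≤ n := by simp at hj; omega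
    have h1 := Nat.choose_pos this
    have h2 : 0 < (n + j).choose j := Nat.choose_pos (by omega)
    positivity
  · exact ⟨0, by simp⟩

lemma seqA_ratio (n : ℕ) : 5 * (seqA n : ℝ) ≤ seqA (n + 1) ∧
    14 * (seqA (n + 1) : ℝ) ≤ seqA (n + 2) := by
  have step : ∀ n : ℕ, 5 * (seqA n : ℝ) ≤ seqA (n + 1) → 14 * (seqA (n + 1) : ℝ) ≤ seqA (n + 2) := by
    intro n h5
    have h := seqA_rec n
    have h1 : (0 : ℝ) < seqA (n + 1) := by exact_mod_cast seqA_pos (n + 1)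
    have hn : (0 : ℝ) ≤ n := Nat.cast_nonneg n
    have hp : (0 : ℝ) < ((n : ℝ) + 2) ^ 3 := by positivity
    have h2 : ((n : ℝ) + 2) ^ 3 * (14 * seqA (n + 1)) ≤ ((n : ℝ) + 2) ^ 3 * seqA (n + 2) := by
      have h3 : ((n : ℝ) + 1) ^ 3 * seqA n ≤ ((n : ℝ) + 1) ^ 3 * (1 / 5 * seqA (n + 1)) := by
        gcongr; linarith
      have h4 : ((n : ℝ) + 2) ^ 3 * 14 + ((n : ℝ) + 1) ^ 3 * (1 / 5) ≤
          34 * ((n : ℝ) + 1) ^ 3 + 51 * ((n : ℝ) + 1) ^ 2 + 27 * ((n : ℝ) + 1) + 5 := by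
        have : 0 ≤ (34 * ((n : ℝ) + 1) ^ 3 + 51 * ((n : ℝ) + 1) ^ 2 + 27 * ((n : ℝ) + 1) + 5) -
          (((n : ℝ) + 2) ^ 3 * 14 + ((n : ℝ) + 1) ^ 3 * (1 / 5)) := by
          ring_nf
          positivity
        linarith
      have h5 := mul_le_mul_of_nonneg_right h4 h1.le
      linarith
    exact le_of_mul_le_mul_left h2 hp
  induction n with
  | zero =>
    have e0 : (seqA 0 : ℝ) = 1 := by
      have : seqA 0 = 1 := by decide
      rw [this]; norm_num
    have e1 : (seqA 1 : ℝ) = 5 := by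
      have : seqA 1 = 5 := by decide
      rw [this]; norm_num
    have h5 : 5 * (seqA 0 : ℝ) ≤ seqA (0 + 1) := by rw [zero_add, e0, e1]; norm_num
    exact ⟨h5, step 0 h5⟩
  | succ n ih =>
    have h1 : (0 : ℝ) < seqA (n + 1) := by exact_mod_cast seqA_pos (n + 1)
    have h5 : 5 * (seqA (n + 1) : ℝ) ≤ seqA (n + 1 + 1) := by
      have := ih.2
      rw [show n + 2 = n + 1 + 1 by ring] at this
      linarith
    exact ⟨h5, step (n + 1) h5⟩

lemma mom_ratio_A (n : ℕ) : mom WA (n + 1) ≤ 3534 / 10000 * (αA * mom WA (n + 2)) := by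
  have h12 : 1 / 12 * mom WA (n + 1) ≤ mom WA (n + 2) := by
    unfold mom
    rw [← intervalIntegral.integral_const_mul]
    apply intervalIntegral.integral_mono_on Lc_pos.le
      ((mom_integrable WA_cont _).const_mul _) (mom_integrable WA_cont _)
    intro x hx
    have hW : 0 ≤ WA x := by
      rcases eq_or_lt_of_le hx.1 with h | h
      · rw [← h]; unfold WA qv; simp
      · exact (WA_pos h hx.2).le
    have e : Real.exp (-((((n + 2 : ℕ) : ℝ) + 1) * x)) =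
        Real.exp (-((((n + 1 : ℕ) : ℝ) + 1) * x)) * Real.exp (-x) := by
      rw [← Real.exp_add]; congr 1; push_cast; ring
    have h1 : 1 / 12 ≤ Real.exp (-x) := by
      rw [← exp_neg_Lc]; apply Real.exp_le_exp.mpr; linarith [hx.2]
    rw [e]
    have h2 := Real.exp_pos (-((((n + 1 : ℕ) : ℝ) + 1) * x))
    calc 1 / 12 * (Real.exp (-((((n + 1 : ℕ) : ℝ) + 1) * x)) * WA x)
        = Real.exp (-((((n + 1 : ℕ) : ℝ) + 1) * x)) * (1 / 12) * WA x := by ring
      _ ≤ Real.exp (-((((n + 1 : ℕ) : ℝ) + 1) * x)) * Real.exp (-x) * WA x := by gcongr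
  have m1 : 0 < mom WA (n + 2) := by
    refine lt_of_lt_of_le ?_ (mom_lower WA_cont WA_ge (n + 2) (by omega))
    positivity
  have hα := αA_lo
  nlinarith

lemma PsiA_bounds (n : ℕ) : 0 ≤ PsiA n Lc ∧
    PsiA n Lc ≤ (1 / 12) ^ (n + 1) * (1050 * (((n : ℝ) + 1) ^ 2 + 1.51 * (n + 1) + 0.62)) := by
  have e1 := facE.one_le Lc Lc_pos.le le_rfl
  have e2 := facE.nonneg Lc Lc_pos.le le_rfl
  have e3 := facE.le Lc Lc_pos.le le_rfl
  have o1 := facO.one_le Lc Lc_pos.le le_rfl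
  have o2 := facO.nonneg Lc Lc_pos.le le_rfl
  have o3 := facO.le Lc Lc_pos.le le_rfl
  have hW := WA_L
  have a1 := αA_lo
  have a2 := αA_hi
  have t1 := TT_lo
  have t2 := TT_hi
  have a3 := exp_nLc (n + 1)
  push_cast at a3
  have hq0 : 0 ≤ qv Lc := Real.sqrt_nonneg _
  unfold PsiA ThA
  rw [a3, exp_neg_Lc]
  unfold WA at hW
  obtain ⟨m, hm⟩ : ∃ m : ℝ, m = (n : ℝ) + 1 := ⟨_, rfl⟩
  have hm1 : 1 ≤ m := by rw [hm]; have := Nat.cast_nonneg (α := ℝ) n; linarith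
  rw [← hm]
  generalize F1 cE Lc = E1 at *
  generalize F0 cE Lc = E0 at *
  generalize F1 cO Lc = O1 at *
  generalize F0 cO Lc = O0 at *
  generalize qv Lc = q at *
  -- constants
  have c1 : 0 ≤ αA * (TT - αA * (1 - 1 / 12)) := by nlinarith
  have c1' : αA * (TT - αA * (1 - 1 / 12)) ≤ 95.2 := by nlinarith
  have c2 : 0 ≤ αA * (1 - 1 / 12) * (TT - αA * (1 - 1 / 12)) := by nlinarith
  have c2' : αA * (1 - 1 / 12) * (TT - αA * (1 - 1 / 12)) ≤ 87.3 := by nlinarith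
  have c3 : 0 ≤ -(αA * (1 / 12) * (TT - 2 * αA * (1 - 1 / 12))) := by nlinarith
  have c3' : -(αA * (1 / 12) * (TT - 2 * αA * (1 - 1 / 12))) ≤ 80.3 := by nlinarith
  have c4 : 0 ≤ -((αA * (1 / 12)) * (αA * (1 / 12) - 10)) := by nlinarith
  have c4' : -((αA * (1 / 12)) * (αA * (1 / 12) - 10)) ≤ 20.3 := by nlinarith
  generalize αA * (TT - αA * (1 - 1 / 12)) = C1 at *
  generalize αA * (1 - 1 / 12) * (TT - αA * (1 - 1 / 12)) = C2 at *
  have hC3 : ∃ C3, C3 = -(αA * (1 / 12) * (TT - 2 * αA * (1 - 1 / 12))) := ⟨_, rfl⟩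
  obtain ⟨C3, hC3⟩ := hC3
  have hC4 : ∃ C4, C4 = -((αA * (1 / 12)) * (αA * (1 / 12) - 10)) := ⟨_, rfl⟩
  obtain ⟨C4, hC4⟩ := hC4
  rw [← hC3] at c3 c3'
  rw [← hC4] at c4 c4'
  have eC3 : αA * (1 / 12) * (TT - 2 * αA * (1 - 1 / 12)) = -C3 := by rw [hC3]; ring
  have eC4 : (αA * (1 / 12)) * (αA * (1 / 12) - 10) = -C4 := by rw [hC4]; ring
  rw [eC3, eC4]
  have hE0 : 0 ≤ E0 := by linarith
  have hO0 : 0 ≤ O0 := by linarith
  have hEO : 0 ≤ E0 * O0 := by positivity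
  have z1 : 1 / 12 * O0 + 2 * (1 - 1 / 12) * O1 ≤ 1.2384 * O0 := by linarith
  have z1' : 0 ≤ 1 / 12 * O0 + 2 * (1 - 1 / 12) * O1 := by positivity
  have r1 : E1 + m / 2 * E0 ≤ (0.365 + m / 2) * E0 := by linarith
  have r1' : 0 ≤ E1 + m / 2 * E0 := by positivity
  have p1 : C1 * (1 / 12 * O0 + 2 * (1 - 1 / 12) * O1) * (E1 + m / 2 * E0) ≤
      95.2 * (1.2384 * O0) * ((0.365 + m / 2) * E0) := by gcongr
  have p1' : 0 ≤ C1 * (1 / 12 * O0 + 2 * (1 - 1 / 12) * O1) * (E1 + m / 2 * E0) := by positivity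
  have p2 : m * C2 * E1 * O0 ≤ m * 87.3 * (0.365 * E0) * O0 := by
    gcongr
    linarith
  have p2' : 0 ≤ m * C2 * E1 * O0 := by positivity
  have p3 : (m ^ 2 * C2 - m / 2 * (-C3) - 1 / 2 * (-C4)) * (E0 * O0) ≤
      (m ^ 2 * 87.3 + m / 2 * 80.3 + 1 / 2 * 20.3) * (E0 * O0) := by
    apply mul_le_mul_of_nonneg_right _ hEO
    have : m ^ 2 * C2 ≤ m ^ 2 * 87.3 := by gcongr
    have : m / 2 * C3 ≤ m / 2 * 80.3 := by gcongr
    linarith
  have p3' : 0 ≤ (m ^ 2 * C2 - m / 2 * (-C3) - 1 / 2 * (-C4)) * (E0 * O0) := by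
    apply mul_nonneg _ hEO
    have : 0 ≤ m ^ 2 * C2 := by positivity
    have : 0 ≤ m / 2 * C3 := by positivity
    linarith
  constructor
  · positivity
  · apply mul_le_mul_of_nonneg_left _ (by positivity)
    have hT : C1 * (1 / 12 * O0 + 2 * (1 - 1 / 12) * O1) * (E1 + m / 2 * E0) + m * C2 * E1 * O0 +
        (m ^ 2 * C2 - m / 2 * (-C3) - 1 / 2 * (-C4)) * (E0 * O0) ≤
        (87.5 * (m ^ 2 + 1.51 * m + 0.62)) * (E0 * O0) := by
      have h9 : 95.2 * (1.2384 * O0) * ((0.365 + m / 2) * E0) + m * 87.3 * (0.365 * E0) * O0 +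
          (m ^ 2 * 87.3 + m / 2 * 80.3 + 1 / 2 * 20.3) * (E0 * O0) ≤
          (87.5 * (m ^ 2 + 1.51 * m + 0.62)) * (E0 * O0) := by
        have : 95.2 * (1.2384 * O0) * ((0.365 + m / 2) * E0) + m * 87.3 * (0.365 * E0) * O0 +
          (m ^ 2 * 87.3 + m / 2 * 80.3 + 1 / 2 * 20.3) * (E0 * O0) =
          (95.2 * 1.2384 * (0.365 + m / 2) + m * 87.3 * 0.365 +
            (m ^ 2 * 87.3 + m / 2 * 80.3 + 1 / 2 * 20.3)) * (E0 * O0) := by ring
        rw [this]
        apply mul_le_mul_of_nonneg_right _ hEO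
        nlinarith
      linarith
    calc q * (C1 * (1 / 12 * O0 + 2 * (1 - 1 / 12) * O1) * (E1 + m / 2 * E0) + m * C2 * E1 * O0 +
        (m ^ 2 * C2 - m / 2 * (-C3) - 1 / 2 * (-C4)) * (E0 * O0))
        ≤ q * ((87.5 * (m ^ 2 + 1.51 * m + 0.62)) * (E0 * O0)) := by gcongr
      _ = (87.5 * (m ^ 2 + 1.51 * m + 0.62)) * (q * (E0 * O0)) := by ring
      _ ≤ (87.5 * (m ^ 2 + 1.51 * m + 0.62)) * 12 := by gcongr
      _ = _ := by ring

theorem compareA : ∃ b : ℕ → ℝ, QP b ∧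
    ∀ n, 10 ≤ n → |(seqA n : ℝ) - b n| ≤ 100 * (1 / 10) ^ n * b n := by
  have hL := Lc_pos
  have hα : 0 < αA := by have := αA_lo; linarith
  have hE := facE.one_le Lc hL.le le_rfl
  have hO := facO.one_le Lc hL.le le_rfl
  have hE0 : 0 < F0 cE Lc := by linarith
  have hO0 : 0 < F0 cO Lc := by linarith
  have uE0 : 0 ≤ F1 cE Lc / F0 cE Lc := div_nonneg (facE.nonneg Lc hL.le le_rfl) hE0.le
  have uE1 : F1 cE Lc / F0 cE Lc ≤ 365 / 1000 := by
    rw [div_le_iff₀ hE0]; exact facE.le Lc hL.le le_rfl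
  have uO0 : 0 ≤ F1 cO Lc / F0 cO Lc := div_nonneg (facO.nonneg Lc hL.le le_rfl) hO0.le
  have uO1 : F1 cO Lc / F0 cO Lc ≤ 63 / 100 := by
    rw [div_le_iff₀ hO0]; exact facO.le Lc hL.le le_rfl
  have hratio := WA_ratio hL le_rfl
  rw [exp_neg_Lc] at hratio
  obtain ⟨S, hrep, hSpos, hS⟩ := density_main (f := WA) (f1 := WA1) hL
    (fun x hx hxL => WA_pos hx hxL) WA_cont
    (fun x hx hxL => WA_deriv hx hxL) monoA
    (by rw [hratio]; norm_num; linarith)
    (by rw [hratio]; norm_num; linarith)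
  have hs : ∀ n, 1 ≤ n → 0 < mom WA n := by
    intro n hn
    refine lt_of_lt_of_le ?_ (mom_lower WA_cont WA_ge n hn)
    positivity
  have ha : ∀ n, (0 : ℝ) < seqA n := fun n => by exact_mod_cast seqA_pos n
  refine compare_main (a := fun n => (seqA n : ℝ)) (s := mom WA) (S := S) (α := αA) hα hrep
    hSpos (fun n _ => ha n) hs ?_ ?_ ?_
  · intro n hn
    obtain ⟨h1, h2⟩ := hS n (by omega)
    refine ⟨h1, h2.trans ?_⟩
    have := tail_bound WA_cont WA_ge WA_L n hn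
    unfold mom at *
    linarith
  · have e2 : (seqA 2 : ℝ) = 73 := by
      have : seqA 2 = 73 := by decide
      rw [this]; norm_num
    have e1 : (seqA 1 : ℝ) = 5 := by
      have : seqA 1 = 5 := by decide
      rw [this]; norm_num
    have h1 := mom_ratio_A 0
    have p1 := hs 1 le_rfl
    have p2 := hs 2 (by norm_num)
    simp only [zero_add] at h1
    rw [e1, e2]
    have hb : mom WA 1 / (αA * mom WA 2) ≤ 3534 / 10000 := by
      rw [div_le_iff₀ (by positivity)]; exact h1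
    have hb0 : 0 < mom WA 1 / (αA * mom WA 2) := by positivity
    have e : 73 * mom WA 1 / (αA * (5 * mom WA 2)) =
        73 / 5 * (mom WA 1 / (αA * mom WA 2)) := by field_simp
    rw [e, abs_le]
    constructor <;> linarith
  · intro n hn
    have hrec := mom_rec_A n
    have harec := seqA_rec n
    have hratio : (seqA n : ℝ) ≤ 1 / 14 * seqA (n + 1) := by
      obtain ⟨m, rfl⟩ : ∃ m, n = m + 1 := ⟨n - 1, by omega⟩
      have := (seqA_ratio m).2
      rw [show m + 2 = m + 1 + 1 by ring] at this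
      linarith
    have p0 := hs n hn
    have p1 := hs (n + 1) (by omega)
    have p2 := hs (n + 2) (by omega)
    have hn0 : (0 : ℝ) ≤ n := Nat.cast_nonneg n
    have key := y_step (P := ((n : ℝ) + 2) ^ 3)
      (Q := 34 * ((n : ℝ) + 1) ^ 3 + 51 * ((n : ℝ) + 1) ^ 2 + 27 * ((n : ℝ) + 1) + 5)
      (N := -((n : ℝ) + 1) ^ 3)
      (a0 := seqA n) (a1 := seqA (n + 1)) (a2 := seqA (n + 2)) (s0 := mom WA n)
      (s1 := mom WA (n + 1)) (s2 := mom WA (n + 2)) (α := αA) (δ := PsiA n Lc)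
      (ρ1 := 1 / 14) (ρ2 := 3534 / 10000) (by positivity) (ha n) (ha (n + 1)) p1 p2 hα
      (by rw [abs_neg, abs_of_nonneg (by positivity)]
          have : (n : ℝ) + 1 ≤ n + 2 := by linarith
          gcongr) hratio (mom_ratio_A n) (by linarith) (by linarith)
    refine key.trans ?_
    obtain ⟨hP0, hP⟩ := PsiA_bounds n
    have hδ : |PsiA n Lc| / (αA ^ 2 * ((n : ℝ) + 2) ^ 3 * mom WA (n + 2)) ≤
        10 * (1 / 10) ^ (n + 1) := by
      rw [abs_of_nonneg hP0, div_le_iff₀ (by positivity)]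
      have hlow := mom_lower WA_cont WA_ge (n + 2) (by omega)
      push_cast at hlow
      have hα2 : 1153.9 ≤ αA ^ 2 := by have := αA_lo; nlinarith
      have h12 : (1 / 12 : ℝ) ^ (n + 1) = (5 / 6) ^ (n + 1) * (1 / 10) ^ (n + 1) := by
        rw [← mul_pow]; norm_num
      have hb := pow_bound2 n
      have h10 : (0 : ℝ) < (1 / 10) ^ (n + 1) := by positivity
      have hpoly : (((n : ℝ) + 1) ^ 2 + 1.51 * (n + 1) + 0.62) * ((n + 2 + 1) * (n + 2 + 2)) ≤
          (n + 6) * ((n : ℝ) + 2) ^ 3 := by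
        have : 0 ≤ (n + 6) * ((n : ℝ) + 2) ^ 3 -
          (((n : ℝ) + 1) ^ 2 + 1.51 * (n + 1) + 0.62) * ((n + 2 + 1) * (n + 2 + 2)) := by
          ring_nf
          positivity
        linarith
      have hlow' : (((n : ℝ) + 1) ^ 2 + 1.51 * (n + 1) + 0.62) ≤ 10 / 9 *
          (((n : ℝ) + 2) ^ 3 * (9 / 10 / (((n : ℝ) + 2 + 1) * (n + 2 + 2))) * (n + 6)) := by
        have : 10 / 9 * (((n : ℝ) + 2) ^ 3 * (9 / 10 / (((n : ℝ) + 2 + 1) * (n + 2 + 2))) * (n + 6)) =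
          ((n + 6) * ((n : ℝ) + 2) ^ 3) / (((n : ℝ) + 2 + 1) * (n + 2 + 2)) := by
          field_simp
        rw [this, le_div_iff₀ (by positivity)]
        exact hpoly
      calc PsiA n Lc ≤ (1 / 12) ^ (n + 1) * (1050 * (((n : ℝ) + 1) ^ 2 + 1.51 * (n + 1) + 0.62)) := hP
        _ = (1 / 10) ^ (n + 1) * ((5 / 6) ^ (n + 1) *
            (1050 * (((n : ℝ) + 1) ^ 2 + 1.51 * (n + 1) + 0.62))) := by
            rw [h12]; ring
        _ ≤ (1 / 10) ^ (n + 1) * ((5 / 6) ^ (n + 1) * (1050 * (10 / 9 *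
          (((n : ℝ) + 2) ^ 3 * (9 / 10 / (((n : ℝ) + 2 + 1) * (n + 2 + 2))) * (n + 6))))) := by
            gcongr
        _ = (1 / 10) ^ (n + 1) * (1050 * (10 / 9) * (((n : ℝ) + 2) ^ 3 *
            (9 / 10 / (((n : ℝ) + 2 + 1) * (n + 2 + 2)))) * ((5 / 6) ^ (n + 1) * (n + 6))) := by
            ring
        _ ≤ (1 / 10) ^ (n + 1) * (1050 * (10 / 9) * (((n : ℝ) + 2) ^ 3 *
            (9 / 10 / (((n : ℝ) + 2 + 1) * (n + 2 + 2)))) * 5) := by gcongr
        _ ≤ (1 / 10) ^ (n + 1) * (10 * 1153.9 * (((n : ℝ) + 2) ^ 3 *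
            (9 / 10 / (((n : ℝ) + 2 + 1) * (n + 2 + 2))))) := by
            apply mul_le_mul_of_nonneg_left _ h10.le
            have : 0 ≤ ((n : ℝ) + 2) ^ 3 * (9 / 10 / (((n : ℝ) + 2 + 1) * (n + 2 + 2))) := by
              positivity
            linarith
        _ ≤ (1 / 10) ^ (n + 1) * (10 * αA ^ 2 * (((n : ℝ) + 2) ^ 3 * mom WA (n + 2))) := by
            gcongr
        _ = _ := by ring
    have habs := abs_nonneg ((seqA (n + 1) : ℝ) * mom WA n /
      (αA * (seqA n * mom WA (n + 1))) - 1)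
    linarith

/-- Infinite log-convexity of the first sequence. -/
theorem infA (k m : ℕ) : 0 < (Ls^[k] (fun n => (seqA n : ℝ))) m := by
  obtain ⟨b, hb, herr⟩ := compareA
  exact criterion hb herr finA.1 finA.2 k m

end Pool.Agent.MP5ad
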