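import Mathlib
import Pool.Agent.Lib.MP_5ad3e6_co.Moment

set_option autoImplicit false

/-!
# The second Apéry sequence
-/

open Set MeasureTheory

namespace Pool.Agent.MP5ad

lemma odeB {v : ℝ} (hv : |v| < 24 / 25) :
    SS * (v * PS (der (der bB)) v) - (SS + αB) * (v * (v * PS (der (der bB)) v)) +
      αB * (v * (v * (v * PS (der (der bB)) v))) + SS * PS (der bB) v -
      2 * (SS + αB) * (v * PS (der bB) v) + 3 * αB * (v * (v * PS (der bB) v)) -
      (αB - 3) * PS bB v + αB * (v * PS bB v) = 0 := by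
  have g := bB_good
  have g1 := g.der
  have g2 := g1.der
  have s2 := g2.sh.hasSum hv
  have s22 := g2.sh.sh.hasSum hv
  have s222 := g2.sh.sh.sh.hasSum hv
  have s1 := g1.hasSum hv
  have s11 := g1.sh.hasSum hv
  have s111 := g1.sh.sh.hasSum hv
  have s0 := g.hasSum hv
  have s00 := g.sh.hasSum hv
  rw [PS_sh g2.sh.sh hv, PS_sh g2.sh hv, PS_sh g2 hv] at s222
  rw [PS_sh g2.sh hv, PS_sh g2 hv] at s22
  rw [PS_sh g2 hv] at s2
  rw [PS_sh g1.sh hv, PS_sh g1 hv] at s111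
  rw [PS_sh g1 hv] at s11
  rw [PS_sh g hv] at s00
  have hsum := ((((((((s2.mul_left SS).sub (s22.mul_left (SS + αB))).add
    (s222.mul_left αB)).add (s1.mul_left SS)).sub (s11.mul_left (2 * (SS + αB)))).add
    (s111.mul_left (3 * αB))).sub (s0.mul_left (αB - 3))).add (s00.mul_left αB))
  refine hsum.unique ?_
  convert hasSum_zero using 1
  funext n
  rcases n with _ | _ | _ | n
  · have h := bB_one
    unfold PB QB at h
    simp [sh, der] at h ⊢
    linear_combination h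
  · have h := bB_rec 0
    unfold PB QB NB at h
    simp [sh, der] at h ⊢
    linear_combination v * h
  · have h := bB_rec 1
    unfold PB QB NB at h
    simp [sh, der] at h ⊢
    linear_combination v ^ 2 * h
  · have h := bB_rec (n + 2)
    unfold PB QB NB at h
    simp [sh, der] at h ⊢
    linear_combination v ^ (n + 3) * h

lemma facB : Fac3 (F0 bB) (F1 bB) (F2 bB) (76 / 100) :=
  fac3_of_series bB_zero bB_pos bB_good (r := 1) (h := 3 / 4) one_pos (by norm_num) bB_up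
    (by norm_num)

/-- `g = 1 + 11 x - x²` with `x = α exp (-ξ)` -/
noncomputable def gB (x : ℝ) : ℝ :=
  1 + 11 * (αB * Real.exp (-x)) - (αB * Real.exp (-x)) ^ 2

/-- its derivative in `ξ` -/
noncomputable def gB' (x : ℝ) : ℝ :=
  2 * (αB * Real.exp (-x)) ^ 2 - 11 * (αB * Real.exp (-x))

lemma gB_deriv (x : ℝ) : HasDerivAt gB (gB' x) x := by
  have h1 := (hasDerivAt_X x).const_mul αB
  have h2 := ((h1.const_mul 11).const_add 1).sub (h1.pow 2)
  unfold gB'
  refine h2.congr_deriv ?_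
  simp
  ring

lemma odeB_xi {x : ℝ} (hx : 0 ≤ x) (hxL : x ≤ Lc) :
    gB x * F2 bB x + gB' x * F1 bB x =
      (αB * Real.exp (-x)) * (αB * Real.exp (-x) - 3) * F0 bB x := by
  obtain ⟨_, _, hv⟩ := v_range hx hxL
  have h := odeB hv
  have hS := SS_sq
  unfold gB gB' F2 F1 F0
  obtain ⟨X, hX⟩ : ∃ X, X = Real.exp (-x) := ⟨_, rfl⟩
  rw [← hX] at h ⊢
  generalize PS (der (der bB)) (1 - X) = w2 at *
  generalize PS (der bB) (1 - X) = w1 at *
  generalize PS bB (1 - X) = w0 at *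
  unfold αB at *
  linear_combination ((11 + SS) / 2 * X) * h +
    (-(1 / 4) * X ^ 2 * w2 + 1 / 4 * X * w1) * hS

lemma contB : ContinuousOn (F0 bB) (Icc 0 Lc) := fun x hx =>
  (facB.d1 x hx.1 hx.2).continuousAt.continuousWithinAt

lemma F0B_ge (x : ℝ) (hx : 0 ≤ x) (hxL : x ≤ Lc) : 1 - Real.exp (-x) ≤ F0 bB x := by
  have h1 := facB.one_le x hx hxL
  have h2 := Real.exp_pos (-x)
  linarith

/-- boundary function -/
noncomputable def PhiB (n : ℕ) (x : ℝ) : ℝ :=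
  Real.exp (-(((n : ℝ) + 1) * x)) * (gB x * (F1 bB x + ((n : ℝ) + 1) * F0 bB x))

lemma PhiB_deriv (n : ℕ) {x : ℝ} (hx : 0 ≤ x) (hxL : x ≤ Lc) :
    HasDerivAt (PhiB n) (Real.exp (-(((n : ℝ) + 1) * x)) * (F0 bB x *
      (((n : ℝ) + 2) ^ 2 * (αB * Real.exp (-x)) ^ 2 -
        (11 * ((n : ℝ) + 1) ^ 2 + 11 * ((n : ℝ) + 1) + 3) * (αB * Real.exp (-x)) -
        ((n : ℝ) + 1) ^ 2))) x := by
  have h1 : HasDerivAt (fun x => Real.exp (-(((n : ℝ) + 1) * x)))
      (Real.exp (-(((n : ℝ) + 1) * x)) * (-(((n : ℝ) + 1) * 1))) x :=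
    (((hasDerivAt_id x).const_mul ((n : ℝ) + 1)).neg).exp
  have h2 := (facB.d2 x hx hxL).add ((facB.d1 x hx hxL).const_mul ((n : ℝ) + 1))
  have h3 := h1.mul ((gB_deriv x).mul h2)
  refine h3.congr_deriv ?_
  have hode := odeB_xi hx hxL
  simp only [Pi.add_apply, Pi.mul_apply]
  unfold gB gB' at *
  linear_combination Real.exp (-(((n : ℝ) + 1) * x)) * hode

lemma mom_rec_B (n : ℕ) :
    ((n : ℝ) + 2) ^ 2 * αB ^ 2 * mom (F0 bB) (n + 2) -
      (11 * ((n : ℝ) + 1) ^ 2 + 11 * ((n : ℝ) + 1) + 3) * αB * mom (F0 bB) (n + 1) -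
      ((n : ℝ) + 1) ^ 2 * mom (F0 bB) n = PhiB n Lc := by
  have hI : ∀ a : ℝ, IntervalIntegrable (fun x => Real.exp (-(a * x)) * F0 bB x) volume 0 Lc :=
    fun a => mom_integrable contB a
  have e : ∀ x, Real.exp (-(((n : ℝ) + 1) * x)) * (F0 bB x *
      (((n : ℝ) + 2) ^ 2 * (αB * Real.exp (-x)) ^ 2 -
        (11 * ((n : ℝ) + 1) ^ 2 + 11 * ((n : ℝ) + 1) + 3) * (αB * Real.exp (-x)) -
        ((n : ℝ) + 1) ^ 2)) =
      (((n : ℝ) + 2) ^ 2 * αB ^ 2) * (Real.exp (-((((n + 2 : ℕ) : ℝ) + 1) * x)) * F0 bB x) -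
      ((11 * ((n : ℝ) + 1) ^ 2 + 11 * ((n : ℝ) + 1) + 3) * αB) *
        (Real.exp (-((((n + 1 : ℕ) : ℝ) + 1) * x)) * F0 bB x) -
      ((n : ℝ) + 1) ^ 2 * (Real.exp (-(((n : ℝ) + 1) * x)) * F0 bB x) := by
    intro x
    have e1 : Real.exp (-((((n + 1 : ℕ) : ℝ) + 1) * x)) =
        Real.exp (-(((n : ℝ) + 1) * x)) * Real.exp (-x) := by
      rw [← Real.exp_add]; congr 1; push_cast; ring
    have e2 : Real.exp (-((((n + 2 : ℕ) : ℝ) + 1) * x)) =
        Real.exp (-(((n : ℝ) + 1) * x)) * Real.exp (-x) ^ 2 := by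
      rw [← Real.exp_nat_mul, ← Real.exp_add]; congr 1; push_cast; ring
    rw [e1, e2]; ring
  have hFTC := intervalIntegral.integral_eq_sub_of_hasDerivAt (a := 0) (b := Lc) (f := PhiB n)
    (fun x hx => by
      rw [uIcc_of_le Lc_pos.le] at hx
      exact PhiB_deriv n hx.1 hx.2) (by
      simp only [e]
      exact (((hI _).const_mul _).sub ((hI _).const_mul _)).sub ((hI _).const_mul _))
  have h0 : PhiB n 0 = 0 := by
    have hS := SS_sq
    unfold PhiB gB αB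
    simp only [neg_zero, Real.exp_zero, mul_one]
    have : 1 + 11 * ((11 + SS) / 2) - ((11 + SS) / 2) ^ 2 = 0 := by nlinarith
    rw [this]; ring
  rw [h0, sub_zero] at hFTC
  rw [← hFTC]
  simp only [e]
  rw [intervalIntegral.integral_sub (((hI _).const_mul _).sub ((hI _).const_mul _))
    ((hI _).const_mul _), intervalIntegral.integral_sub ((hI _).const_mul _)
    ((hI _).const_mul _), intervalIntegral.integral_const_mul,
    intervalIntegral.integral_const_mul, intervalIntegral.integral_const_mul]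
  rfl

lemma αB_lo : 11.09016 < αB := by have := SS_lo; unfold αB; linarith
lemma αB_hi : αB < 11.0902 := by have := SS_hi; unfold αB; linarith

lemma F0B_L : F0 bB Lc ≤ 12 := by
  refine facB.growth.trans ?_
  rw [← exp_Lc]
  apply Real.exp_le_exp.mpr
  have := Lc_pos
  linarith

lemma PhiB_nonneg (n : ℕ) : 0 ≤ PhiB n Lc := by
  have h1 := facB.one_le Lc Lc_pos.le le_rfl
  have h2 := facB.nonneg Lc Lc_pos.le le_rfl
  have a1 := αB_lo
  have a2 := αB_hi
  unfold PhiB gB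
  rw [exp_neg_Lc]
  have : 0 ≤ 1 + 11 * (αB * (1 / 12)) - (αB * (1 / 12)) ^ 2 := by nlinarith
  positivity

lemma PhiB_le (n : ℕ) : PhiB n Lc ≤ (1 / 12) ^ (n + 1) * (125 * ((n : ℝ) + 1.76)) := by
  have h1 := facB.one_le Lc Lc_pos.le le_rfl
  have h2 := facB.nonneg Lc Lc_pos.le le_rfl
  have h3 := facB.le Lc Lc_pos.le le_rfl
  have h4 := F0B_L
  have a1 := αB_lo
  have a2 := αB_hi
  have a3 := exp_nLc (n + 1)
  push_cast at a3
  unfold PhiB gB
  rw [exp_neg_Lc, a3]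
  have hg0 : 0 ≤ 1 + 11 * (αB * (1 / 12)) - (αB * (1 / 12)) ^ 2 := by nlinarith
  have hg1 : 1 + 11 * (αB * (1 / 12)) - (αB * (1 / 12)) ^ 2 ≤ 10.4 := by nlinarith
  have hn : (0 : ℝ) ≤ n := Nat.cast_nonneg n
  have h5 : F1 bB Lc + ((n : ℝ) + 1) * F0 bB Lc ≤ 12 * (n + 1.76) := by nlinarith
  have h6 : 0 ≤ F1 bB Lc + ((n : ℝ) + 1) * F0 bB Lc := by positivity
  apply mul_le_mul_of_nonneg_left _ (by positivity)
  calc (1 + 11 * (αB * (1 / 12)) - (αB * (1 / 12)) ^ 2) * (F1 bB Lc + ((n : ℝ) + 1) * F0 bB Lc)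
      ≤ 10.4 * (12 * (n + 1.76)) := by gcongr
    _ ≤ _ := by nlinarith

lemma monoB : MonotoneOn (fun x => x ^ 2 * (1 + F1 bB x / F0 bB x)) (Ioc 0 Lc) := by
  have hd : ∀ x, 0 < x → x ≤ Lc → ∃ d, HasDerivAt (fun x => x ^ 2 * (1 + F1 bB x / F0 bB x)) d x ∧
      0 ≤ d := by
    intro x hx hxL
    obtain ⟨d, hd1, hd2⟩ := facB.kappa hx hxL
    refine ⟨2 * x + d, ?_, ?_⟩
    · have h1 := (hasDerivAt_pow 2 x).add hd1
      have e : (fun x => x ^ 2 * (1 + F1 bB x / F0 bB x)) =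
          (fun x => x ^ 2) + fun x => x ^ 2 * (F1 bB x / F0 bB x) := by
        funext x; simp only [Pi.add_apply]; ring
      rw [e]
      refine h1.congr_deriv ?_
      simp
    · have : -(76 / 100 * (1 / 2 + 5 / 2 * (76 / 100))) * x ≤ d := hd2
      nlinarith
  apply monotoneOn_of_deriv_nonneg (convex_Ioc 0 Lc)
  · intro x hx
    obtain ⟨d, h, _⟩ := hd x hx.1 hx.2
    exact h.continuousAt.continuousWithinAt
  · intro x hx
    rw [interior_Ioc] at hx
    obtain ⟨d, h, _⟩ := hd x hx.1 hx.2.le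
    exact h.differentiableAt.differentiableWithinAt
  · intro x hx
    rw [interior_Ioc] at hx
    obtain ⟨d, h, h'⟩ := hd x hx.1 hx.2.le
    rw [h.deriv]; exact h'

lemma seqB_pos (n : ℕ) : 0 < seqB n := by
  unfold seqB
  apply Finset.sum_pos
  · intro j hj
    have : j ≤ n := by simp at hj; omega
    have h1 := Nat.choose_pos this
    have h2 : 0 < (n + j).choose j := Nat.choose_pos (by omega)
    positivity
  · exact ⟨0, by simp⟩

lemma seqB_ratio (n : ℕ) : 6 * (seqB (n + 1) : ℝ) ≤ seqB (n + 2) := by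
  have h := seqB_rec n
  have h0 : (0 : ℝ) < seqB n := by exact_mod_cast seqB_pos n
  have h1 : (0 : ℝ) < seqB (n + 1) := by exact_mod_cast seqB_pos (n + 1)
  have hn : (0 : ℝ) ≤ n := Nat.cast_nonneg n
  have hp : (0 : ℝ) < ((n : ℝ) + 2) ^ 2 := by positivity
  have h2 : ((n : ℝ) + 2) ^ 2 * (6 * seqB (n + 1)) ≤ ((n : ℝ) + 2) ^ 2 * seqB (n + 2) := by
    rw [h]
    have h3 : ((n : ℝ) + 2) ^ 2 * 6 ≤ 11 * ((n : ℝ) + 1) ^ 2 + 11 * ((n : ℝ) + 1) + 3 := by nlinarith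
    have h4 : 0 ≤ ((n : ℝ) + 1) ^ 2 * seqB n := by positivity
    nlinarith
  exact le_of_mul_le_mul_left h2 hp

lemma mom_ratio_B (n : ℕ) : mom (F0 bB) (n + 1) ≤ 1 / 6 * (αB * mom (F0 bB) (n + 2)) := by
  have h := mom_rec_B n
  have h0 := PhiB_nonneg n
  have m0 : 0 ≤ mom (F0 bB) n := by
    unfold mom
    apply intervalIntegral.integral_nonneg Lc_pos.le
    intro x hx
    have := facB.one_le x hx.1 hx.2
    positivity
  have m1 : 0 < mom (F0 bB) (n + 1) := by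
    refine lt_of_lt_of_le ?_ (mom_lower contB F0B_ge (n + 1) (by omega))
    positivity
  have hα : 0 < αB := by have := αB_lo; linarith
  have hn : (0 : ℝ) ≤ n := Nat.cast_nonneg n
  have h3 : ((n : ℝ) + 2) ^ 2 * 6 ≤ 11 * ((n : ℝ) + 1) ^ 2 + 11 * ((n : ℝ) + 1) + 3 := by nlinarith
  have h4 : 0 ≤ ((n : ℝ) + 1) ^ 2 * mom (F0 bB) n := by positivity
  have h5 : ((n : ℝ) + 2) ^ 2 * αB * (6 * mom (F0 bB) (n + 1)) ≤
      ((n : ℝ) + 2) ^ 2 * αB * (αB * mom (F0 bB) (n + 2)) := by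
    have h6 : ((n : ℝ) + 2) ^ 2 * 6 * (αB * mom (F0 bB) (n + 1)) ≤
      (11 * ((n : ℝ) + 1) ^ 2 + 11 * ((n : ℝ) + 1) + 3) * (αB * mom (F0 bB) (n + 1)) := by gcongr
    linarith
  have h6 := le_of_mul_le_mul_left h5 (by positivity)
  linarith

theorem compareB : ∃ b : ℕ → ℝ, QP b ∧
    ∀ n, 10 ≤ n → |(seqB n : ℝ) - b n| ≤ 100 * (1 / 10) ^ n * b n := by
  have hL := Lc_pos
  have hα : 0 < αB := by have := αB_lo; linarith
  have hU0 := facB.nonneg Lc hL.le le_rfl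
  have hU1 := facB.le Lc hL.le le_rfl
  have hE := facB.one_le Lc hL.le le_rfl
  have hE0 : 0 < F0 bB Lc := by linarith
  obtain ⟨S, hrep, hSpos, hS⟩ := density_main (f := F0 bB) (f1 := F1 bB) hL
    (fun x hx hxL => by have := facB.one_le x hx.le hxL; linarith) contB
    (fun x hx hxL => facB.d1 x hx.le hxL) monoB
    (by have : 0 ≤ F1 bB Lc / F0 bB Lc := div_nonneg hU0 hE0.le
        linarith)
    (by have : F1 bB Lc / F0 bB Lc ≤ 76 / 100 := by rw [div_le_iff₀ hE0]; exact hU1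
        linarith)
  have hs : ∀ n, 1 ≤ n → 0 < mom (F0 bB) n := by
    intro n hn
    refine lt_of_lt_of_le ?_ (mom_lower contB F0B_ge n hn)
    positivity
  have ha : ∀ n, (0 : ℝ) < seqB n := fun n => by exact_mod_cast seqB_pos n
  refine compare_main (a := fun n => (seqB n : ℝ)) (s := mom (F0 bB)) (S := S) (α := αB) hα hrep
    hSpos (fun n _ => ha n) hs ?_ ?_ ?_
  · intro n hn
    obtain ⟨h1, h2⟩ := hS n (by omega)
    refine ⟨h1, h2.trans ?_⟩
    have := tail_bound contB F0B_ge F0B_L n hn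
    unfold mom at *
    linarith
  · have e2 : (seqB 2 : ℝ) = 19 := by
      have : seqB 2 = 19 := by decide
      rw [this]; norm_num
    have e1 : (seqB 1 : ℝ) = 3 := by
      have : seqB 1 = 3 := by decide
      rw [this]; norm_num
    have h1 := mom_ratio_B 0
    have p1 := hs 1 le_rfl
    have p2 := hs 2 (by norm_num)
    simp only [zero_add] at h1
    rw [e1, e2]
    have hb : mom (F0 bB) 1 / (αB * mom (F0 bB) 2) ≤ 1 / 6 := by
      rw [div_le_iff₀ (by positivity)]; exact h1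
    have hb0 : 0 < mom (F0 bB) 1 / (αB * mom (F0 bB) 2) := by positivity
    have e : 19 * mom (F0 bB) 1 / (αB * (3 * mom (F0 bB) 2)) =
        19 / 3 * (mom (F0 bB) 1 / (αB * mom (F0 bB) 2)) := by field_simp
    rw [e, abs_le]
    constructor <;> linarith
  · intro n hn
    have hrec := mom_rec_B n
    have harec := seqB_rec n
    have hratio : (seqB n : ℝ) ≤ 1 / 6 * seqB (n + 1) := by
      obtain ⟨m, rfl⟩ : ∃ m, n = m + 1 := ⟨n - 1, by omega⟩
      have := seqB_ratio m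
      linarith
    have p0 := hs n hn
    have p1 := hs (n + 1) (by omega)
    have p2 := hs (n + 2) (by omega)
    have hn0 : (0 : ℝ) ≤ n := Nat.cast_nonneg n
    have key := y_step (P := ((n : ℝ) + 2) ^ 2)
      (Q := 11 * ((n : ℝ) + 1) ^ 2 + 11 * ((n : ℝ) + 1) + 3) (N := ((n : ℝ) + 1) ^ 2)
      (a0 := seqB n) (a1 := seqB (n + 1)) (a2 := seqB (n + 2)) (s0 := mom (F0 bB) n)
      (s1 := mom (F0 bB) (n + 1)) (s2 := mom (F0 bB) (n + 2)) (α := αB) (δ := PhiB n Lc)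
      (ρ1 := 1 / 6) (ρ2 := 1 / 6) (by positivity) (ha n) (ha (n + 1)) p1 p2 hα
      (by rw [abs_of_nonneg (by positivity)]
          have : (n : ℝ) + 1 ≤ n + 2 := by linarith
          gcongr) hratio (mom_ratio_B n) harec (by linarith)
    refine key.trans ?_
    have hδ : |PhiB n Lc| / (αB ^ 2 * ((n : ℝ) + 2) ^ 2 * mom (F0 bB) (n + 2)) ≤
        10 * (1 / 10) ^ (n + 1) := by
      rw [abs_of_nonneg (PhiB_nonneg n), div_le_iff₀ (by positivity)]
      have hlow := mom_lower contB F0B_ge (n + 2) (by omega)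
      push_cast at hlow
      have hP := PhiB_le n
      have hα2 : 122.9 ≤ αB ^ 2 := by have := αB_lo; nlinarith
      have h12 : (1 / 12 : ℝ) ^ (n + 1) = (5 / 6) ^ (n + 1) * (1 / 10) ^ (n + 1) := by
        rw [← mul_pow]; norm_num
      have hb := pow_bound2 n
      have h10 : (0 : ℝ) < (1 / 10) ^ (n + 1) := by positivity
      have hpoly : ((n : ℝ) + 1.76) * ((n + 2 + 1) * (n + 2 + 2)) ≤ (n + 6) * ((n : ℝ) + 2) ^ 2 := by
        have hn1 : (1 : ℝ) ≤ n := by exact_mod_cast hn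
        nlinarith [mul_nonneg hn0 hn0]
      have hlow' : ((n : ℝ) + 2) ^ 2 * (9 / 10 / (((n : ℝ) + 2 + 1) * (n + 2 + 2))) * (n + 6) ≥
          9 / 10 * (n + 1.76) := by
        rw [ge_iff_le]
        have : ((n : ℝ) + 2) ^ 2 * (9 / 10 / (((n : ℝ) + 2 + 1) * (n + 2 + 2))) * (n + 6) =
          9 / 10 * ((n + 6) * ((n : ℝ) + 2) ^ 2) / (((n : ℝ) + 2 + 1) * (n + 2 + 2)) := by
          field_simp
        rw [this, le_div_iff₀ (by positivity)]
        linarith
      calc PhiB n Lc ≤ (1 / 12) ^ (n + 1) * (125 * ((n : ℝ) + 1.76)) := hP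
        _ = (1 / 10) ^ (n + 1) * ((5 / 6) ^ (n + 1) * (125 * ((n : ℝ) + 1.76))) := by
            rw [h12]; ring
        _ ≤ (1 / 10) ^ (n + 1) * ((5 / 6) ^ (n + 1) * (125 * (10 / 9 *
            (((n : ℝ) + 2) ^ 2 * (9 / 10 / (((n : ℝ) + 2 + 1) * (n + 2 + 2))) * (n + 6))))) := by
            gcongr
            linarith
        _ = (1 / 10) ^ (n + 1) * (125 * (10 / 9) * (((n : ℝ) + 2) ^ 2 *
            (9 / 10 / (((n : ℝ) + 2 + 1) * (n + 2 + 2)))) * ((5 / 6) ^ (n + 1) * (n + 6))) := by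
            ring
        _ ≤ (1 / 10) ^ (n + 1) * (125 * (10 / 9) * (((n : ℝ) + 2) ^ 2 *
            (9 / 10 / (((n : ℝ) + 2 + 1) * (n + 2 + 2)))) * 5) := by gcongr
        _ ≤ (1 / 10) ^ (n + 1) * (10 * 122.9 * (((n : ℝ) + 2) ^ 2 *
            (9 / 10 / (((n : ℝ) + 2 + 1) * (n + 2 + 2))))) := by
            apply mul_le_mul_of_nonneg_left _ h10.le
            have : 0 ≤ ((n : ℝ) + 2) ^ 2 * (9 / 10 / (((n : ℝ) + 2 + 1) * (n + 2 + 2))) := by
              positivity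
            linarith
        _ ≤ (1 / 10) ^ (n + 1) * (10 * αB ^ 2 * (((n : ℝ) + 2) ^ 2 * mom (F0 bB) (n + 2))) := by
            gcongr
        _ = _ := by ring
    have habs := abs_nonneg ((seqB (n + 1) : ℝ) * mom (F0 bB) n /
      (αB * (seqB n * mom (F0 bB) (n + 1))) - 1)
    linarith

/-- Infinite log-convexity of the second sequence. -/
theorem infB (k m : ℕ) : 0 < (Ls^[k] (fun n => (seqB n : ℝ))) m := by
  obtain ⟨b, hb, herr⟩ := compareB
  exact criterion hb herr finB.1 finB.2 k m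

end Pool.Agent.MP5ad
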